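import Pool.Agent.Lib.MP_bc5a73_al.Spectral
import Pool.Agent.Lib.MP_bc5a73_al.SmallIndex

/-! # Definitions for the lifting theorem (MP_bc5a73_al) -/

set_option autoImplicit false
open scoped BigOperators Matrix
open Matrix
namespace Pool.Agent.BC5

/-- Injective `K`-tuples of points of `Fin n`. The group `Alt n` acts on them by composition. -/
abbrev Tp (n K : ℕ) : Type := Fin K ↪ Fin n

/-- Labels: `(j, false)` and `(j, true)` form the `j`-th pair. -/
abbrev Lb (K : ℕ) : Type := Fin K × Bool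

section
variable {G X : Type} [Group G] [MulAction G X] [DecidableEq X]

/-- The permutation matrix of `g` on the `G`-set `X`: `(Pm g *ᵥ f) a = f (g⁻¹ • a)`. -/
def Pm (g : G) : Matrix X X ℝ := Matrix.of fun a b => if a = g • b then 1 else 0

/-- Symmetrised permutation matrix. -/
noncomputable def Sp (g : G) : Matrix X X ℝ := (1 / 2 : ℝ) • (Pm g + Pm g⁻¹)

/-- Weighted average of symmetrised permutation matrices. -/
noncomputable def Ap {ι : Type} [Fintype ι] (w : ι → ℝ) (x : ι → G) : Matrix X X ℝ := ∑ i, w i • Sp (x i)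

/-- The operator of the element `∑ α g g` of the group algebra. -/
noncomputable def opm [Fintype G] (α : G → ℝ) : Matrix X X ℝ := ∑ g, α g • Pm g

end

/-- Convolution. -/
noncomputable def cnv {G : Type} [Group G] [Fintype G] (α β : G → ℝ) (g : G) : ℝ := ∑ h, α h * β (h⁻¹ * g)

/-- Pure functions: all the sums over one coordinate are zero. -/
def IsPure {n K : ℕ} (f : Tp n K → ℝ) : Prop :=
  ∀ (j : Fin K) (a : Tp n K), ∑ b ∈ Finset.univ.filter (fun b : Tp n K => ∀ i, i ≠ j → b i = a i), f b = 0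

/-- Gap `ε` on the pure functions of the levels `1, …, k`. -/
def PGap {n : ℕ} {ι : Type} [Fintype ι] (w : ι → ℝ) (x : ι → Alt n) (ε : ℝ) (k : ℕ) : Prop :=
  ∀ j : ℕ, 1 ≤ j → j ≤ k → ∀ f : Tp n j → ℝ, IsPure f → qf (Ap w x) f ≤ (1 - ε) * (f ⬝ᵥ f)

/-- The probability distribution `α` mixes `k`-tuples. -/
def MixOk {n : ℕ} (α : Alt n → ℝ) (k : ℕ) : Prop :=
  ∀ c b : Tp n k, ∑ h ∈ Finset.univ.filter (fun h : Alt n => h • c = b), α h ≤ 2 / (n.descFactorial k : ℝ)

/-- The pair vector. -/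
def pv {n K : ℕ} (z : Lb K ↪ Fin n) (a : Tp n K) : ℝ :=
  ∏ j, ((if a j = z (j, false) then (1 : ℝ) else 0) - (if a j = z (j, true) then 1 else 0))

section
variable {n : ℕ}

/-- `y` or its inverse. -/
def yp (y : Alt n) (b : Bool) : Alt n := if b then y else y⁻¹

/-- The words `W 0 = h 0`, `W (s+1) = h (s+1) * y^{±1} * W s`. -/
def Wd (y : Alt n) (e : ℕ → Bool) (h : ℕ → Alt n) : ℕ → Alt n
  | 0 => h 0
  | s + 1 => h (s + 1) * yp y (e s) * Wd y e h s

/-- The source of the edge of `y` used by the label `l` in the step `s`. -/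
def src {K : ℕ} (y : Alt n) (e : ℕ → Bool) (h : ℕ → Alt n) (z : Lb K ↪ Fin n) (s : ℕ) (l : Lb K) : Fin n :=
  if e s then Wd y e h s • z l else y⁻¹ • (Wd y e h s • z l)

/-- How often the edge with source `u` is used in the steps `< N`. -/
def mlt {K : ℕ} (y : Alt n) (e : ℕ → Bool) (h : ℕ → Alt n) (z : Lb K ↪ Fin n) (N : ℕ) (u : Fin n) : ℕ :=
  ((Finset.range N ×ˢ (Finset.univ : Finset (Lb K))).filter (fun p => src y e h z p.1 p.2 = u)).card

/-- Both edges used by the `j`-th pair in the step `s` are used only once. -/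
def Canc {K : ℕ} (y : Alt n) (e : ℕ → Bool) (h : ℕ → Alt n) (z : Lb K ↪ Fin n) (N : ℕ) (s : ℕ) (j : Fin K) : Prop :=
  ∀ b : Bool, mlt y e h z N (src y e h z s (j, b)) = 1

/-- No pair cancels. -/
def NoCanc {K : ℕ} (y : Alt n) (e : ℕ → Bool) (h : ℕ → Alt n) (z : Lb K ↪ Fin n) (N : ℕ) : Prop :=
  ∀ s, s < N → ∀ j : Fin K, ¬ Canc y e h z N s j

/-- Extension of a finite sequence by `1`. -/
def ext1 {N : ℕ} (h : Fin N → Alt n) (s : ℕ) : Alt n := if hs : s < N then h ⟨s, hs⟩ else 1

/-- Product of the operators of the letters with `y^{±1}` between them. -/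
noncomputable def Prd {X : Type} [MulAction (Alt n) X] [DecidableEq X] [Fintype X] (y : Alt n) (e : ℕ → Bool)
    (a : ℕ → Alt n → ℝ) : ℕ → Matrix X X ℝ
  | 0 => opm (a 0)
  | s + 1 => opm (a (s + 1)) * Pm (yp y (e s)) * Prd y e a s

/-- The bound for the probability that one step has many repeated visits. -/
noncomputable def bet (n K k N : ℕ) : ℝ := 2 * 16 ^ k * (2 * K * N : ℝ) ^ k / (n.descFactorial k : ℝ)

end

end Pool.Agent.BC5
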