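import Pool.Agent.Lib.MP_bc5a73_al.Lift.Weights
import Pool.Agent.Lib.MP_bc5a73_al.SmallIndex
import Pool.Agent.Lib.MP_bc5a73_al.StatementSat

set_option autoImplicit false
open scoped BigOperators Matrix
open Matrix
namespace Pool.Agent.BC5

/-- F1. The final step. -/
theorem F1
    (hI1 : ∀ (i : ℕ) (a : ℝ), (a ≤ 0 ∨ a < 1 - (1 / 2) ^ i) → ∃ ε : ℝ, 0 < ε ∧ ε ≤ 1 ∧ ∃ n0 : ℕ, ∀ n : ℕ, n0 ≤ n →
      frac (fun x : Fin (2 + i) → Alt n => ¬ PGap (wts i) x ε ⌊(n : ℝ) ^ a⌋₊) ≤ (i + 1) * (n : ℝ) ^ (-(1 / 2) : ℝ))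
    (hL9 : ∀ (n m K : ℕ) (x : Fin m → Alt n) (w : Fin m → ℝ) (_ : IsWt w) (ε X : ℝ) (_ : 0 < ε) (_ : ε ≤ 1)
      (_ : 3 ≤ n) (_ : 1 ≤ K) (_ : K + 2 ≤ n) (_ : PGap w x ε K)
      (_ : ∀ H : Subgroup (Alt n), (H.index : ℝ) ≤ X → ∀ E : Matrix (Alt n) (Alt n) ℝ, IsBlock E →
        avL (subF H) * E ≠ 0 → LevLe K E), x ∈ SatExpd (Alt n) m X (ε / 2))
    (m : ℕ) (hm : 3 ≤ m) (a : ℝ) (ha : a < 1 - (1 / 2) ^ (m - 2)) :
    ∃ ε : ℝ, 0 < ε ∧ ∃ n0 : ℕ, ∀ n : ℕ, n0 ≤ n →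
      (1 - (n : ℝ) ^ (-(1 / 4) : ℝ)) * (Nat.card (Alt n) : ℝ) ^ m ≤
        (Nat.card (SatExpd (Alt n) m (Real.exp ((n : ℝ) ^ a)) ε) : ℝ) := by
  obtain ⟨i, rfl⟩ : ∃ i, m = 2 + i := ⟨m - 2, by omega⟩
  have him : 2 + i - 2 = i := by omega
  rw [him] at ha
  have hi1 : 1 ≤ i := by omega
  have hp : ((1 : ℝ) / 2) ^ i ≤ 1 / 2 := by
    calc ((1 : ℝ) / 2) ^ i ≤ (1 / 2) ^ 1 := pow_le_pow_of_le_one (by norm_num) (by norm_num) hi1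
      _ = 1 / 2 := pow_one _
  have hp0 : 0 < ((1 : ℝ) / 2) ^ i := by positivity
  have hM : max a 0 < 1 - (1 / 2) ^ i := max_lt ha (by linarith)
  have hM1 : a ≤ max a 0 := le_max_left _ _
  have hM2 : (0 : ℝ) ≤ max a 0 := le_max_right _ _
  obtain ⟨c1, hc1⟩ : ∃ c1 : ℝ, c1 = (max a 0 + (1 - (1 / 2) ^ i)) / 2 := ⟨_, rfl⟩
  have h1 : a < c1 := by rw [hc1]; linarith
  have h2 : 0 < c1 := by rw [hc1]; linarith
  have h3 : c1 < 1 - (1 / 2) ^ i := by rw [hc1]; linarith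
  have h4 : c1 < 1 := by linarith
  obtain ⟨ε, hε, hε1, n1, hn1⟩ := hI1 i c1 (Or.inr h3)
  obtain ⟨n2, hn2⟩ := level_of_subgroup a c1 h1 h2 h4.le
  have t1 : Filter.Tendsto (fun n : ℕ => (n : ℝ) ^ (1 - c1)) Filter.atTop Filter.atTop :=
    (tendsto_rpow_atTop (by linarith)).comp tendsto_natCast_atTop_atTop
  have t2 : Filter.Tendsto (fun n : ℕ => (n : ℝ) ^ ((1 : ℝ) / 4)) Filter.atTop Filter.atTop :=
    (tendsto_rpow_atTop (by norm_num)).comp tendsto_natCast_atTop_atTop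
  have e1 := t1.eventually_ge_atTop 2
  have e2 := t2.eventually_ge_atTop ((i : ℝ) + 1)
  obtain ⟨n3, hn3⟩ := Filter.eventually_atTop.1 (e1.and e2)
  refine ⟨ε / 2, by positivity, max (max n1 n2) (max n3 4), fun n hn => ?_⟩
  have g1 : n1 ≤ n := le_trans (le_max_left _ _) (le_of_max_le_left hn)
  have g2 : n2 ≤ n := le_trans (le_max_right _ _) (le_of_max_le_left hn)
  have g3 : n3 ≤ n := le_trans (le_max_left _ _) (le_of_max_le_right hn)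
  have g4 : 4 ≤ n := le_trans (le_max_right _ _) (le_of_max_le_right hn)
  obtain ⟨f1, f2⟩ := hn3 n g3
  have hn0 : (0 : ℝ) < n := by exact_mod_cast (by omega : 0 < n)
  have hn4 : (4 : ℝ) ≤ n := by exact_mod_cast g4
  have hnc0 : 0 < (n : ℝ) ^ c1 := Real.rpow_pos_of_pos hn0 _
  have hK1 : 1 ≤ ⌊(n : ℝ) ^ c1⌋₊ := by
    rw [Nat.le_floor_iff hnc0.le, Nat.cast_one]
    exact Real.one_le_rpow (by linarith) h2.le
  have hK2 : ⌊(n : ℝ) ^ c1⌋₊ + 2 ≤ n := by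
    have h5 : (n : ℝ) ^ (1 - c1) * (n : ℝ) ^ c1 = n := by
      rw [← Real.rpow_add hn0, sub_add_cancel, Real.rpow_one]
    have h6 : 2 * (n : ℝ) ^ c1 ≤ n := (mul_le_mul_of_nonneg_right f1 hnc0.le).trans_eq h5
    have h7 : ((⌊(n : ℝ) ^ c1⌋₊ : ℕ) : ℝ) ≤ (n : ℝ) ^ c1 := Nat.floor_le hnc0.le
    have h8 : ((⌊(n : ℝ) ^ c1⌋₊ + 2 : ℕ) : ℝ) ≤ (n : ℝ) := by
      push_cast
      linarith
    exact_mod_cast h8
  have hsub : ∀ x : Fin (2 + i) → Alt n, PGap (wts i) x ε ⌊(n : ℝ) ^ c1⌋₊ →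
      x ∈ SatExpd (Alt n) (2 + i) (Real.exp ((n : ℝ) ^ a)) (ε / 2) := fun x hx =>
    hL9 n (2 + i) _ x (wts i) (wts_isWt i) ε _ hε hε1 (by omega) hK1 hK2 hx (hn2 n g2)
  have hne : Nonempty (Fin (2 + i) → Alt n) := ⟨fun _ => 1⟩
  have h5 := hn1 n g1
  rw [frac_not] at h5
  have h6 := frac_mono hsub
  have h7 : ((i : ℝ) + 1) * (n : ℝ) ^ (-(1 / 2) : ℝ) ≤ (n : ℝ) ^ (-(1 / 4) : ℝ) := by
    have h8 : (n : ℝ) ^ (-(1 / 4) : ℝ) = (n : ℝ) ^ ((1 : ℝ) / 4) * (n : ℝ) ^ (-(1 / 2) : ℝ) := by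
      rw [← Real.rpow_add hn0]
      norm_num
    rw [h8]
    exact mul_le_mul_of_nonneg_right f2 (Real.rpow_nonneg hn0.le _)
  have h9 := frac_eq_card (fun x : Fin (2 + i) → Alt n =>
    x ∈ SatExpd (Alt n) (2 + i) (Real.exp ((n : ℝ) ^ a)) (ε / 2))
  have h10 : (Nat.card (Fin (2 + i) → Alt n) : ℝ) = (Nat.card (Alt n) : ℝ) ^ (2 + i) := by
    rw [Nat.card_fun, Nat.card_eq_fintype_card (α := Fin (2 + i)), Fintype.card_fin]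
    push_cast; rfl
  rw [h10] at h9
  have h11 : (Nat.card (SatExpd (Alt n) (2 + i) (Real.exp ((n : ℝ) ^ a)) (ε / 2)) : ℝ) =
      (Nat.card {x : Fin (2 + i) → Alt n // x ∈ SatExpd (Alt n) (2 + i) (Real.exp ((n : ℝ) ^ a)) (ε / 2)} : ℝ) := rfl
  rw [h11, ← h9]
  refine mul_le_mul_of_nonneg_right ?_ (by positivity)
  linarith

end Pool.Agent.BC5
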