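import Pool.Agent.Lib.MP_bc5a73_al.Lift.Mix

/-! # The spectral step (MP_bc5a73_al) -/

set_option autoImplicit false
set_option linter.unusedSectionVars false
set_option linter.unusedVariables false
open scoped BigOperators Matrix
open Matrix
namespace Pool.Agent.BC5

section
variable {V : Type} [Fintype V] [DecidableEq V]

/-- The Euclidean norm. -/
noncomputable def nm (u : V → ℝ) : ℝ := Real.sqrt (u ⬝ᵥ u)

theorem nm_nonneg (u : V → ℝ) : 0 ≤ nm u := Real.sqrt_nonneg _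

theorem nm_sq (u : V → ℝ) : nm u ^ 2 = u ⬝ᵥ u := Real.sq_sqrt (dot_self_nonneg u)

theorem dot_le_nm (u v : V → ℝ) : u ⬝ᵥ v ≤ nm u * nm v := by
  have h := L1_dot_cs u v
  have h2 : (nm u * nm v) ^ 2 = (u ⬝ᵥ u) * (v ⬝ᵥ v) := by rw [mul_pow, nm_sq, nm_sq]
  exact le_of_sq_le_sq' (by rw [h2]; exact h) (mul_nonneg (nm_nonneg u) (nm_nonneg v))
where
  le_of_sq_le_sq' {a b : ℝ} (h : a ^ 2 ≤ b ^ 2) (hb : 0 ≤ b) : a ≤ b := abs_le_of_sq_le_sq' h hb |>.2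

theorem nm_add_le (u v : V → ℝ) : nm (u + v) ≤ nm u + nm v := by
  have h1 : (u + v) ⬝ᵥ (u + v) = u ⬝ᵥ u + 2 * (u ⬝ᵥ v) + v ⬝ᵥ v := by
    rw [add_dotProduct, dotProduct_add, dotProduct_add, dotProduct_comm v u]
    ring
  refine Real.sqrt_le_iff.2 ⟨add_nonneg (nm_nonneg u) (nm_nonneg v), ?_⟩
  rw [h1, ← nm_sq, ← nm_sq]
  have := dot_le_nm u v
  nlinarith

theorem pr_symm {P : Matrix V V ℝ} (hP : IsPr P) (u v : V → ℝ) : (P *ᵥ u) ⬝ᵥ v = u ⬝ᵥ (P *ᵥ v) := by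
  rw [Matrix.dotProduct_mulVec, ← Matrix.mulVec_transpose, hP.1]

theorem nm_pr_le {P : Matrix V V ℝ} (hP : IsPr P) (u : V → ℝ) : nm (P *ᵥ u) ≤ nm u := by
  unfold nm
  rw [← qf_pr hP]
  exact Real.sqrt_le_sqrt (Q7_qf_pr_le hP u)

theorem nm_orth {R : Matrix V V ℝ} (hR : Rᵀ * R = 1) (u : V → ℝ) : nm (R *ᵥ u) = nm u := by
  unfold nm
  rw [Matrix.dotProduct_mulVec, Matrix.vecMul_mulVec, hR, Matrix.vecMul_one]

/-- Spectral projection onto the large eigenvalues. -/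
theorem spec_pack (T : Matrix V V ℝ) (hT : Tᵀ = T) (h0 : ∀ v, 0 ≤ qf T v) (h1 : ∀ v, qf T v ≤ v ⬝ᵥ v) (θ : ℝ)
    (hθ : 0 ≤ θ) (hθ1 : θ ≤ 1) :
    ∃ P : Matrix V V ℝ, IsPr P ∧ (∀ X, Commute X T → Commute X P) ∧
      (∀ f, (1 - θ) * (f ⬝ᵥ f - qf P f) ≤ f ⬝ᵥ f - qf T f) ∧ ∀ (s : ℕ) (v : V → ℝ), θ ^ s * qf P v ≤ qf (T ^ s) v := by
  obtain ⟨U, d, hU1, hU2, hTU⟩ := L2_spec T hT
  have hsingle : ∀ (e : V → ℝ) (i : V), ∑ j, e j * (Pi.single i (1 : ℝ) : V → ℝ) j ^ 2 = e i := by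
    intro e i
    rw [Finset.sum_eq_single i]
    · simp
    · intro j _ hj
      rw [Pi.single_eq_of_ne hj]
      ring
    · intro h
      exact absurd (Finset.mem_univ i) h
  have hd : ∀ i, 0 ≤ d i ∧ d i ≤ 1 := by
    intro i
    have h2 := h0 (U *ᵥ (Pi.single i 1))
    have h3 := h1 (U *ᵥ (Pi.single i 1))
    rw [L2_dot hU1] at h3
    rw [hTU, L2_qf, Matrix.mulVec_mulVec, hU2, Matrix.one_mulVec, hsingle] at h2 h3
    have h4 := hsingle (fun _ => 1) i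
    simp only [one_mul] at h4
    rw [h4] at h3
    exact ⟨h2, h3⟩
  have hind : ∀ i, (if θ ≤ d i then (1 : ℝ) else 0) * (if θ ≤ d i then (1 : ℝ) else 0) = if θ ≤ d i then (1 : ℝ) else 0 := by
    intro i
    split_ifs <;> norm_num
  refine ⟨U * diagonal (fun i => if θ ≤ d i then (1 : ℝ) else 0) * Uᵀ, ⟨?_, ?_⟩, ?_, ?_, ?_⟩
  · rw [Matrix.transpose_mul, Matrix.transpose_mul, Matrix.transpose_transpose, Matrix.diagonal_transpose, mul_assoc]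
  · rw [L2_mul hU2]
    simp only [hind]
  · intro X hX
    rw [hTU] at hX
    exact L2_comm hU1 hU2 d (fun t => if θ ≤ t then (1 : ℝ) else 0) X hX
  · intro f
    rw [L2_qf, hTU, L2_qf, L2_dot hU1 f, ← Finset.sum_sub_distrib, ← Finset.sum_sub_distrib, Finset.mul_sum]
    refine Finset.sum_le_sum fun i _ => ?_
    have h2 := sq_nonneg ((Uᵀ *ᵥ f) i)
    have h3 := hd i
    by_cases hi : θ ≤ d i
    · rw [if_pos hi]
      nlinarith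
    · rw [if_neg hi]
      have h4 := (not_le.1 hi).le
      nlinarith
  · intro s v
    rw [L2_qf, hTU, L3_pow hU2 hU1, L3_qf, Finset.mul_sum]
    refine Finset.sum_le_sum fun i _ => ?_
    rw [← mul_assoc]
    refine mul_le_mul_of_nonneg_right ?_ (sq_nonneg _)
    by_cases hi : θ ≤ d i
    · rw [if_pos hi, mul_one]
      exact pow_le_pow_left₀ hθ hi s
    · rw [if_neg hi, mul_zero]
      exact pow_nonneg (hd i).1 s

theorem qf_sandwich (M X : Matrix V V ℝ) (v : V → ℝ) : qf (Xᵀ * M * X) v = qf M (X *ᵥ v) := by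
  unfold qf
  rw [← Matrix.mulVec_mulVec, ← Matrix.mulVec_mulVec, Matrix.dotProduct_mulVec, Matrix.vecMul_transpose]

/-- L8b. Two almost invariant projections. -/
theorem L8b (T R Q : Matrix V V ℝ) (hT : Tᵀ = T) (h0 : ∀ v, 0 ≤ qf T v)
    (h1 : ∀ v, qf T v ≤ v ⬝ᵥ v) (hR : R * Rᵀ = 1) (hR' : Rᵀ * R = 1) (hQ : IsPr Q) (hQT : Commute Q T)
    (hQR : Commute Q R) (η : ℝ) (hη : 0 < η) (hη1 : η ≤ 1 / 2) (t : ℕ) (f : V → ℝ) (hf : Q *ᵥ f = f)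
    (hf1 : f ⬝ᵥ f = 1) (ha : 1 - qf T f < η / 64) (hb : 1 - qf ((1 / 2 : ℝ) • (R + Rᵀ)) f < 1 / 32) :
    ∃ g : V → ℝ, Q *ᵥ g = g ∧ g ⬝ᵥ g = 1 ∧
      (1 - η) ^ (4 * t) / 4 ≤ qf (T ^ t * (R * T ^ (2 * t) * Rᵀ) * T ^ t) g := by
  obtain ⟨P, hP, hPc, hP1, hP2⟩ := spec_pack T hT h0 h1 (1 - η) (by linarith) (by linarith)
  have hQP : Commute Q P := hPc Q hQT
  have hQRt : Commute Q Rᵀ := by
    have h2 := congrArg Matrix.transpose hQR.eq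
    rw [Matrix.transpose_mul, Matrix.transpose_mul, hQ.1] at h2
    exact h2.symm
  have hP' : IsPr (R * P * Rᵀ) := by
    refine ⟨?_, ?_⟩
    · rw [Matrix.transpose_mul, Matrix.transpose_mul, Matrix.transpose_transpose, hP.1, mul_assoc]
    · calc R * P * Rᵀ * (R * P * Rᵀ) = R * P * (Rᵀ * R) * P * Rᵀ := by simp only [mul_assoc]
        _ = R * (P * P) * Rᵀ := by rw [hR', mul_one, mul_assoc R P P]
        _ = R * P * Rᵀ := by rw [hP.2]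
  have hTt : (T ^ t)ᵀ = T ^ t := by rw [Matrix.transpose_pow, hT]
  obtain ⟨P', hP'def⟩ : ∃ P', P' = R * P * Rᵀ := ⟨_, rfl⟩
  rw [← hP'def] at hP'
  obtain ⟨w, hw⟩ : ∃ w, w = P' *ᵥ (P *ᵥ f) := ⟨_, rfl⟩
  -- the norm of `w`
  have hnf : nm f = 1 := by rw [nm, hf1, Real.sqrt_one]
  have e1 : nm (f - P *ᵥ f) ≤ 1 / 8 := by
    refine Real.sqrt_le_iff.2 ⟨by norm_num, ?_⟩
    have h2 : (f - P *ᵥ f) ⬝ᵥ (f - P *ᵥ f) = f ⬝ᵥ f - qf P f := by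
      rw [sub_dotProduct, dotProduct_sub, dotProduct_sub, ← qf_pr hP, dotProduct_comm (P *ᵥ f) f]
      unfold qf
      ring
    have h3 := hP1 f
    rw [hf1] at h3
    rw [h2, hf1]
    have h4 : η * (1 - qf P f) < η / 64 := by
      calc η * (1 - qf P f) = (1 - (1 - η)) * (1 - qf P f) := by ring
        _ ≤ _ := h3
        _ < _ := ha
    have h5 : 1 - qf P f < 1 / 64 := by
      by_contra hcon
      push Not at hcon
      nlinarith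
    linarith
  have e2 : nm (Rᵀ *ᵥ f - f) ≤ 1 / 4 := by
    refine Real.sqrt_le_iff.2 ⟨by norm_num, ?_⟩
    have h2 : (Rᵀ *ᵥ f) ⬝ᵥ (Rᵀ *ᵥ f) = 1 := by
      rw [Matrix.dotProduct_mulVec, Matrix.vecMul_transpose, Matrix.mulVec_mulVec, hR, Matrix.one_mulVec, hf1]
    have h3 : qf R f = (Rᵀ *ᵥ f) ⬝ᵥ f := by
      unfold qf
      rw [Matrix.dotProduct_mulVec, Matrix.mulVec_transpose]
    have h4 : qf Rᵀ f = (Rᵀ *ᵥ f) ⬝ᵥ f := dotProduct_comm _ _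
    rw [qf_smul, qf_add, h3, h4] at hb
    rw [sub_dotProduct, dotProduct_sub, dotProduct_sub, h2, hf1, dotProduct_comm f]
    linarith
  have e3 : nm (f - P' *ᵥ f) ≤ 3 / 8 := by
    have h2 : f - P' *ᵥ f = R *ᵥ ((1 - P) *ᵥ (Rᵀ *ᵥ f)) := by
      rw [Matrix.sub_mulVec, Matrix.one_mulVec, Matrix.mulVec_sub, Matrix.mulVec_mulVec, hR, Matrix.one_mulVec,
        Matrix.mulVec_mulVec, Matrix.mulVec_mulVec, hP'def, mul_assoc]
    have h3 : (1 - P) *ᵥ (Rᵀ *ᵥ f) = (1 - P) *ᵥ f + (1 - P) *ᵥ (Rᵀ *ᵥ f - f) := by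
      rw [Matrix.mulVec_sub]
      abel
    have h4 : (1 - P) *ᵥ f = f - P *ᵥ f := by rw [Matrix.sub_mulVec, Matrix.one_mulVec]
    rw [h2, nm_orth hR', h3]
    refine (nm_add_le _ _).trans ?_
    have h5 := nm_pr_le hP.compl (Rᵀ *ᵥ f - f)
    rw [h4]
    linarith
  have e4 : 1 / 2 ≤ nm w := by
    have h2 : f = w + ((f - P' *ᵥ f) + P' *ᵥ (f - P *ᵥ f)) := by
      rw [hw, Matrix.mulVec_sub]
      abel
    have h3 := nm_add_le w ((f - P' *ᵥ f) + P' *ᵥ (f - P *ᵥ f))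
    have h4 := nm_add_le (f - P' *ᵥ f) (P' *ᵥ (f - P *ᵥ f))
    have h5 := nm_pr_le hP' (f - P *ᵥ f)
    rw [← h2, hnf] at h3
    linarith
  have e5 : 1 / 4 ≤ w ⬝ᵥ w := by
    rw [← nm_sq]
    nlinarith
  have hP'w : P' *ᵥ w = w := by rw [hw, Matrix.mulVec_mulVec, hP'.2]
  have e6 : (w ⬝ᵥ w) ^ 2 ≤ qf P w := by
    have h2 : w ⬝ᵥ w = (P *ᵥ w) ⬝ᵥ f := by
      calc w ⬝ᵥ w = w ⬝ᵥ (P' *ᵥ (P *ᵥ f)) := by rw [← hw]
        _ = (P' *ᵥ w) ⬝ᵥ (P *ᵥ f) := (pr_symm hP' _ _).symm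
        _ = w ⬝ᵥ (P *ᵥ f) := by rw [hP'w]
        _ = _ := (pr_symm hP _ _).symm
    rw [h2, qf_pr hP]
    refine (L1_dot_cs _ _).trans ?_
    rw [hf1, mul_one]
  obtain ⟨u, hu⟩ : ∃ u, u = T ^ t *ᵥ w := ⟨_, rfl⟩
  obtain ⟨v, hv⟩ : ∃ v, v = T ^ t *ᵥ u := ⟨_, rfl⟩
  have hTsymm : ∀ a b : V → ℝ, (T ^ t *ᵥ a) ⬝ᵥ b = a ⬝ᵥ (T ^ t *ᵥ b) := by
    intro a b
    rw [Matrix.dotProduct_mulVec, ← Matrix.mulVec_transpose, hTt]
  have e7 : u ⬝ᵥ u = w ⬝ᵥ v := by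
    rw [hv, ← hTsymm, ← hu]
  have e8 : u ⬝ᵥ u = qf (T ^ (2 * t)) w := by
    rw [e7, hv, hu, Matrix.mulVec_mulVec, ← pow_add, ← two_mul]
    rfl
  have e9 : (1 - η) ^ (2 * t) * qf P w ≤ u ⬝ᵥ u := by
    rw [e8]
    exact hP2 _ _
  have hlam : 0 < (1 - η) ^ (2 * t) := pow_pos (by linarith) _
  have e10 : (1 - η) ^ (2 * t) * (w ⬝ᵥ w) ^ 2 ≤ u ⬝ᵥ u :=
    (mul_le_mul_of_nonneg_left e6 hlam.le).trans e9
  have huu : 0 < u ⬝ᵥ u := lt_of_lt_of_le (by positivity) e10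
  have e11 : (u ⬝ᵥ u) ^ 2 ≤ (w ⬝ᵥ w) * qf P' v := by
    have h2 : w ⬝ᵥ v = w ⬝ᵥ (P' *ᵥ v) := by rw [← pr_symm hP', hP'w]
    rw [e7, h2, qf_pr hP']
    exact L1_dot_cs _ _
  have e12 : (1 - η) ^ (2 * t) * qf P' v ≤ qf (R * T ^ (2 * t) * Rᵀ) v := by
    have h2 := hP2 (2 * t) (Rᵀ *ᵥ v)
    rw [← qf_sandwich, ← qf_sandwich, Matrix.transpose_transpose] at h2
    rw [hP'def]
    exact h2
  have e13 : qf (T ^ t * (R * T ^ (2 * t) * Rᵀ) * T ^ t) u = qf (R * T ^ (2 * t) * Rᵀ) v := by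
    have h2 := qf_sandwich (R * T ^ (2 * t) * Rᵀ) (T ^ t) u
    rw [hTt] at h2
    rw [h2, hv]
  -- the vector
  have hQu : Q *ᵥ u = u := by
    have h2 : Commute Q (T ^ t) := hQT.pow_right t
    have h3 : Commute Q P' := by
      rw [hP'def]
      exact (hQR.mul_right hQP).mul_right hQRt
    rw [hu, Matrix.mulVec_mulVec, h2.eq, ← Matrix.mulVec_mulVec]
    congr 1
    rw [hw, Matrix.mulVec_mulVec, Matrix.mulVec_mulVec, Matrix.mulVec_mulVec, h3.eq, mul_assoc, hQP.eq, ← mul_assoc,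
      ← Matrix.mulVec_mulVec, hf]
  refine ⟨(nm u)⁻¹ • u, ?_, ?_, ?_⟩
  · rw [Matrix.mulVec_smul, hQu]
  · rw [smul_dotProduct, dotProduct_smul, smul_eq_mul, smul_eq_mul, ← mul_assoc, ← sq, inv_pow, nm_sq,
      inv_mul_cancel₀ huu.ne']
  · have h2 : ∀ M : Matrix V V ℝ, qf M ((nm u)⁻¹ • u) = (u ⬝ᵥ u)⁻¹ * qf M u := by
      intro M
      unfold qf
      rw [Matrix.mulVec_smul, smul_dotProduct, dotProduct_smul, smul_eq_mul, smul_eq_mul, ← mul_assoc, ← sq, inv_pow,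
        nm_sq]
    rw [h2, e13, inv_mul_eq_div, le_div_iff₀ huu]
    have hww : 0 < w ⬝ᵥ w := by linarith
    have h3 : (1 - η) ^ (4 * t) = (1 - η) ^ (2 * t) * (1 - η) ^ (2 * t) := by
      rw [← pow_add]
      congr 1
      ring
    rw [h3]
    set L := (1 - η) ^ (2 * t) with hL
    -- `L (u·u)² ≤ (w·w) L qf P' v ≤ (w·w) qf ..`
    have h4 : L * (u ⬝ᵥ u) ^ 2 ≤ (w ⬝ᵥ w) * qf (R * T ^ (2 * t) * Rᵀ) v := by
      calc L * (u ⬝ᵥ u) ^ 2 ≤ L * ((w ⬝ᵥ w) * qf P' v) := mul_le_mul_of_nonneg_left e11 hlam.le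
        _ = (w ⬝ᵥ w) * (L * qf P' v) := by ring
        _ ≤ _ := mul_le_mul_of_nonneg_left e12 hww.le
    have h5 : L * L / 4 * (u ⬝ᵥ u) * (w ⬝ᵥ w) ≤ L * (u ⬝ᵥ u) ^ 2 := by
      have h6 : L * (w ⬝ᵥ w) / 4 ≤ u ⬝ᵥ u := by
        refine le_trans ?_ e10
        have : (w ⬝ᵥ w) / 4 ≤ (w ⬝ᵥ w) ^ 2 := by nlinarith
        calc L * (w ⬝ᵥ w) / 4 = L * ((w ⬝ᵥ w) / 4) := by ring
          _ ≤ _ := mul_le_mul_of_nonneg_left this hlam.le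
      calc L * L / 4 * (u ⬝ᵥ u) * (w ⬝ᵥ w) = L * (u ⬝ᵥ u) * (L * (w ⬝ᵥ w) / 4) := by ring
        _ ≤ L * (u ⬝ᵥ u) * (u ⬝ᵥ u) := mul_le_mul_of_nonneg_left h6 (mul_nonneg hlam.le huu.le)
        _ = _ := by ring
    have h7 := h5.trans h4
    rw [mul_comm (w ⬝ᵥ w)] at h7
    exact le_of_mul_le_mul_right h7 hww

end

end Pool.Agent.BC5
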