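import Pool.Agent.Lib.MP_bc5a73_al.Lift.Weights
import Pool.Agent.Lib.MP_bc5a73_al.Lift.SpecStep

/-! Iteration of the one fresh element step. -/

set_option autoImplicit false
open scoped BigOperators Matrix
open Matrix
namespace Pool.Agent.BC5

/-- Two stages with one new coordinate. -/
theorem I1_frac {N : ℕ} {H : Type} [Fintype H] [Nonempty H] (P : (Fin N → H) → Prop) (Q : (Fin (N + 1) → H) → Prop)
    (a b : ℝ) (h1 : frac (fun x => ¬ P x) ≤ a) (hb : 0 ≤ b)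
    (h2 : ∀ x, P x → frac (fun y : H => ¬ Q (Fin.snoc (α := fun _ => H) x y)) ≤ b) :
    frac (fun z => ¬ Q z) ≤ a + b := by
  classical
  have h3 := frac_two_stages (ι := Fin N) (κ := Unit) (H := H) P
    (fun z => Q (Fin.snoc (α := fun _ => H) (fun j => z (Sum.inl j)) (z (Sum.inr ())))) a b h1 hb (by
      intro x hx
      have h4 := h2 x hx
      rw [← frac_equiv (Equiv.funUnique Unit H) (fun y : H => ¬ Q (Fin.snoc (α := fun _ => H) x y))] at h4
      exact h4)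
  let e : (Fin N ⊕ Unit → H) ≃ (Fin (N + 1) → H) :=
    { toFun := fun z => Fin.snoc (α := fun _ => H) (fun j => z (Sum.inl j)) (z (Sum.inr ()))
      invFun := fun x => Sum.elim (fun j => x (Fin.castSucc j)) (fun _ => x (Fin.last N))
      left_inv := by
        intro z
        funext s
        rcases s with j | u
        · simp
        · simp
      right_inv := by
        intro x
        funext j
        refine Fin.lastCases ?_ (fun j => ?_) j
        · simp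
        · simp }
  rw [← frac_equiv e (fun z => ¬ Q z)]
  exact h3

theorem I1_mono {n : ℕ} {ι : Type} [Fintype ι] {w : ι → ℝ} {x : ι → Alt n} {ε : ℝ} {k k' : ℕ} (h : k' ≤ k)
    (hP : PGap w x ε k) : PGap w x ε k' :=
  fun j h1 h2 f hf => hP j h1 (h2.trans h) f hf

/-- I1. Iteration of the one fresh element step. -/
theorem I1
    (hL1 : ∃ n0 : ℕ, ∀ n : ℕ, n0 ≤ n → frac (fun x : Fin 2 → Alt n => ¬ PGap (wts 0) x (1 / 80000) 1) ≤ (n : ℝ) ^ (-(1 / 2) : ℝ))
    (hOF : ∀ c ε : ℝ, 0 < c → c < 1 → 0 < ε → ε ≤ 1 → ∃ n0 : ℕ, ∀ n : ℕ, n0 ≤ n → ∀ (i : ℕ) (w : Fin i → ℝ), IsWt w →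
      ∀ (x : Fin i → Alt n) (k k1 : ℕ), 1 ≤ k → (k1 : ℝ) ^ 2 ≤ c * k * (n : ℝ) ^ (1 - c) / 80000 → PGap w x ε k →
        frac (fun y : Alt n => ¬ PGap (Fin.snoc (α := fun _ => ℝ) (fun j => w j / 2) (1 / 2))
          (Fin.snoc (α := fun _ => Alt n) x y) (c * ε / 16384) k1) ≤ 1 / n)
    (i : ℕ) (a : ℝ) (ha : a ≤ 0 ∨ a < 1 - (1 / 2) ^ i) :
    ∃ ε : ℝ, 0 < ε ∧ ε ≤ 1 ∧ ∃ n0 : ℕ, ∀ n : ℕ, n0 ≤ n →
      frac (fun x : Fin (2 + i) → Alt n => ¬ PGap (wts i) x ε ⌊(n : ℝ) ^ a⌋₊) ≤ (i + 1) * (n : ℝ) ^ (-(1 / 2) : ℝ) := by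
  induction i generalizing a with
  | zero =>
    have ha0 : a ≤ 0 := by
      rcases ha with h | h
      · exact h
      · norm_num at h
        exact h.le
    obtain ⟨n0, hn0⟩ := hL1
    refine ⟨1 / 80000, by norm_num, by norm_num, max n0 1, fun n hn => ?_⟩
    have hn1 : (1 : ℝ) ≤ n := by exact_mod_cast (le_max_right n0 1).trans hn
    have hfl : ⌊(n : ℝ) ^ a⌋₊ ≤ 1 := by
      have h1 : (n : ℝ) ^ a ≤ 1 := Real.rpow_le_one_of_one_le_of_nonpos hn1 ha0
      calc ⌊(n : ℝ) ^ a⌋₊ ≤ ⌊(1 : ℝ)⌋₊ := Nat.floor_le_floor h1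
        _ = 1 := by simp
    have h2 := hn0 n ((le_max_left n0 1).trans hn)
    have h3 : frac (fun x : Fin 2 → Alt n => ¬ PGap (wts 0) x (1 / 80000) ⌊(n : ℝ) ^ a⌋₊) ≤
        frac (fun x : Fin 2 → Alt n => ¬ PGap (wts 0) x (1 / 80000) 1) :=
      frac_mono fun x hx hP => hx (I1_mono hfl hP)
    calc frac (fun x : Fin (2 + 0) → Alt n => ¬ PGap (wts 0) x (1 / 80000) ⌊(n : ℝ) ^ a⌋₊)
        ≤ (n : ℝ) ^ (-(1 / 2) : ℝ) := h3.trans h2
      _ = ((0 : ℕ) + 1) * (n : ℝ) ^ (-(1 / 2) : ℝ) := by simp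
  | succ i ih =>
    set q : ℝ := (1 / 2 : ℝ) ^ i with hq
    have hq0 : 0 < q := by positivity
    have hq1 : q ≤ 1 := pow_le_one₀ (by norm_num) (by norm_num)
    have hqs : (1 / 2 : ℝ) ^ (i + 1) = q / 2 := by rw [pow_succ, ← hq]; ring
    set a1 : ℝ := max a 0 with ha1
    have ha10 : 0 ≤ a1 := le_max_right _ _
    have ha1lt : a1 < 1 - q / 2 := by
      rw [hqs] at ha
      refine max_lt ?_ (by linarith)
      rcases ha with h | h
      · linarith
      · exact h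
    set a' : ℝ := max 0 (a1 - q / 2) with ha'
    have ha'0 : 0 ≤ a' := le_max_left _ _
    have ha'cond : a' ≤ 0 ∨ a' < 1 - q := by
      rcases le_total (a1 - q / 2) 0 with h | h
      · left
        rw [ha', max_eq_left h]
      · right
        rw [ha', max_eq_right h]
        linarith
    have ha'2 : 2 * a1 - 1 < a' := lt_of_lt_of_le (by linarith) (le_max_right 0 (a1 - q / 2))
    set c : ℝ := (a' + 1 - 2 * a1) / 2 with hc
    have hc0 : 0 < c := by
      rw [hc]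
      linarith
    have hc1 : c < 1 := by
      rw [hc]
      have : a' ≤ a1 := by
        rw [ha']
        exact max_le ha10 (by linarith)
      linarith
    obtain ⟨ε, hε, hε1, n1, hn1⟩ := ih a' ha'cond
    obtain ⟨n2, hn2⟩ := hOF c ε hc0 hc1 hε hε1
    obtain ⟨n3, hn3⟩ : ∃ n3 : ℕ, ∀ n : ℕ, n3 ≤ n → 160000 / c ≤ (n : ℝ) ^ c := by
      have h1 := (tendsto_rpow_atTop hc0).comp (tendsto_natCast_atTop_atTop (R := ℝ))
      have h2 := h1.eventually_ge_atTop (160000 / c)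
      obtain ⟨n3, h3⟩ := Filter.eventually_atTop.1 h2
      exact ⟨n3, fun n hn => h3 n hn⟩
    refine ⟨c * ε / 16384, by positivity, by nlinarith, max (max n1 n2) (max n3 1), fun n hn => ?_⟩
    have hnn1 : n1 ≤ n := ((le_max_left _ _).trans (le_max_left _ _)).trans hn
    have hnn2 : n2 ≤ n := ((le_max_right _ _).trans (le_max_left _ _)).trans hn
    have hnn3 : n3 ≤ n := ((le_max_left _ _).trans (le_max_right _ _)).trans hn
    have hnn4 : (1 : ℝ) ≤ n := by exact_mod_cast ((le_max_right _ _).trans (le_max_right _ _)).trans hn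
    have hnpos : (0 : ℝ) < n := by linarith
    set k : ℕ := ⌊(n : ℝ) ^ a'⌋₊ with hk
    set k1 : ℕ := ⌊(n : ℝ) ^ a1⌋₊ with hk1
    have hna' : (1 : ℝ) ≤ (n : ℝ) ^ a' := Real.one_le_rpow hnn4 ha'0
    have hk1le : 1 ≤ k := by
      rw [hk]
      exact Nat.le_floor (by simpa using hna')
    have hkge : (n : ℝ) ^ a' / 2 ≤ k := by
      have h1 : (n : ℝ) ^ a' < k + 1 := Nat.lt_floor_add_one _
      have h2 : (1 : ℝ) ≤ k := by exact_mod_cast hk1le
      linarith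
    have hk1up : (k1 : ℝ) ≤ (n : ℝ) ^ a1 := Nat.floor_le (by positivity)
    have hsq : (k1 : ℝ) ^ 2 ≤ c * k * (n : ℝ) ^ (1 - c) / 80000 := by
      have h1 : (k1 : ℝ) ^ 2 ≤ (n : ℝ) ^ (2 * a1) := by
        calc (k1 : ℝ) ^ 2 ≤ ((n : ℝ) ^ a1) ^ 2 := pow_le_pow_left₀ (by positivity) hk1up 2
          _ = (n : ℝ) ^ (2 * a1) := by
            rw [← Real.rpow_natCast, ← Real.rpow_mul hnpos.le]
            congr 1
            push_cast
            ring
      have h2 : (n : ℝ) ^ (2 * a1) * (n : ℝ) ^ c = (n : ℝ) ^ a' * (n : ℝ) ^ (1 - c) := by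
        rw [← Real.rpow_add hnpos, ← Real.rpow_add hnpos]
        congr 1
        rw [hc]
        ring
      have h3 := hn3 n hnn3
      have h4 : (n : ℝ) ^ (2 * a1) * (160000 / c) ≤ (n : ℝ) ^ a' * (n : ℝ) ^ (1 - c) := by
        rw [← h2]
        exact mul_le_mul_of_nonneg_left h3 (by positivity)
      have h5 : (n : ℝ) ^ (2 * a1) ≤ c * ((n : ℝ) ^ a' / 2) * (n : ℝ) ^ (1 - c) / 80000 := by
        have h6 : (n : ℝ) ^ (2 * a1) * 160000 ≤ c * ((n : ℝ) ^ a' * (n : ℝ) ^ (1 - c)) := by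
          have := mul_le_mul_of_nonneg_left h4 hc0.le
          have h7 : c * ((n : ℝ) ^ (2 * a1) * (160000 / c)) = (n : ℝ) ^ (2 * a1) * 160000 := by
            field_simp
          linarith
        linarith
      have h8 : c * ((n : ℝ) ^ a' / 2) * (n : ℝ) ^ (1 - c) / 80000 ≤ c * k * (n : ℝ) ^ (1 - c) / 80000 := by
        have : (0 : ℝ) ≤ (n : ℝ) ^ (1 - c) := by positivity
        gcongr
      linarith
    have hmono : ⌊(n : ℝ) ^ a⌋₊ ≤ k1 := by
      rw [hk1]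
      exact Nat.floor_le_floor (Real.rpow_le_rpow_of_exponent_le hnn4 (le_max_left a 0))
    have hstep : frac (fun x : Fin (2 + i + 1) → Alt n => ¬ PGap (Fin.snoc (α := fun _ => ℝ) (fun j => wts i j / 2) (1 / 2) :
        Fin (2 + i + 1) → ℝ) x (c * ε / 16384) k1) ≤ (i + 1) * (n : ℝ) ^ (-(1 / 2) : ℝ) + 1 / n :=
      I1_frac (fun x => PGap (wts i) x ε k)
        (fun x => PGap (Fin.snoc (α := fun _ => ℝ) (fun j => wts i j / 2) (1 / 2) : Fin (2 + i + 1) → ℝ) x (c * ε / 16384) k1)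
        _ _ (hn1 n hnn1) (by positivity) (fun x hx => hn2 n hnn2 (2 + i) (wts i) (wts_isWt i) x k k1 hk1le hsq hx)
    have hlast : (1 : ℝ) / n ≤ (n : ℝ) ^ (-(1 / 2) : ℝ) := by
      rw [one_div, ← Real.rpow_neg_one]
      exact Real.rpow_le_rpow_of_exponent_le hnn4 (by norm_num)
    have hfin : frac (fun x : Fin (2 + (i + 1)) → Alt n => ¬ PGap (wts (i + 1)) x (c * ε / 16384) ⌊(n : ℝ) ^ a⌋₊) ≤
        frac (fun x : Fin (2 + i + 1) → Alt n => ¬ PGap (Fin.snoc (α := fun _ => ℝ) (fun j => wts i j / 2) (1 / 2) :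
        Fin (2 + i + 1) → ℝ) x (c * ε / 16384) k1) :=
      frac_mono (α := Fin (2 + i + 1) → Alt n) fun x hx hP => hx (I1_mono hmono hP)
    refine hfin.trans (hstep.trans ?_)
    push_cast
    linarith

end Pool.Agent.BC5
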