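import Pool.Agent.Lib.MP_bc5a73_al.Lift.Defs

set_option autoImplicit false
open scoped BigOperators Matrix
open Matrix
namespace Pool.Agent.BC5

theorem L1a_choose_exp (N b : ℕ) (s : ℝ) (hs : 0 ≤ s) : (N.choose b : ℝ) * s ^ b ≤ Real.exp (s * N) := by
  have h1 : (1 + s) ^ N = ∑ j ∈ Finset.range (N + 1), s ^ j * (N.choose j : ℝ) := by
    rw [add_comm 1 s, add_pow]
    refine Finset.sum_congr rfl fun j _ => ?_
    rw [one_pow, mul_one]
  have h2 : (N.choose b : ℝ) * s ^ b ≤ (1 + s) ^ N := by
    rw [h1]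
    by_cases hb : b ∈ Finset.range (N + 1)
    · rw [mul_comm]
      exact Finset.single_le_sum (f := fun j => s ^ j * (N.choose j : ℝ)) (fun j _ => by positivity) hb
    · have : N.choose b = 0 := Nat.choose_eq_zero_of_lt (by
        rw [Finset.mem_range] at hb
        omega)
      rw [this]
      simp only [Nat.cast_zero, zero_mul]
      exact Finset.sum_nonneg fun j _ => by positivity
  have h3 : (1 + s) ^ N ≤ Real.exp (s * N) := by
    have : 1 + s ≤ Real.exp s := by
      have := Real.add_one_le_exp s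
      linarith
    calc (1 + s) ^ N ≤ (Real.exp s) ^ N := pow_le_pow_left₀ (by linarith) this N
      _ = Real.exp (s * N) := by rw [← Real.exp_nat_mul, mul_comm]
  exact h2.trans h3

theorem L1a_choose_lower (n a : ℕ) (h : a ≤ n) : n ^ a ≤ a ^ a * n.choose a := by
  have h1 : n ^ a * a.factorial ≤ a ^ a * n.descFactorial a := by
    have e1 : n ^ a * a.factorial = ∏ i ∈ Finset.range a, (n * (a - i)) := by
      rw [Finset.prod_mul_distrib, Finset.prod_const, Finset.card_range, ← Nat.descFactorial_eq_prod_range,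
        Nat.descFactorial_self]
    have e2 : a ^ a * n.descFactorial a = ∏ i ∈ Finset.range a, (a * (n - i)) := by
      rw [Finset.prod_mul_distrib, Finset.prod_const, Finset.card_range, ← Nat.descFactorial_eq_prod_range]
    rw [e1, e2]
    refine Finset.prod_le_prod' fun i hi => ?_
    rw [Finset.mem_range] at hi
    obtain ⟨c, rfl⟩ : ∃ c, a = i + c := ⟨a - i, by omega⟩
    obtain ⟨d, rfl⟩ : ∃ d, n = i + c + d := ⟨n - (i + c), by omega⟩
    have e3 : i + c - i = c := by omega
    have e4 : i + c + d - i = c + d := by omega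
    rw [e3, e4]
    nlinarith [Nat.zero_le (i * d)]
  rw [Nat.descFactorial_eq_factorial_mul_choose] at h1
  have h2 : 0 < a.factorial := Nat.factorial_pos a
  have h3 : n ^ a * a.factorial ≤ (a ^ a * n.choose a) * a.factorial := by
    calc n ^ a * a.factorial ≤ a ^ a * (a.factorial * n.choose a) := h1
      _ = (a ^ a * n.choose a) * a.factorial := by ring
  exact Nat.le_of_mul_le_mul_right h3 h2

/-- The counting bound. -/
noncomputable def L1a_N (n a : ℕ) : ℝ := ∑ b ∈ Finset.range (a / 100 + 1), (a.choose b : ℝ) * ((n - a).choose b : ℝ)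

theorem L1a_N_le (n a : ℕ) (ha : 1 ≤ a) (h : 2 * a ≤ n) :
    L1a_N n a ≤ Real.exp ((a : ℝ) / 100 + a / 10 + a / 100 * Real.log (400 * (n / a))) := by
  have ha0 : (0 : ℝ) < a := by exact_mod_cast ha
  have hn0 : (0 : ℝ) < n := by
    have : 0 < n := by omega
    exact_mod_cast this
  have hX : (2 : ℝ) ≤ n / a := by
    rw [le_div_iff₀ ha0]
    exact_mod_cast h
  have hu : ((a / 100 : ℕ) : ℝ) ≤ (a : ℝ) / 100 := by
    have := @Nat.cast_div_le ℝ _ _ _ a 100
    simpa using this
  have hterm : ∀ b ∈ Finset.range (a / 100 + 1), (a.choose b : ℝ) * ((n - a).choose b : ℝ)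
      ≤ Real.exp ((a : ℝ) / 10 + a / 100 * Real.log (400 * (n / a))) := by
    intro b hb
    rw [Finset.mem_range] at hb
    have hb' : (b : ℝ) ≤ (a : ℝ) / 100 := by
      refine le_trans ?_ hu
      exact_mod_cast Nat.lt_succ_iff.1 hb
    have h1 := L1a_choose_exp a b (1 / 20) (by norm_num)
    have h2 := L1a_choose_exp (n - a) b (a / (20 * n)) (by positivity)
    have h3 : ((n - a : ℕ) : ℝ) ≤ n := by exact_mod_cast Nat.sub_le n a
    have h4 : (a : ℝ) / (20 * n) * ((n - a : ℕ) : ℝ) ≤ a / 20 := by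
      calc (a : ℝ) / (20 * n) * ((n - a : ℕ) : ℝ) ≤ (a : ℝ) / (20 * n) * n :=
            mul_le_mul_of_nonneg_left h3 (by positivity)
        _ = a / 20 := by field_simp
    have h5 : ((n - a).choose b : ℝ) * (a / (20 * n)) ^ b ≤ Real.exp (a / 20) :=
      h2.trans (Real.exp_le_exp.2 h4)
    have h6 : (a.choose b : ℝ) * (1 / 20) ^ b * (((n - a).choose b : ℝ) * (a / (20 * n)) ^ b)
        ≤ Real.exp (1 / 20 * a) * Real.exp (a / 20) :=
      mul_le_mul h1 h5 (by positivity) (by positivity)
    rw [← Real.exp_add] at h6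
    have h7 : (400 * ((n : ℝ) / a)) ^ b ≤ Real.exp (a / 100 * Real.log (400 * (n / a))) := by
      have hpos : (0 : ℝ) < 400 * (n / a) := by positivity
      have hlog : 0 ≤ Real.log (400 * ((n : ℝ) / a)) := Real.log_nonneg (by nlinarith)
      calc (400 * ((n : ℝ) / a)) ^ b = Real.exp (Real.log (400 * (n / a)) * b) := by
            rw [Real.exp_mul, Real.exp_log hpos, Real.rpow_natCast]
        _ ≤ Real.exp (a / 100 * Real.log (400 * (n / a))) := by
            apply Real.exp_le_exp.2
            rw [mul_comm]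
            exact mul_le_mul_of_nonneg_right hb' hlog
    have h8 : (a.choose b : ℝ) * ((n - a).choose b : ℝ)
        = ((a.choose b : ℝ) * (1 / 20) ^ b * (((n - a).choose b : ℝ) * (a / (20 * n)) ^ b)) * (400 * ((n : ℝ) / a)) ^ b := by
      have : (1 / 20 : ℝ) ^ b * (a / (20 * n)) ^ b * (400 * ((n : ℝ) / a)) ^ b = 1 := by
        rw [← mul_pow, ← mul_pow]
        have : (1 / 20 : ℝ) * (a / (20 * n)) * (400 * (n / a)) = 1 := by field_simp; norm_num
        rw [this, one_pow]
      calc (a.choose b : ℝ) * ((n - a).choose b : ℝ) = (a.choose b : ℝ) * ((n - a).choose b : ℝ) * 1 := by ring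
        _ = (a.choose b : ℝ) * ((n - a).choose b : ℝ) * ((1 / 20 : ℝ) ^ b * (a / (20 * n)) ^ b * (400 * ((n : ℝ) / a)) ^ b) := by
            rw [this]
        _ = _ := by ring
    rw [h8]
    calc _ ≤ Real.exp (1 / 20 * a + a / 20) * Real.exp (a / 100 * Real.log (400 * (n / a))) :=
          mul_le_mul h6 h7 (by positivity) (by positivity)
      _ = _ := by
          rw [← Real.exp_add]
          congr 1
          ring
  unfold L1a_N
  calc _ ≤ ∑ b ∈ Finset.range (a / 100 + 1), Real.exp ((a : ℝ) / 10 + a / 100 * Real.log (400 * (n / a))) :=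
        Finset.sum_le_sum hterm
    _ = ((a / 100 : ℕ) + 1 : ℝ) * Real.exp ((a : ℝ) / 10 + a / 100 * Real.log (400 * (n / a))) := by
        rw [Finset.sum_const, Finset.card_range, nsmul_eq_mul]
        push_cast
        rfl
    _ ≤ Real.exp ((a : ℝ) / 100) * Real.exp ((a : ℝ) / 10 + a / 100 * Real.log (400 * (n / a))) := by
        refine mul_le_mul_of_nonneg_right ?_ (Real.exp_nonneg _)
        have := Real.add_one_le_exp ((a : ℝ) / 100)
        linarith
    _ = _ := by
        rw [← Real.exp_add]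
        congr 1
        ring

theorem L1a_log400 : Real.log 400 ≤ 6 := by
  have h : Real.log (400 : ℝ) ≤ Real.log (Real.exp 6) := by
    apply Real.log_le_log (by norm_num)
    have h1 : (2.7182818283 : ℝ) < Real.exp 1 := Real.exp_one_gt_d9
    have h2 : Real.exp 6 = (Real.exp 1) ^ 6 := by
      rw [← Real.exp_nat_mul]; norm_num
    rw [h2]
    calc (400 : ℝ) ≤ (2.7182818283 : ℝ) ^ 6 := by norm_num
      _ ≤ (Real.exp 1) ^ 6 := by gcongr
  rwa [Real.log_exp] at h

theorem L1a_big (n a : ℕ) (hn : 10 ^ 8 ≤ n) (ha : 100 ≤ a) (h : 2 * a ≤ n) :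
    (L1a_N n a) ^ 2 ≤ (n.choose a : ℝ) * (1 / (n : ℝ) ^ 2) := by
  have ha0 : (0 : ℝ) < a := by
    have : 0 < a := by omega
    exact_mod_cast this
  have ha1 : (100 : ℝ) ≤ a := by exact_mod_cast ha
  have hn0 : (0 : ℝ) < n := by
    have : 0 < n := by omega
    exact_mod_cast this
  have hn8 : (10 : ℝ) ^ 8 ≤ n := by exact_mod_cast hn
  have hX : (2 : ℝ) ≤ n / a := by
    rw [le_div_iff₀ ha0]
    exact_mod_cast h
  have hXpos : (0 : ℝ) < n / a := by positivity
  have h1 := L1a_N_le n a (by omega) h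
  have h0 : 0 ≤ L1a_N n a := Finset.sum_nonneg fun b _ => by positivity
  set lX := Real.log ((n : ℝ) / a) with hlX
  have hlog : Real.log (400 * ((n : ℝ) / a)) = Real.log 400 + lX := Real.log_mul (by norm_num) hXpos.ne'
  rw [hlog] at h1
  have hl2 : (0.69 : ℝ) ≤ lX := by
    have : Real.log 2 ≤ lX := Real.log_le_log (by norm_num) hX
    have h2 := Real.log_two_gt_d9
    linarith
  -- lower bound for the binomial
  have hlow : Real.exp (a * lX) ≤ (n.choose a : ℝ) := by
    have h2 := L1a_choose_lower n a (by omega)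
    have h3 : ((n : ℝ)) ^ a ≤ (a : ℝ) ^ a * (n.choose a : ℝ) := by exact_mod_cast h2
    have h4 : Real.exp (a * lX) = ((n : ℝ) / a) ^ a := by
      rw [mul_comm, Real.exp_mul, hlX, Real.exp_log hXpos, Real.rpow_natCast]
    rw [h4, div_pow, div_le_iff₀ (by positivity)]
    linarith
  have hsq : (L1a_N n a) ^ 2 ≤ Real.exp (2 * ((a : ℝ) / 100 + a / 10 + a / 100 * (Real.log 400 + lX))) := by
    calc (L1a_N n a) ^ 2 ≤ (Real.exp ((a : ℝ) / 100 + a / 10 + a / 100 * (Real.log 400 + lX))) ^ 2 :=
          pow_le_pow_left₀ h0 h1 2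
      _ = _ := by
          rw [← Real.exp_nat_mul]
          norm_num
  have hlogn : Real.log n = Real.log a + lX := by
    rw [hlX, Real.log_div hn0.ne' ha0.ne']
    ring
  have key : 2 * ((a : ℝ) / 100 + a / 10 + a / 100 * (Real.log 400 + lX)) ≤ a * lX - 2 * Real.log n := by
    have h400 := L1a_log400
    have hA : 2 * ((a : ℝ) / 100 + a / 10 + a / 100 * (Real.log 400 + lX)) ≤ a * lX - 0.16 * a - 0.25 * (a * lX) := by
      nlinarith [mul_le_mul_of_nonneg_left h400 ha0.le, mul_le_mul_of_nonneg_left hl2 ha0.le]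
    have hB : 2 * Real.log n ≤ 0.16 * a + 0.25 * (a * lX) := by
      by_cases hc : Real.log a ≤ lX
      · -- ln n ≤ 2 lX
        have : 2 * Real.log n ≤ 4 * lX := by linarith
        have h5 : 4 * lX ≤ 0.25 * (a * lX) := by nlinarith
        nlinarith
      · push Not at hc
        have h5 : Real.log n ≤ 2 * Real.log a := by linarith
        -- a ≥ sqrt n, so log n ≤ ...
        have h6 : (n : ℝ) ≤ (a : ℝ) ^ 2 := by
          have : Real.log n ≤ Real.log ((a : ℝ) ^ 2) := by
            rw [Real.log_pow]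
            push_cast
            exact h5
          exact (Real.log_le_log_iff hn0 (by positivity)).1 this
        have ha4 : (10 : ℝ) ^ 4 ≤ a := by
          by_contra hcon
          push Not at hcon
          nlinarith
        -- log a ≤ 2 sqrt a
        have h7 : Real.log a ≤ 2 * Real.sqrt a := by
          have h8 : Real.log (Real.sqrt a) ≤ Real.sqrt a := by
            have := Real.log_le_sub_one_of_pos (Real.sqrt_pos.2 ha0)
            linarith
          have h9 : Real.log (Real.sqrt a) = Real.log a / 2 := Real.log_sqrt ha0.le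
          linarith
        have h8 : (100 : ℝ) ≤ Real.sqrt a := by
          rw [show (100 : ℝ) = Real.sqrt (10 ^ 4) by rw [show (10 : ℝ) ^ 4 = 100 ^ 2 by norm_num, Real.sqrt_sq (by norm_num)]]
          exact Real.sqrt_le_sqrt ha4
        have h9 : Real.sqrt a * Real.sqrt a = a := Real.mul_self_sqrt ha0.le
        have h10 : 2 * Real.log n ≤ 8 * Real.sqrt a := by linarith
        have h11 : 8 * Real.sqrt a ≤ 0.16 * a := by nlinarith
        have h12 : 0 ≤ 0.25 * (a * lX) := by
          have : 0 ≤ lX := by linarith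
          positivity
        linarith
    linarith
  have hinv : (1 : ℝ) / (n : ℝ) ^ 2 = Real.exp (-(2 * Real.log n)) := by
    rw [Real.exp_neg, show (2 : ℝ) * Real.log n = ((2 : ℕ) : ℝ) * Real.log n by norm_num, Real.exp_nat_mul,
      Real.exp_log hn0, one_div]
  calc (L1a_N n a) ^ 2 ≤ Real.exp (2 * ((a : ℝ) / 100 + a / 10 + a / 100 * (Real.log 400 + lX))) := hsq
    _ ≤ Real.exp (a * lX - 2 * Real.log n) := Real.exp_le_exp.2 key
    _ = Real.exp (a * lX) * Real.exp (-(2 * Real.log n)) := by rw [← Real.exp_add]; ring_nf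
    _ ≤ (n.choose a : ℝ) * Real.exp (-(2 * Real.log n)) := mul_le_mul_of_nonneg_right hlow (Real.exp_nonneg _)
    _ = _ := by rw [hinv]

theorem L1a_small (n a : ℕ) (ha : 1 ≤ a) (ha2 : a < 100) : L1a_N n a = 1 := by
  have : a / 100 = 0 := by omega
  unfold L1a_N
  rw [this]
  simp

theorem L1a_term (n a : ℕ) (hn : 10 ^ 8 ≤ n) (ha : 2 ≤ a) (h : 2 * a ≤ n) :
    (L1a_N n a) ^ 2 / (n.choose a : ℝ) ≤ 10 ^ 4 / (n : ℝ) ^ 2 := by
  have hn0 : (0 : ℝ) < n := by
    have : 0 < n := by omega
    exact_mod_cast this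
  have hC : (0 : ℝ) < (n.choose a : ℝ) := by
    have : 0 < n.choose a := Nat.choose_pos (by omega)
    exact_mod_cast this
  by_cases hc : a < 100
  · rw [L1a_small n a (by omega) hc, one_pow, div_le_div_iff₀ hC (by positivity), one_mul]
    have h2 := L1a_choose_lower n a (by omega)
    have h3 : ((n : ℝ)) ^ a ≤ (a : ℝ) ^ a * (n.choose a : ℝ) := by exact_mod_cast h2
    have ha0 : (0 : ℝ) < a := by
      have : 0 < a := by omega
      exact_mod_cast this
    have ha3 : (a : ℝ) ≤ 100 := by exact_mod_cast hc.le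
    have hna : (1 : ℝ) ≤ n / a := by
      rw [le_div_iff₀ ha0, one_mul]
      have : a ≤ n := by omega
      exact_mod_cast this
    have h4 : ((n : ℝ) / a) ^ 2 ≤ ((n : ℝ) / a) ^ a := pow_le_pow_right₀ hna ha
    have h5 : ((n : ℝ) / a) ^ a ≤ (n.choose a : ℝ) := by
      rw [div_pow, div_le_iff₀ (by positivity)]
      linarith
    have h6 : ((n : ℝ) / 100) ^ 2 ≤ ((n : ℝ) / a) ^ 2 := by
      apply pow_le_pow_left₀ (by positivity)
      exact div_le_div_of_nonneg_left hn0.le ha0 ha3
    have h7 : ((n : ℝ) / 100) ^ 2 = (n : ℝ) ^ 2 / 10 ^ 4 := by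
      rw [div_pow]
      norm_num
    rw [h7] at h6
    have h8 := h6.trans (h4.trans h5)
    rw [div_le_iff₀ (by norm_num)] at h8
    linarith
  · push Not at hc
    have h1 := L1a_big n a hn hc h
    rw [div_le_iff₀ hC]
    refine h1.trans ?_
    rw [mul_comm]
    apply mul_le_mul_of_nonneg_right _ hC.le
    gcongr
    norm_num

theorem L1a_one (n : ℕ) : (L1a_N n 1) ^ 2 / (n.choose 1 : ℝ) = 1 / n := by
  rw [L1a_small n 1 (by norm_num) (by norm_num), one_pow, Nat.choose_one_right]

theorem L1a_num (n : ℕ) (hn : 10 ^ 8 ≤ n) :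
    ∑ a ∈ Finset.Icc 1 (n / 2), (L1a_N n a) ^ 2 / (n.choose a : ℝ) ≤ (n : ℝ) ^ (-(1 / 2) : ℝ) := by
  have hn0 : (0 : ℝ) < n := by
    have : 0 < n := by omega
    exact_mod_cast this
  have hn8 : (10 : ℝ) ^ 8 ≤ n := by exact_mod_cast hn
  have hsplit : Finset.Icc 1 (n / 2) = insert 1 (Finset.Icc 2 (n / 2)) := by
    ext x
    rw [Finset.mem_insert, Finset.mem_Icc, Finset.mem_Icc]
    omega
  rw [hsplit, Finset.sum_insert (by simp), L1a_one]
  have h1 : ∑ a ∈ Finset.Icc 2 (n / 2), (L1a_N n a) ^ 2 / (n.choose a : ℝ) ≤ ∑ a ∈ Finset.Icc 2 (n / 2), 10 ^ 4 / (n : ℝ) ^ 2 := by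
    refine Finset.sum_le_sum fun a ha => ?_
    rw [Finset.mem_Icc] at ha
    exact L1a_term n a hn ha.1 (by omega)
  rw [Finset.sum_const, nsmul_eq_mul] at h1
  have h2 : ((Finset.Icc 2 (n / 2)).card : ℝ) ≤ n / 2 := by
    rw [Nat.card_Icc]
    have h3 : ((n / 2 + 1 - 2 : ℕ) : ℝ) ≤ ((n / 2 : ℕ) : ℝ) := by
      exact_mod_cast (by omega : n / 2 + 1 - 2 ≤ n / 2)
    have h4 := @Nat.cast_div_le ℝ _ _ _ n 2
    push_cast at h4
    linarith
  have h3 : ((Finset.Icc 2 (n / 2)).card : ℝ) * (10 ^ 4 / (n : ℝ) ^ 2) ≤ 5000 / n := by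
    calc ((Finset.Icc 2 (n / 2)).card : ℝ) * (10 ^ 4 / (n : ℝ) ^ 2) ≤ n / 2 * (10 ^ 4 / (n : ℝ) ^ 2) :=
          mul_le_mul_of_nonneg_right h2 (by positivity)
      _ = 5000 / n := by field_simp; norm_num
  have h4 : (1 : ℝ) / n + 5000 / n ≤ (n : ℝ) ^ (-(1 / 2) : ℝ) := by
    have h5 : (n : ℝ) ^ (-(1 / 2) : ℝ) = 1 / Real.sqrt n := by
      rw [Real.rpow_neg hn0.le, Real.sqrt_eq_rpow, one_div, one_div]
    rw [h5, ← add_div, div_le_div_iff₀ hn0 (Real.sqrt_pos.2 hn0)]
    have h6 : Real.sqrt n * Real.sqrt n = n := Real.mul_self_sqrt hn0.le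
    have h7 : (10 : ℝ) ^ 4 ≤ Real.sqrt n := by
      rw [show (10 : ℝ) ^ 4 = Real.sqrt (10 ^ 8) by rw [show (10 : ℝ) ^ 8 = (10 ^ 4) ^ 2 by norm_num, Real.sqrt_sq (by norm_num)]]
      exact Real.sqrt_le_sqrt hn8
    nlinarith [Real.sqrt_nonneg (n : ℝ)]
  linarith

variable {n : ℕ}

theorem L1a_img_mul (g h : Alt n) (B : Finset (Fin n)) : img (g * h) B = img g (img h B) := by
  unfold img
  rw [Finset.image_image]
  rfl

theorem L1a_stab (hn : 3 ≤ n) (B B' : Finset (Fin n)) (h : B.card = B'.card) :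
    (Finset.univ.filter (fun g : Alt n => img g B = B')).card = (Finset.univ.filter (fun g : Alt n => img g B = B)).card := by
  obtain ⟨a, ha⟩ := exists_img_eq hn B B' h
  symm
  refine Finset.card_bij (fun g _ => a * g) ?_ ?_ ?_
  · intro g hg
    rw [Finset.mem_filter] at hg ⊢
    refine ⟨Finset.mem_univ _, ?_⟩
    rw [L1a_img_mul, hg.2, ha]
  · intro g _ g' _ hgg
    exact mul_left_cancel hgg
  · intro g hg
    rw [Finset.mem_filter] at hg
    refine ⟨a⁻¹ * g, ?_, by group⟩
    rw [Finset.mem_filter]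
    refine ⟨Finset.mem_univ _, ?_⟩
    rw [L1a_img_mul, hg.2, ← ha, ← L1a_img_mul, inv_mul_cancel]
    unfold img
    simp

theorem L1a_img_card (g : Alt n) (B : Finset (Fin n)) : (img g B).card = B.card := by
  unfold img
  exact Finset.card_image_of_injective _ (g : Equiv.Perm (Fin n)).injective

theorem L1a_total (hn : 3 ≤ n) (B : Finset (Fin n)) :
    n.choose B.card * (Finset.univ.filter (fun g : Alt n => img g B = B)).card = Fintype.card (Alt n) := by
  have h1 : (Finset.univ : Finset (Alt n)).card = ∑ B' ∈ (Finset.univ : Finset (Fin n)).powersetCard B.card,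
      (Finset.univ.filter (fun g : Alt n => img g B = B')).card := by
    apply Finset.card_eq_sum_card_fiberwise
    intro g _
    rw [Finset.mem_coe, Finset.mem_powersetCard]
    exact ⟨Finset.subset_univ _, L1a_img_card g B⟩
  rw [Finset.card_univ] at h1
  rw [h1]
  have h2 : ∀ B' ∈ (Finset.univ : Finset (Fin n)).powersetCard B.card,
      (Finset.univ.filter (fun g : Alt n => img g B = B')).card = (Finset.univ.filter (fun g : Alt n => img g B = B)).card := by
    intro B' hB'
    rw [Finset.mem_powersetCard] at hB'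
    exact L1a_stab hn B B' hB'.2.symm
  rw [Finset.sum_congr rfl h2, Finset.sum_const, Finset.card_powersetCard, smul_eq_mul, Finset.card_univ, Fintype.card_fin]

/-- Number of sets close to `B`. -/
theorem L1a_close (B : Finset (Fin n)) (u : ℕ) :
    (((Finset.univ : Finset (Fin n)).powersetCard B.card).filter (fun B' => (B' \ B).card ≤ u)).card
      ≤ ∑ b ∈ Finset.range (u + 1), B.card.choose b * (n - B.card).choose b := by
  have h1 : (((Finset.univ : Finset (Fin n)).powersetCard B.card).filter (fun B' => (B' \ B).card ≤ u)).card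
      ≤ ((Finset.range (u + 1)).sigma (fun b => (B.powersetCard b) ×ˢ ((Bᶜ).powersetCard b))).card := by
    refine Finset.card_le_card_of_injOn (fun B' => (⟨(B' \ B).card, (B \ B', B' \ B)⟩ : (_ : ℕ) × (Finset (Fin n) × Finset (Fin n)))) ?_ ?_
    · intro B' hB'
      rw [Finset.mem_coe, Finset.mem_filter, Finset.mem_powersetCard] at hB'
      rw [Finset.mem_coe, Finset.mem_sigma, Finset.mem_product, Finset.mem_powersetCard, Finset.mem_powersetCard, Finset.mem_range]
      refine ⟨Nat.lt_succ_of_le hB'.2, ⟨Finset.sdiff_subset, ?_⟩, ?_, rfl⟩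
      · have e1 := Finset.card_sdiff_add_card_inter B B'
        have e2 := Finset.card_sdiff_add_card_inter B' B
        rw [Finset.inter_comm B' B] at e2
        have e3 := hB'.1.2
        show (B \ B').card = (B' \ B).card
        omega
      · intro x hx
        rw [Finset.mem_sdiff] at hx
        exact Finset.mem_compl.2 hx.2
    · intro B1 _ B2 _ h12
      simp only [Sigma.mk.injEq] at h12
      have h3 := h12.2
      have h4 := eq_of_heq h3
      rw [Prod.mk.injEq] at h4
      ext x
      have h5 : x ∈ B \ B1 ↔ x ∈ B \ B2 := by rw [h4.1]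
      have h6 : x ∈ B1 \ B ↔ x ∈ B2 \ B := by rw [h4.2]
      rw [Finset.mem_sdiff, Finset.mem_sdiff] at h5 h6
      tauto
  refine h1.trans (le_of_eq ?_)
  rw [Finset.card_sigma]
  refine Finset.sum_congr rfl fun b _ => ?_
  rw [Finset.card_product, Finset.card_powersetCard, Finset.card_powersetCard, Finset.card_compl, Fintype.card_fin]

theorem L1a_count (hn : 3 ≤ n) (B : Finset (Fin n)) (u : ℕ) :
    (Finset.univ.filter (fun g : Alt n => (img g B \ B).card ≤ u)).card * n.choose B.card
      ≤ (∑ b ∈ Finset.range (u + 1), B.card.choose b * (n - B.card).choose b) * Fintype.card (Alt n) := by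
  have h1 : (Finset.univ.filter (fun g : Alt n => (img g B \ B).card ≤ u)).card
      = ∑ B' ∈ ((Finset.univ : Finset (Fin n)).powersetCard B.card).filter (fun B' => (B' \ B).card ≤ u),
        ((Finset.univ.filter (fun g : Alt n => (img g B \ B).card ≤ u)).filter (fun g : Alt n => img g B = B')).card := by
    apply Finset.card_eq_sum_card_fiberwise
    intro g hg
    rw [Finset.mem_coe, Finset.mem_filter] at hg
    rw [Finset.mem_coe, Finset.mem_filter, Finset.mem_powersetCard]
    exact ⟨⟨Finset.subset_univ _, L1a_img_card g B⟩, hg.2⟩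
  have h2 : ∀ B' ∈ ((Finset.univ : Finset (Fin n)).powersetCard B.card).filter (fun B' => (B' \ B).card ≤ u),
      ((Finset.univ.filter (fun g : Alt n => (img g B \ B).card ≤ u)).filter (fun g : Alt n => img g B = B')).card
        ≤ (Finset.univ.filter (fun g : Alt n => img g B = B)).card := by
    intro B' hB'
    rw [Finset.mem_filter, Finset.mem_powersetCard] at hB'
    rw [← L1a_stab hn B B' hB'.1.2.symm]
    apply Finset.card_le_card
    intro g hg
    rw [Finset.mem_filter] at hg ⊢
    exact ⟨Finset.mem_univ _, hg.2⟩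
  have h3 := Finset.sum_le_sum h2
  rw [← h1, Finset.sum_const, smul_eq_mul] at h3
  have h4 := L1a_close B u
  calc (Finset.univ.filter (fun g : Alt n => (img g B \ B).card ≤ u)).card * n.choose B.card
      ≤ ((((Finset.univ : Finset (Fin n)).powersetCard B.card).filter (fun B' => (B' \ B).card ≤ u)).card
          * (Finset.univ.filter (fun g : Alt n => img g B = B)).card) * n.choose B.card := Nat.mul_le_mul_right _ h3
    _ = (((Finset.univ : Finset (Fin n)).powersetCard B.card).filter (fun B' => (B' \ B).card ≤ u)).card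
          * (n.choose B.card * (Finset.univ.filter (fun g : Alt n => img g B = B)).card) := by ring
    _ = (((Finset.univ : Finset (Fin n)).powersetCard B.card).filter (fun B' => (B' \ B).card ≤ u)).card
          * Fintype.card (Alt n) := by rw [L1a_total hn B]
    _ ≤ _ := Nat.mul_le_mul_right _ h4

theorem L1a_frac_one (hn : 3 ≤ n) (B : Finset (Fin n)) :
    frac (fun g : Alt n => (img g B \ B).card ≤ B.card / 100) ≤ L1a_N n B.card / (n.choose B.card : ℝ) := by
  classical
  have hB : B.card ≤ n := by simpa using Finset.card_le_univ B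
  have hC : (0 : ℝ) < (n.choose B.card : ℝ) := by exact_mod_cast Nat.choose_pos hB
  have hG : (0 : ℝ) < (Fintype.card (Alt n) : ℝ) := by exact_mod_cast Fintype.card_pos
  have h1 := frac_eq_card (fun g : Alt n => (img g B \ B).card ≤ B.card / 100)
  rw [Nat.card_eq_fintype_card, Nat.card_eq_fintype_card,
    Fintype.card_subtype (fun g : Alt n => (img g B \ B).card ≤ B.card / 100)] at h1
  have h2 := L1a_count hn B (B.card / 100)
  have h3 : ((Finset.univ.filter (fun g : Alt n => (img g B \ B).card ≤ B.card / 100)).card : ℝ) * (n.choose B.card : ℝ)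
      ≤ L1a_N n B.card * (Fintype.card (Alt n) : ℝ) := by
    unfold L1a_N
    exact_mod_cast h2
  rw [le_div_iff₀ hC]
  have h4 : frac (fun g : Alt n => (img g B \ B).card ≤ B.card / 100) * (n.choose B.card : ℝ) * (Fintype.card (Alt n) : ℝ)
      ≤ L1a_N n B.card * (Fintype.card (Alt n) : ℝ) := by
    calc _ = frac (fun g : Alt n => (img g B \ B).card ≤ B.card / 100) * (Fintype.card (Alt n) : ℝ) * (n.choose B.card : ℝ) := by ring
      _ = _ := by rw [h1]
      _ ≤ _ := h3
  exact le_of_mul_le_mul_right h4 hG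

theorem L1a_frac_sq {G : Type} [Fintype G] [Nonempty G] (P : G → Prop) :
    frac (fun x : Fin 2 → G => P (x 0) ∧ P (x 1)) = (frac P) ^ 2 := by
  classical
  have hG : (0 : ℝ) < (Fintype.card G : ℝ) := by exact_mod_cast Fintype.card_pos
  have h1 := frac_eq_card (fun x : Fin 2 → G => P (x 0) ∧ P (x 1))
  have h2 := frac_eq_card P
  rw [Nat.card_eq_fintype_card, Nat.card_eq_fintype_card, Fintype.card_subtype] at h1 h2
  have h3 : (Finset.univ.filter (fun x : Fin 2 → G => P (x 0) ∧ P (x 1))) = Fintype.piFinset (fun _ : Fin 2 => Finset.univ.filter P) := by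
    ext x
    simp [Fintype.mem_piFinset, Fin.forall_fin_two]
  rw [h3, Fintype.card_piFinset, Fintype.card_fun, Fintype.card_fin] at h1
  simp only [Finset.prod_const, Finset.card_univ, Fintype.card_fin] at h1
  push_cast at h1
  rw [← h2, mul_pow] at h1
  have h4 : (0 : ℝ) < (Fintype.card G : ℝ) ^ 2 := by positivity
  exact mul_right_cancel₀ h4.ne' h1

theorem L1a : ∃ n0 : ℕ, ∀ n : ℕ, n0 ≤ n →
    frac (fun x : Fin 2 → Alt n => ¬ ∀ B : Finset (Fin n), 1 ≤ B.card → 2 * B.card ≤ n →
      (B.card : ℝ) / 100 ≤ ∑ i, ((B.image (fun p => x i • p) \ B).card : ℝ)) ≤ (n : ℝ) ^ (-(1 / 2) : ℝ) := by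
  classical
  refine ⟨10 ^ 8, fun n hn => ?_⟩
  have hn3 : 3 ≤ n := le_trans (by norm_num) hn
  set S : Finset (Finset (Fin n)) := (Finset.univ : Finset (Finset (Fin n))).filter (fun B => 1 ≤ B.card ∧ 2 * B.card ≤ n) with hS
  have h1 : frac (fun x : Fin 2 → Alt n => ¬ ∀ B : Finset (Fin n), 1 ≤ B.card → 2 * B.card ≤ n →
      (B.card : ℝ) / 100 ≤ ∑ i, ((B.image (fun p => x i • p) \ B).card : ℝ))
      ≤ frac (fun x : Fin 2 → Alt n => ∃ B ∈ S, ((img (x 0) B \ B).card ≤ B.card / 100 ∧ (img (x 1) B \ B).card ≤ B.card / 100)) := by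
    refine frac_mono fun x hx => ?_
    push Not at hx
    obtain ⟨B, hB1, hB2, hB3⟩ := hx
    refine ⟨B, ?_, ?_⟩
    · rw [hS, Finset.mem_filter]
      exact ⟨Finset.mem_univ _, hB1, hB2⟩
    · rw [Fin.sum_univ_two] at hB3
      have e0 : (B.image (fun p => x 0 • p)) = img (x 0) B := rfl
      have e1 : (B.image (fun p => x 1 • p)) = img (x 1) B := rfl
      rw [e0, e1] at hB3
      have p0 : (0 : ℝ) ≤ ((img (x 0) B \ B).card : ℝ) := Nat.cast_nonneg _
      have p1 : (0 : ℝ) ≤ ((img (x 1) B \ B).card : ℝ) := Nat.cast_nonneg _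
      rw [lt_div_iff₀ (by norm_num)] at hB3
      constructor
      · rw [Nat.le_div_iff_mul_le (by norm_num)]
        have : (((img (x 0) B \ B).card * 100 : ℕ) : ℝ) ≤ (B.card : ℝ) := by
          push_cast
          nlinarith
        exact_mod_cast this
      · rw [Nat.le_div_iff_mul_le (by norm_num)]
        have : (((img (x 1) B \ B).card * 100 : ℕ) : ℝ) ≤ (B.card : ℝ) := by
          push_cast
          nlinarith
        exact_mod_cast this
  refine h1.trans ((frac_exists_le S _).trans ?_)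
  have h2 : ∀ B ∈ S, frac (fun x : Fin 2 → Alt n => (img (x 0) B \ B).card ≤ B.card / 100 ∧ (img (x 1) B \ B).card ≤ B.card / 100)
      ≤ (L1a_N n B.card / (n.choose B.card : ℝ)) ^ 2 := by
    intro B _
    rw [L1a_frac_sq (fun g : Alt n => (img g B \ B).card ≤ B.card / 100)]
    exact pow_le_pow_left₀ (frac_nonneg _) (L1a_frac_one hn3 B) 2
  refine (Finset.sum_le_sum h2).trans ?_
  refine le_trans (le_of_eq ?_) (L1a_num n hn)
  have h3 : ∑ B ∈ S, (L1a_N n B.card / (n.choose B.card : ℝ)) ^ 2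
      = ∑ a ∈ Finset.Icc 1 (n / 2), ∑ B ∈ S.filter (fun B => B.card = a), (L1a_N n B.card / (n.choose B.card : ℝ)) ^ 2 := by
    symm
    apply Finset.sum_fiberwise_of_maps_to
    intro B hB
    rw [hS, Finset.mem_filter] at hB
    rw [Finset.mem_Icc]
    omega
  rw [h3]
  refine Finset.sum_congr rfl fun a ha => ?_
  rw [Finset.mem_Icc] at ha
  have h4 : S.filter (fun B => B.card = a) = (Finset.univ : Finset (Fin n)).powersetCard a := by
    ext B
    rw [hS, Finset.mem_filter, Finset.mem_filter, Finset.mem_powersetCard]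
    constructor
    · rintro ⟨_, h⟩
      exact ⟨Finset.subset_univ _, h⟩
    · rintro ⟨_, h⟩
      exact ⟨⟨Finset.mem_univ _, by omega, by omega⟩, h⟩
  rw [h4]
  have h5 : ∀ B ∈ (Finset.univ : Finset (Fin n)).powersetCard a, (L1a_N n B.card / (n.choose B.card : ℝ)) ^ 2
      = (L1a_N n a / (n.choose a : ℝ)) ^ 2 := by
    intro B hB
    rw [Finset.mem_powersetCard] at hB
    rw [hB.2]
  rw [Finset.sum_congr rfl h5, Finset.sum_const, Finset.card_powersetCard, Finset.card_univ, Fintype.card_fin, nsmul_eq_mul]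
  have hC : (0 : ℝ) < (n.choose a : ℝ) := by
    have : 0 < n.choose a := Nat.choose_pos (by omega)
    exact_mod_cast this
  field_simp

end Pool.Agent.BC5
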