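import Pool.Agent.Lib.MP_bc5a73_al.Lift.Defs

/-! Cheeger. PGap _ x ε 1 is only about j = 1: f : Tp n 1 -> ℝ pure = function on points of sum zero (Tp n 1 ≃ Fin n, a ↦ a 0). Let A = Ap (1/2) x,
<(1-A)f,f> = (1/4) sum_i sum_p (f(x_i p) - f(p))^2 (for i = 0,1: <(1-S(x))f,f> = (1/2) sum_p (f(xp)-f(p))^2, weight 1/2). -/

set_option autoImplicit false
open scoped BigOperators Matrix
open Matrix
namespace Pool.Agent.BC5

variable {n : ℕ}

/-- number of points of `B` leaving `B` -/
theorem L1b_cnt (σ : Equiv.Perm (Fin n)) (B : Finset (Fin n)) :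
    ∑ p : Fin n, (if p ∈ B ∧ σ p ∉ B then (1 : ℝ) else 0) = ((B.image σ \ B).card : ℝ) := by
  rw [← Finset.sum_filter, Finset.sum_const, nsmul_eq_mul, mul_one]
  congr 1
  refine Finset.card_bij (fun p _ => σ p) ?_ ?_ ?_
  · intro p hp
    rw [Finset.mem_filter] at hp
    rw [Finset.mem_sdiff, Finset.mem_image]
    exact ⟨⟨p, hp.2.1, rfl⟩, hp.2.2⟩
  · intro a _ b _ hab
    exact σ.injective hab
  · intro q hq
    rw [Finset.mem_sdiff, Finset.mem_image] at hq
    obtain ⟨⟨p, hp, hpq⟩, hq2⟩ := hq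
    refine ⟨p, ?_, hpq⟩
    rw [Finset.mem_filter]
    exact ⟨Finset.mem_univ _, hp, by rw [hpq]; exact hq2⟩

/-- co-area inequality by induction on the support -/
theorem L1b_area (σ : Fin 2 → Equiv.Perm (Fin n))
    (h : ∀ B : Finset (Fin n), 1 ≤ B.card → 2 * B.card ≤ n →
      (B.card : ℝ) / 100 ≤ ∑ i, ((B.image (σ i) \ B).card : ℝ)) :
    ∀ (N : ℕ) (φ : Fin n → ℝ), (∀ p, 0 ≤ φ p) → (Finset.univ.filter (fun p => 0 < φ p)).card ≤ N →
      2 * (Finset.univ.filter (fun p => 0 < φ p)).card ≤ n →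
      (∑ p, φ p) / 100 ≤ ∑ i, ∑ p, max (φ p - φ (σ i p)) 0 := by
  intro N
  induction N with
  | zero =>
    intro φ h0 hN _
    have hz : ∀ p, φ p = 0 := by
      intro p
      by_contra hp
      have hp' : 0 < φ p := lt_of_le_of_ne (h0 p) (Ne.symm hp)
      have : p ∈ Finset.univ.filter (fun p => 0 < φ p) := by
        rw [Finset.mem_filter]; exact ⟨Finset.mem_univ _, hp'⟩
      have := Finset.card_pos.mpr ⟨p, this⟩
      omega
    rw [Finset.sum_congr rfl (fun p _ => hz p), Finset.sum_const_zero, zero_div]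
    exact Finset.sum_nonneg fun i _ => Finset.sum_nonneg fun p _ => le_max_right _ _
  | succ N ih =>
    intro φ h0 hN h2
    obtain ⟨B, hB⟩ : ∃ B : Finset (Fin n), B = Finset.univ.filter (fun p => 0 < φ p) := ⟨_, rfl⟩
    rw [← hB] at hN h2
    have hmB : ∀ p, p ∈ B ↔ 0 < φ p := by
      intro p; rw [hB, Finset.mem_filter]; simp
    rcases Finset.eq_empty_or_nonempty B with hBe | hBn
    · refine ih φ h0 ?_ ?_
      · rw [← hB, hBe]; simp
      · rw [← hB]; exact h2
    · obtain ⟨p0, hp0, hmin⟩ := Finset.exists_min_image B φ hBn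
      have hm0 : 0 < φ p0 := (hmB p0).1 hp0
      obtain ⟨m, hm⟩ : ∃ m : ℝ, m = φ p0 := ⟨_, rfl⟩
      rw [← hm] at hm0
      obtain ⟨ψ, hψ⟩ : ∃ ψ : Fin n → ℝ, ψ = fun p => if p ∈ B then φ p - m else 0 := ⟨_, rfl⟩
      have hψ1 : ∀ p, p ∈ B → ψ p = φ p - m := by
        intro p hp; rw [hψ]; simp [hp]
      have hψ2 : ∀ p, p ∉ B → ψ p = 0 := by
        intro p hp; rw [hψ]; simp [hp]
      have hφ2 : ∀ p, p ∉ B → φ p = 0 := by
        intro p hp
        have : ¬ 0 < φ p := fun hh => hp ((hmB p).2 hh)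
        exact le_antisymm (not_lt.1 this) (h0 p)
      have hψ0 : ∀ p, 0 ≤ ψ p := by
        intro p
        by_cases hp : p ∈ B
        · rw [hψ1 p hp, hm]; linarith [hmin p hp]
        · rw [hψ2 p hp]
      have hsub : Finset.univ.filter (fun p => 0 < ψ p) ⊆ B.erase p0 := by
        intro p hp
        rw [Finset.mem_filter] at hp
        have hpB : p ∈ B := by
          by_contra hc
          rw [hψ2 p hc] at hp
          exact lt_irrefl _ hp.2
        rw [Finset.mem_erase]
        refine ⟨?_, hpB⟩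
        rintro rfl
        rw [hψ1 p hpB, hm] at hp
        linarith [hp.2]
      have hcard : (Finset.univ.filter (fun p => 0 < ψ p)).card ≤ B.card - 1 := by
        have := Finset.card_le_card hsub
        rw [Finset.card_erase_of_mem hp0] at this
        exact this
      have hBpos : 1 ≤ B.card := Finset.card_pos.mpr hBn
      have ih' := ih ψ hψ0 (by omega) (by omega)
      have hBh := h B hBpos h2
      -- the sum of `φ`
      have e1 : ∑ p, φ p = ∑ p, ψ p + m * (B.card : ℝ) := by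
        have e : ∀ p, φ p = ψ p + (if p ∈ B then m else 0) := by
          intro p
          by_cases hp : p ∈ B
          · rw [hψ1 p hp, if_pos hp]; ring
          · rw [hψ2 p hp, if_neg hp, hφ2 p hp]; ring
        rw [Finset.sum_congr rfl (fun p _ => e p), Finset.sum_add_distrib]
        congr 1
        rw [← Finset.sum_filter, Finset.sum_const, nsmul_eq_mul, Finset.filter_mem_eq_inter,
          Finset.univ_inter]
        ring
      have e2 : ∀ i, ∑ p, max (φ p - φ (σ i p)) 0 =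
          ∑ p, max (ψ p - ψ (σ i p)) 0 + m * ((B.image (σ i) \ B).card : ℝ) := by
        intro i
        rw [← L1b_cnt, Finset.mul_sum, ← Finset.sum_add_distrib]
        refine Finset.sum_congr rfl fun p _ => ?_
        by_cases hp : p ∈ B
        · by_cases hq : σ i p ∈ B
          · rw [hψ1 p hp, hψ1 _ hq, if_neg (fun hh => hh.2 hq)]
            rw [mul_zero, add_zero]
            congr 1
            ring
          · rw [hψ1 p hp, hψ2 _ hq, hφ2 _ hq, if_pos ⟨hp, hq⟩]
            have h1 : m ≤ φ p := by rw [hm]; exact hmin p hp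
            rw [max_eq_left (by linarith), max_eq_left (by linarith)]
            ring
        · rw [if_neg (fun hh => hp hh.1), mul_zero, add_zero, hψ2 p hp, hφ2 p hp]
          rw [max_eq_right (by linarith [h0 (σ i p)]), max_eq_right (by linarith [hψ0 (σ i p)])]
      rw [e1, Finset.sum_congr rfl (fun i _ => e2 i), Finset.sum_add_distrib, ← Finset.mul_sum]
      have : m * ((B.card : ℝ) / 100) ≤ m * ∑ i, ((B.image (σ i) \ B).card : ℝ) :=
        mul_le_mul_of_nonneg_left hBh hm0.le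
      have e3 : (∑ p, ψ p + m * (B.card : ℝ)) / 100 = (∑ p, ψ p) / 100 + m * ((B.card : ℝ) / 100) := by ring
      rw [e3]
      exact add_le_add ih' this

/-- the energy of a nonnegative function of small support -/
theorem L1b_pos (σ : Fin 2 → Equiv.Perm (Fin n))
    (h : ∀ B : Finset (Fin n), 1 ≤ B.card → 2 * B.card ≤ n →
      (B.card : ℝ) / 100 ≤ ∑ i, ((B.image (σ i) \ B).card : ℝ)) (g : Fin n → ℝ) (hg : ∀ p, 0 ≤ g p)
    (h2 : 2 * (Finset.univ.filter (fun p => 0 < g p)).card ≤ n) :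
    (∑ p, g p ^ 2) / 20000 ≤ ∑ i, ∑ p, (g p - g (σ i p)) ^ 2 := by
  have hs : Finset.univ.filter (fun p => 0 < g p ^ 2) = Finset.univ.filter (fun p => 0 < g p) := by
    refine Finset.filter_congr fun p _ => ?_
    constructor
    · intro hp
      refine lt_of_le_of_ne (hg p) ?_
      intro h0
      rw [← h0] at hp
      norm_num at hp
    · intro hp
      positivity
  have ha := L1b_area σ h _ (fun p => g p ^ 2) (fun p => sq_nonneg _) le_rfl (by rw [hs]; exact h2)
  have e1 : ∀ i, ∑ p, max (g p ^ 2 - g (σ i p) ^ 2) 0 = (1 / 2) * ∑ p, |g p ^ 2 - g (σ i p) ^ 2| := by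
    intro i
    have e : ∀ p, max (g p ^ 2 - g (σ i p) ^ 2) 0 =
        (1 / 2) * |g p ^ 2 - g (σ i p) ^ 2| + (1 / 2) * (g p ^ 2 - g (σ i p) ^ 2) := by
      intro p
      rcases le_total 0 (g p ^ 2 - g (σ i p) ^ 2) with hc | hc
      · rw [max_eq_left hc, abs_of_nonneg hc]; ring
      · rw [max_eq_right hc, abs_of_nonpos hc]; ring
    rw [Finset.sum_congr rfl (fun p _ => e p), Finset.sum_add_distrib, ← Finset.mul_sum, ← Finset.mul_sum,
      Finset.sum_sub_distrib]
    have : ∑ p, g (σ i p) ^ 2 = ∑ p, g p ^ 2 := Equiv.sum_comp (σ i) (fun p => g p ^ 2)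
    rw [this]
    ring
  have e2 : ∀ i, ∑ p, |g p ^ 2 - g (σ i p) ^ 2| ≤
      200 * ∑ p, (g p - g (σ i p)) ^ 2 + (1 / 200) * ∑ p, g p ^ 2 := by
    intro i
    have e : ∀ p, |g p ^ 2 - g (σ i p) ^ 2| ≤
        200 * (g p - g (σ i p)) ^ 2 + ((1 / 400) * g p ^ 2 + (1 / 400) * g (σ i p) ^ 2) := by
      intro p
      rw [abs_le]
      constructor
      · nlinarith [sq_nonneg (400 * (g p - g (σ i p)) + (g p + g (σ i p))), sq_nonneg (g p - g (σ i p))]
      · nlinarith [sq_nonneg (400 * (g p - g (σ i p)) - (g p + g (σ i p))), sq_nonneg (g p - g (σ i p))]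
    refine (Finset.sum_le_sum fun p _ => e p).trans ?_
    rw [Finset.sum_add_distrib, Finset.sum_add_distrib, ← Finset.mul_sum, ← Finset.mul_sum, ← Finset.mul_sum]
    have : ∑ p, g (σ i p) ^ 2 = ∑ p, g p ^ 2 := Equiv.sum_comp (σ i) (fun p => g p ^ 2)
    rw [this]
    linarith
  have e3 : ∑ i, ∑ p, max (g p ^ 2 - g (σ i p) ^ 2) 0 ≤
      ∑ i : Fin 2, (100 * ∑ p, (g p - g (σ i p)) ^ 2 + (1 / 400) * ∑ p, g p ^ 2) := by
    refine Finset.sum_le_sum fun i _ => ?_
    rw [e1 i]
    linarith [e2 i]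
  rw [Finset.sum_add_distrib, ← Finset.mul_sum, Finset.sum_const, Finset.card_univ, Fintype.card_fin,
    nsmul_eq_mul] at e3
  have ha' : (∑ p, g p ^ 2) / 100 ≤ ∑ i, ∑ p, max (g p ^ 2 - g (σ i p) ^ 2) 0 := ha
  push_cast at e3
  linarith

/-- median -/
theorem L1b_med (hn : 1 ≤ n) (f : Fin n → ℝ) : ∃ m : ℝ,
    2 * (Finset.univ.filter (fun q => m < f q)).card ≤ n ∧
      2 * (Finset.univ.filter (fun q => f q < m)).card ≤ n := by
  have : Nonempty (Fin n) := ⟨⟨0, hn⟩⟩
  obtain ⟨S, hS⟩ : ∃ S : Finset (Fin n), S = Finset.univ.filter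
      (fun p => 2 * (Finset.univ.filter (fun q => f p < f q)).card ≤ n) := ⟨_, rfl⟩
  have hmS : ∀ p, p ∈ S ↔ 2 * (Finset.univ.filter (fun q => f p < f q)).card ≤ n := by
    intro p; rw [hS, Finset.mem_filter]; simp
  have hSn : S.Nonempty := by
    obtain ⟨p, _, hp⟩ := Finset.exists_max_image Finset.univ f Finset.univ_nonempty
    refine ⟨p, (hmS p).2 ?_⟩
    have : Finset.univ.filter (fun q => f p < f q) = ∅ := by
      rw [Finset.filter_eq_empty_iff]
      intro q hq hc
      exact absurd (hp q hq) (not_le.2 hc)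
    rw [this]
    simp
  obtain ⟨p, hp, hmin⟩ := Finset.exists_min_image S f hSn
  refine ⟨f p, (hmS p).1 hp, ?_⟩
  by_contra hc
  obtain ⟨T, hT⟩ : ∃ T : Finset (Fin n), T = Finset.univ.filter (fun q => f q < f p) := ⟨_, rfl⟩
  rw [← hT] at hc
  have hmT : ∀ q, q ∈ T ↔ f q < f p := by
    intro q; rw [hT, Finset.mem_filter]; simp
  have hTn : T.Nonempty := by
    rw [← Finset.card_pos]; omega
  obtain ⟨q, hq, hmax⟩ := Finset.exists_max_image T f hTn
  have hqS : q ∉ S := by
    intro hh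
    have := hmin q hh
    exact absurd ((hmT q).1 hq) (not_lt.2 this)
  rw [hmS] at hqS
  have hsub : Finset.univ.filter (fun r => f q < f r) ⊆ Tᶜ := by
    intro r hr
    rw [Finset.mem_filter] at hr
    rw [Finset.mem_compl]
    intro hrT
    exact absurd (hmax r hrT) (not_le.2 hr.2)
  have hc1 := Finset.card_le_card hsub
  rw [Finset.card_compl, Fintype.card_fin] at hc1
  omega

/-- Poincare inequality on the points -/
theorem L1b_poinc (σ : Fin 2 → Equiv.Perm (Fin n))
    (h : ∀ B : Finset (Fin n), 1 ≤ B.card → 2 * B.card ≤ n →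
      (B.card : ℝ) / 100 ≤ ∑ i, ((B.image (σ i) \ B).card : ℝ)) (f : Fin n → ℝ) (hf : ∑ p, f p = 0) :
    (∑ p, f p ^ 2) / 20000 ≤ ∑ i, ∑ p, (f p - f (σ i p)) ^ 2 := by
  rcases Nat.eq_zero_or_pos n with hn | hn
  · subst hn
    simp
  obtain ⟨m, hm1, hm2⟩ := L1b_med hn f
  have hg := L1b_pos σ h (fun p => max (f p - m) 0) (fun p => le_max_right _ _) (by
    refine le_trans (Nat.mul_le_mul_left 2 (Finset.card_le_card ?_)) hm1
    intro q hq
    rw [Finset.mem_filter] at hq ⊢
    refine ⟨hq.1, ?_⟩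
    by_contra hc
    rw [max_eq_right (by linarith [not_lt.1 hc])] at hq
    exact lt_irrefl _ hq.2)
  have hh := L1b_pos σ h (fun p => max (m - f p) 0) (fun p => le_max_right _ _) (by
    refine le_trans (Nat.mul_le_mul_left 2 (Finset.card_le_card ?_)) hm2
    intro q hq
    rw [Finset.mem_filter] at hq ⊢
    refine ⟨hq.1, ?_⟩
    by_contra hc
    rw [max_eq_right (by linarith [not_lt.1 hc])] at hq
    exact lt_irrefl _ hq.2)
  have e1 : ∑ p, f p ^ 2 ≤ ∑ p, (max (f p - m) 0) ^ 2 + ∑ p, (max (m - f p) 0) ^ 2 := by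
    rw [← Finset.sum_add_distrib]
    have e : ∀ p, (max (f p - m) 0) ^ 2 + (max (m - f p) 0) ^ 2 = f p ^ 2 - 2 * m * f p + m ^ 2 := by
      intro p
      rcases le_total (f p) m with hc | hc
      · rw [max_eq_right (by linarith), max_eq_left (by linarith)]; ring
      · rw [max_eq_left (by linarith), max_eq_right (by linarith)]; ring
    rw [Finset.sum_congr rfl (fun p _ => e p), Finset.sum_add_distrib, Finset.sum_sub_distrib,
      ← Finset.mul_sum, hf]
    have : 0 ≤ ∑ p : Fin n, m ^ 2 := Finset.sum_nonneg fun p _ => sq_nonneg _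
    linarith
  have e2 : ∑ i, ∑ p, (max (f p - m) 0 - max (f (σ i p) - m) 0) ^ 2 +
      ∑ i, ∑ p, (max (m - f p) 0 - max (m - f (σ i p)) 0) ^ 2 ≤ ∑ i, ∑ p, (f p - f (σ i p)) ^ 2 := by
    rw [← Finset.sum_add_distrib]
    refine Finset.sum_le_sum fun i _ => ?_
    rw [← Finset.sum_add_distrib]
    refine Finset.sum_le_sum fun p _ => ?_
    rcases le_total (f p) m with hc | hc <;> rcases le_total (f (σ i p)) m with hd | hd
    · rw [max_eq_right (by linarith : f p - m ≤ 0), max_eq_right (by linarith : f (σ i p) - m ≤ 0),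
        max_eq_left (by linarith : 0 ≤ m - f p), max_eq_left (by linarith : 0 ≤ m - f (σ i p))]
      nlinarith
    · rw [max_eq_right (by linarith : f p - m ≤ 0), max_eq_left (by linarith : 0 ≤ f (σ i p) - m),
        max_eq_left (by linarith : 0 ≤ m - f p), max_eq_right (by linarith : m - f (σ i p) ≤ 0)]
      nlinarith [mul_nonneg (sub_nonneg.2 hc) (sub_nonneg.2 hd)]
    · rw [max_eq_left (by linarith : 0 ≤ f p - m), max_eq_right (by linarith : f (σ i p) - m ≤ 0),
        max_eq_right (by linarith : m - f p ≤ 0), max_eq_left (by linarith : 0 ≤ m - f (σ i p))]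
      nlinarith [mul_nonneg (sub_nonneg.2 hc) (sub_nonneg.2 hd)]
    · rw [max_eq_left (by linarith : 0 ≤ f p - m), max_eq_left (by linarith : 0 ≤ f (σ i p) - m),
        max_eq_right (by linarith : m - f p ≤ 0), max_eq_right (by linarith : m - f (σ i p) ≤ 0)]
      nlinarith
  linarith

/-- the action of the permutation matrix -/
theorem L1b_Pm {X : Type} [MulAction (Alt n) X] [DecidableEq X] [Fintype X] (g : Alt n) (f : X → ℝ) (a : X) :
    (Pm g *ᵥ f) a = f (g⁻¹ • a) := by
  rw [Matrix.mulVec, dotProduct]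
  simp only [Pm, Matrix.of_apply]
  rw [Finset.sum_eq_single (g⁻¹ • a)]
  · rw [smul_inv_smul, if_pos rfl, one_mul]
  · intro b _ hb
    rw [if_neg, zero_mul]
    intro hh
    exact hb (by rw [hh, inv_smul_smul])
  · intro hh
    exact absurd (Finset.mem_univ _) hh

theorem L1b_qf {X : Type} [MulAction (Alt n) X] [DecidableEq X] [Fintype X] (g : Alt n) (f : X → ℝ) :
    qf (Sp g) f = f ⬝ᵥ f - (1 / 2) * ∑ a, (f a - f (g • a)) ^ 2 := by
  have e1 : f ⬝ᵥ (Pm g *ᵥ f) = ∑ a, f a * f (g • a) := by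
    rw [dotProduct, ← Equiv.sum_comp (MulAction.toPerm g)]
    refine Finset.sum_congr rfl fun a _ => ?_
    rw [L1b_Pm, MulAction.toPerm_apply, inv_smul_smul, mul_comm]
  have e2 : f ⬝ᵥ (Pm g⁻¹ *ᵥ f) = ∑ a, f a * f (g • a) := by
    rw [dotProduct]
    refine Finset.sum_congr rfl fun a _ => ?_
    rw [L1b_Pm, inv_inv]
  have e3 : ∑ a, (f (g • a)) ^ 2 = ∑ a, (f a) ^ 2 := by
    rw [← Equiv.sum_comp (MulAction.toPerm g) (fun a => f a ^ 2)]
    rfl
  have e4 : f ⬝ᵥ f = ∑ a, (f a) ^ 2 := by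
    rw [dotProduct]
    exact Finset.sum_congr rfl fun a _ => by ring
  have e5 : ∑ a, (f a - f (g • a)) ^ 2 = 2 * (f ⬝ᵥ f) - 2 * ∑ a, f a * f (g • a) := by
    have e : ∀ a, (f a - f (g • a)) ^ 2 = f a ^ 2 + f (g • a) ^ 2 - 2 * (f a * f (g • a)) := fun a => by ring
    rw [Finset.sum_congr rfl (fun a _ => e a), Finset.sum_sub_distrib, Finset.sum_add_distrib, e3, ← e4,
      ← Finset.mul_sum]
    ring
  rw [qf, Sp, Matrix.smul_mulVec, Matrix.add_mulVec, dotProduct_smul, dotProduct_add, e1, e2, e5, smul_eq_mul]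
  ring

theorem L1b (x : Fin 2 → Alt n) (h : ∀ B : Finset (Fin n), 1 ≤ B.card → 2 * B.card ≤ n →
      (B.card : ℝ) / 100 ≤ ∑ i, ((B.image (fun p => x i • p) \ B).card : ℝ)) :
    PGap (fun _ : Fin 2 => (1 / 2 : ℝ)) x (1 / 80000) 1 := by
  intro j hj1 hj2 f hf
  obtain rfl : j = 1 := le_antisymm hj2 hj1
  -- the points
  obtain ⟨e, he⟩ : ∃ e : Tp n 1 ≃ Fin n, ∀ a, e a = a 0 := by
    refine ⟨⟨fun a => a 0, fun p => ⟨fun _ => p, fun i j _ => Subsingleton.elim i j⟩, ?_, ?_⟩, fun a => rfl⟩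
    · intro a
      ext i
      rw [Subsingleton.elim i 0]
      rfl
    · intro p
      rfl
  have hes : ∀ (g : Alt n) (a : Tp n 1), e (g • a) = g • e a := by
    intro g a
    rw [he, he]
    rfl
  have hF := L1b_poinc (fun i => MulAction.toPerm (x i)) (fun B h1 h2 => h B h1 h2) (fun p => f (e.symm p)) (by
    rw [Equiv.sum_comp e.symm f]
    by_cases hne : Nonempty (Tp n 1)
    · obtain ⟨a⟩ := hne
      have := hf 0 a
      rw [Finset.filter_true_of_mem] at this
      · exact this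
      · intro b _ i hi
        exact absurd (Subsingleton.elim i 0) hi
    · have : IsEmpty (Tp n 1) := not_nonempty_iff.1 hne
      rw [Finset.univ_eq_empty, Finset.sum_empty])
  have e1 : ∑ p, f (e.symm p) ^ 2 = f ⬝ᵥ f := by
    rw [Equiv.sum_comp e.symm (fun a => f a ^ 2), dotProduct]
    exact Finset.sum_congr rfl fun a _ => by ring
  have e2 : ∀ i, ∑ p, (f (e.symm p) - f (e.symm (x i • p))) ^ 2 = ∑ a, (f a - f (x i • a)) ^ 2 := by
    intro i
    rw [← Equiv.sum_comp e.symm (fun a => (f a - f (x i • a)) ^ 2)]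
    refine Finset.sum_congr rfl fun p _ => ?_
    have : e.symm (x i • p) = x i • e.symm p := by
      rw [Equiv.symm_apply_eq, hes, Equiv.apply_symm_apply]
    rw [this]
  have hF' : (f ⬝ᵥ f) / 20000 ≤ ∑ i, ∑ a, (f a - f (x i • a)) ^ 2 := by
    rw [← e1, ← Finset.sum_congr rfl (fun i _ => e2 i)]
    exact hF
  have e3 : qf (Ap (fun _ : Fin 2 => (1 / 2 : ℝ)) x) f = ∑ i, (1 / 2) * qf (Sp (x i)) f := by
    rw [qf, Ap, Matrix.sum_mulVec, dotProduct_sum]
    refine Finset.sum_congr rfl fun i _ => ?_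
    rw [Matrix.smul_mulVec, dotProduct_smul, smul_eq_mul, qf]
  rw [e3, Finset.sum_congr rfl (fun i _ => by rw [L1b_qf]), ← Finset.mul_sum, Finset.sum_sub_distrib,
    ← Finset.mul_sum, Finset.sum_const, Finset.card_univ, Fintype.card_fin, nsmul_eq_mul]
  have key : ∀ F S : ℝ, F / 20000 ≤ S → (1 / 2) * (((2 : ℕ) : ℝ) * F - (1 / 2) * S) ≤ (1 - 1 / 80000) * F := by
    intro F S hh
    push_cast
    linarith
  exact key _ _ hF'

end Pool.Agent.BC5
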