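import Pool.Agent.Lib.MP_bc5a73_al.Lift.L2
import Pool.Agent.Lib.MP_bc5a73_al.General
import Pool.Agent.Lib.MP_bc5a73_al.StatementSat

/-! From the tuple functions to the regular representation. Y = {i : K <= i} in Fin n, |Y| = n-K. A function f on Alt n with avL (AY Y) *ᵥ f = f is f(g) = F(a_g) with
a_g = g⁻¹ • (castLE : Fin K -> Fin n) (injective tuple), (Aw w x *ᵥ f)(g) = (Ap w x *ᵥ F)(a_g), sums over Alt n = |A_Y| times sums over tuples (transitivity on K-tuples, K+2 <= n),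
Jm *ᵥ f = 0 <-> sum F = 0. By L2 (imported statement) qf (Aw w x) f <= (1-ε) f·f for these f. Then as in gapOn_of_base (Gap.lean, with general ε instead of 1/2) : GapOn (Aw w x) ε K,
then inv_expand and coarea (SmallIndex.lean) with weights w and ε/2 instead of 1/8: copy their proofs (avg -> sum w_i, 3/4 -> 1-ε), final_m in BoundedFinal.lean shows the last steps. -/

set_option autoImplicit false
open scoped BigOperators Matrix
open Matrix
namespace Pool.Agent.BC5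

variable {n : ℕ}

section act
variable {G X : Type} [Group G] [MulAction G X] [DecidableEq X] [Fintype X]

theorem L9_Pm (g : G) (f : X → ℝ) (a : X) : ((Pm g : Matrix X X ℝ) *ᵥ f) a = f (g⁻¹ • a) := by
  simp only [Pm, Matrix.mulVec, dotProduct, Matrix.of_apply, ite_mul, one_mul, zero_mul]
  rw [Finset.sum_eq_single (g⁻¹ • a)]
  · simp
  · intro b _ hb
    rw [if_neg]
    rintro rfl
    exact hb (by simp)
  · simp

theorem L9_Ap {ι : Type} [Fintype ι] (w : ι → ℝ) (x : ι → G) (f : X → ℝ) (a : X) :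
    ((Ap w x : Matrix X X ℝ) *ᵥ f) a = ∑ i, w i * (1 / 2 * (f ((x i)⁻¹ • a) + f (x i • a))) := by
  unfold Ap Sp
  rw [Matrix.sum_mulVec, Finset.sum_apply]
  refine Finset.sum_congr rfl fun i _ => ?_
  rw [Matrix.smul_mulVec, Matrix.smul_mulVec, Matrix.add_mulVec]
  simp only [Pi.smul_apply, Pi.add_apply, smul_eq_mul, L9_Pm, inv_inv]

end act

section reg
variable {G : Type} [Group G] [Fintype G] [DecidableEq G]

theorem L9_Aw {ι : Type} [Fintype ι] (w : ι → ℝ) (x : ι → G) (f : G → ℝ) (g : G) :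
    (Aw w x *ᵥ f) g = ∑ i, w i * (1 / 2 * (f (g * x i) + f (g * (x i)⁻¹))) := by
  unfold Aw Sm
  rw [Matrix.sum_mulVec, Finset.sum_apply]
  refine Finset.sum_congr rfl fun i _ => ?_
  rw [Matrix.smul_mulVec, Matrix.smul_mulVec, Matrix.add_mulVec]
  simp only [Pi.smul_apply, Pi.add_apply, smul_eq_mul, Rm_mulVec]

end reg

/-- The tuple `g⁻¹ • (0, …, K - 1)`. -/
def L9_tpl {K : ℕ} (hK : K ≤ n) (g : Alt n) : Tp n K := g⁻¹ • (Fin.castLEEmb hK : Tp n K)

theorem L9_smul_apply {K : ℕ} (g : Alt n) (a : Tp n K) (i : Fin K) :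
    (g • a) i = (g : Equiv.Perm (Fin n)) (a i) := rfl

theorem L9_mul_smul {K : ℕ} (g h : Alt n) (a : Tp n K) : (g * h) • a = g • h • a := by
  ext i
  rfl

theorem L9_inv_smul {K : ℕ} (g : Alt n) (a : Tp n K) : g⁻¹ • g • a = a := by
  rw [← L9_mul_smul, inv_mul_cancel]
  ext i
  rfl

theorem L9_smul_inv {K : ℕ} (g : Alt n) (a : Tp n K) : g • g⁻¹ • a = a := by
  rw [← L9_mul_smul, mul_inv_cancel]
  ext i
  rfl

theorem L9_tpl_mul {K : ℕ} (hK : K ≤ n) (g x : Alt n) : L9_tpl hK (g * x) = x⁻¹ • L9_tpl hK g := by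
  unfold L9_tpl
  rw [_root_.mul_inv_rev, L9_mul_smul]

theorem L9_trans {K : ℕ} (hK : K + 2 ≤ n) (a b : Tp n K) : ∃ g : Alt n, g • a = b := by
  obtain ⟨g, -, hg⟩ := exists_mem_AY (Finset.univ : Finset (Fin n)) (fun i => a i) (fun i => b i) a.injective
    b.injective (fun i => Finset.mem_univ _) (fun i => Finset.mem_univ _) (by
      rw [Fintype.card_fin, Finset.card_univ, Fintype.card_fin]; exact hK)
  refine ⟨g, ?_⟩
  ext i
  have := hg i
  rw [← this]
  rfl

theorem L9_tpl_surj {K : ℕ} (hK : K ≤ n) (hK2 : K + 2 ≤ n) (a : Tp n K) : ∃ g : Alt n, L9_tpl hK g = a := by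
  obtain ⟨g, hg⟩ := L9_trans hK2 (Fin.castLEEmb hK : Tp n K) a
  refine ⟨g⁻¹, ?_⟩
  unfold L9_tpl
  rw [inv_inv]
  exact hg

theorem L9_sum {K : ℕ} (hK : K ≤ n) (hK2 : K + 2 ≤ n) : ∃ c : ℝ, 0 < c ∧ ∀ φ : Tp n K → ℝ,
    ∑ g : Alt n, φ (L9_tpl hK g) = c * ∑ a, φ a := by
  classical
  obtain ⟨a0, ha0⟩ : ∃ a0 : Tp n K, a0 = L9_tpl hK 1 := ⟨_, rfl⟩
  obtain ⟨F, hF⟩ : ∃ F : Tp n K → Finset (Alt n), F = fun a => Finset.univ.filter (fun g => L9_tpl hK g = a) := ⟨_, rfl⟩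
  have hmem : ∀ a g, g ∈ F a ↔ L9_tpl hK g = a := by
    intro a g
    rw [hF]
    simp
  have hcard : ∀ a, (F a).card = (F a0).card := by
    intro a
    obtain ⟨h, hh⟩ := L9_trans hK2 a a0
    refine Finset.card_nbij' (fun g => g * h⁻¹) (fun g => g * h) ?_ ?_ ?_ ?_
    · intro g hg
      rw [Finset.mem_coe, hmem] at hg ⊢
      rw [L9_tpl_mul, hg, inv_inv, hh]
    · intro g hg
      rw [Finset.mem_coe, hmem] at hg ⊢
      rw [L9_tpl_mul, hg, ← hh, L9_inv_smul]
    · intro g _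
      simp
    · intro g _
      simp
  have hpos : 0 < (F a0).card := Finset.card_pos.2 ⟨1, by rw [hmem, ha0]⟩
  refine ⟨((F a0).card : ℝ), by exact_mod_cast hpos, fun φ => ?_⟩
  rw [← Finset.sum_fiberwise Finset.univ (L9_tpl hK) (fun g => φ (L9_tpl hK g)), Finset.mul_sum]
  refine Finset.sum_congr rfl fun a _ => ?_
  have h1 : ∀ g ∈ Finset.univ.filter (fun g => L9_tpl hK g = a), φ (L9_tpl hK g) = φ a := by
    intro g hg
    rw [(Finset.mem_filter.1 hg).2]
  rw [Finset.sum_congr rfl h1, Finset.sum_const, nsmul_eq_mul, ← hcard a, hF]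

/-- The gap on the functions invariant under the permutations fixing `0, …, K - 1`. -/
theorem L9_low {ι : Type} [Fintype ι] {K : ℕ} (x : ι → Alt n) {w : ι → ℝ} (hw : IsWt w) (ε : ℝ)
    (hε1 : ε ≤ 1) (hK : K + 2 ≤ n) (h : PGap w x ε K) (f : Alt n → ℝ)
    (hf : avL (AY (Finset.univ.filter (fun i : Fin n => K ≤ i.val))) *ᵥ f = f) (hJ : Jm (Alt n) *ᵥ f = 0) :
    qf (Aw w x) f ≤ (1 - ε) * (f ⬝ᵥ f) := by
  classical
  have hKn : K ≤ n := by omega
  rw [avL_mulVec_eq_iff (AY_isGrp _)] at hf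
  choose s hs using L9_tpl_surj hKn hK
  obtain ⟨F, hF⟩ : ∃ F : Tp n K → ℝ, F = fun a => f (s a) := ⟨_, rfl⟩
  have hfF : ∀ g, f g = F (L9_tpl hKn g) := by
    intro g
    rw [hF]
    obtain ⟨g', hg'⟩ : ∃ g', g' = s (L9_tpl hKn g) := ⟨_, rfl⟩
    have h1 : L9_tpl hKn g' = L9_tpl hKn g := by rw [hg']; exact hs _
    show f g = f (s (L9_tpl hKn g))
    rw [← hg']
    have h2 : g' * g⁻¹ ∈ AY (Finset.univ.filter (fun i : Fin n => K ≤ i.val)) := by
      rw [mem_AY]
      intro y hy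
      have hy' : y.val < K := by
        by_contra hc
        exact hy (Finset.mem_filter.2 ⟨Finset.mem_univ _, by omega⟩)
      have h3 : (g' * g⁻¹) • (Fin.castLEEmb hKn : Tp n K) = Fin.castLEEmb hKn := by
        unfold L9_tpl at h1
        rw [L9_mul_smul, ← h1, L9_smul_inv]
      have h4 := DFunLike.congr_fun h3 (⟨y.val, hy'⟩ : Fin K)
      have h5 : (Fin.castLEEmb hKn : Tp n K) ⟨y.val, hy'⟩ = y := by
        ext; rfl
      rw [L9_smul_apply, h5] at h4
      exact h4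
    have h3 := congrFun (hf _ h2) g'
    rw [Lm_mulVec] at h3
    rw [← h3]
    congr 1
    group
  obtain ⟨c, hc, hsum⟩ := L9_sum hKn hK
  have hA : ∀ g, (Aw w x *ᵥ f) g = (Ap w x *ᵥ F) (L9_tpl hKn g) := by
    intro g
    rw [L9_Aw, L9_Ap]
    refine Finset.sum_congr rfl fun i _ => ?_
    rw [hfF, hfF, L9_tpl_mul, L9_tpl_mul, inv_inv]
    rfl
  have hqf : qf (Aw w x) f = c * qf (Ap w x) F := by
    unfold qf dotProduct
    rw [← hsum (fun a => F a * (Ap w x *ᵥ F) a)]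
    refine Finset.sum_congr rfl fun g _ => ?_
    rw [hA, hfF]
  have hff : f ⬝ᵥ f = c * (F ⬝ᵥ F) := by
    unfold dotProduct
    rw [← hsum (fun a => F a * F a)]
    refine Finset.sum_congr rfl fun g _ => ?_
    rw [hfF]
  have hf0 : ∑ g, f g = 0 := by
    have h1 := congrFun hJ 1
    simp only [Jm, Matrix.mulVec, dotProduct, Matrix.of_apply, Pi.zero_apply] at h1
    rw [← Finset.mul_sum] at h1
    rcases mul_eq_zero.1 h1 with h2 | h2
    · exfalso
      have h3 : (Fintype.card (Alt n) : ℝ) ≠ 0 := by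
        exact_mod_cast Fintype.card_ne_zero
      exact inv_ne_zero h3 h2
    · exact h2
  have hF0 : ∑ a, F a = 0 := by
    have h1 := hsum F
    have h2 : ∑ g, F (L9_tpl hKn g) = 0 := by
      rw [← hf0]
      exact Finset.sum_congr rfl fun g _ => (hfF g).symm
    rw [h2] at h1
    rcases mul_eq_zero.1 h1.symm with h3 | h3
    · exact absurd h3 hc.ne'
    · exact h3
  have hL2 := L2 hw x ε hε1 K hKn h F hF0
  rw [hqf, hff]
  calc c * qf (Ap w x) F ≤ c * ((1 - ε) * (F ⬝ᵥ F)) := mul_le_mul_of_nonneg_left hL2 hc.le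
    _ = (1 - ε) * (c * (F ⬝ᵥ F)) := by ring

theorem L9_gapOn {ι : Type} [Fintype ι] {K : ℕ} (x : ι → Alt n) {w : ι → ℝ} (hw : IsWt w) (ε : ℝ)
    (hε1 : ε ≤ 1) (hn : 3 ≤ n) (hK : K + 2 ≤ n) (h : PGap w x ε K) : GapOn (Aw w x) ε K := by
  intro E hE hEJ hlev f hf
  obtain ⟨Y, hY⟩ : ∃ Y : Finset (Fin n), Y = Finset.univ.filter (fun i : Fin n => K ≤ i.val) := ⟨_, rfl⟩
  have hYc : Y.card + K ≤ n := by
    have h1 : K ≤ (Finset.univ.filter (fun i : Fin n => ¬ K ≤ i.val)).card := by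
      calc K = (Finset.univ : Finset (Fin K)).card := by rw [Finset.card_univ, Fintype.card_fin]
        _ ≤ (Finset.univ.filter (fun i : Fin n => ¬ K ≤ i.val)).card :=
          Finset.card_le_card_of_injOn (fun i => Fin.castLE (by omega) i) (by
            intro i _
            rw [Finset.mem_coe, Finset.mem_filter]
            exact ⟨Finset.mem_univ _, not_le.2 i.isLt⟩) (by
            intro i _ j _ hij
            exact Fin.castLE_injective _ hij)
    have h2 := Finset.card_filter_add_card_filter_not (s := (Finset.univ : Finset (Fin n))) (fun i : Fin n => K ≤ i.val)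
    rw [Finset.card_univ, Fintype.card_fin, ← hY] at h2
    omega
  have h1 : avL (AY Y) * E ≠ 0 := avL_mul_ne_zero_of_levLe hn hE hlev Y hYc
  have hc : Commute (Aw w x) E := (commute_Aw w x hE.2.2.1).symm
  have h3 : Jm (Alt n) * E = 0 := by
    rcases block_eq_or_mul_eq_zero Jm_isBlock hE with h3 | h3
    · exact absurd h3.symm hEJ
    · exact h3
  exact transfer (T := Aw w x) (c := 1 - ε) hE (AY_isGrp Y) h1 (Aw_transpose w x) (commL_Aw w x) hc
    (fun g hg hgY => by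
      refine L9_low x hw ε hε1 hK h g (by rw [← hY]; exact hgY) ?_
      rw [← hg, Matrix.mulVec_mulVec, h3, Matrix.zero_mulVec]) f hf

section gen
variable {G : Type} [Group G] [Fintype G] [DecidableEq G]

theorem L9_inv_expand {ι : Type} [Fintype ι] (x : ι → G) {w : ι → ℝ} (hw : IsWt w) {ε : ℝ} (hε : 0 < ε) (H : Subgroup G)
    (hx : ∀ E : Matrix G G ℝ, IsBlock E → E ≠ Jm G → avL (subF H) * E ≠ 0 → ∀ f : G → ℝ, E *ᵥ f = f →
      qf (Aw w x) f ≤ (1 - ε) * (f ⬝ᵥ f))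
    (B : Finset G) (hB : ∀ h ∈ H, ∀ g ∈ B, h * g ∈ B) (hcard : 2 * B.card ≤ Fintype.card G) :
    ε / 2 * (B.card : ℝ) ≤ ∑ i, w i * ((B.image (fun g => g * x i) \ B).card : ℝ) := by
  classical
  obtain ⟨A, hA⟩ : ∃ A : Set G, ∀ y, y ∈ A ↔ y ∈ B := ⟨(↑B : Set G), fun y => Finset.mem_coe⟩
  obtain ⟨𝓑, h𝓑, hsum⟩ := exists_blocks G
  obtain ⟨a, ha⟩ : ∃ a : ℝ, a = ∑ y : G, (if y ∈ A then (1 : ℝ) else 0) := ⟨_, rfl⟩
  obtain ⟨M, hM⟩ : ∃ M : ℝ, M = Fintype.card G := ⟨_, rfl⟩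
  have hM0 : 0 < M := by
    rw [hM]; exact_mod_cast Fintype.card_pos
  have hcardB : (B.card : ℝ) = a := by
    rw [ha, Finset.sum_boole]
    congr 2
    ext y
    rw [Finset.mem_filter, hA]
    simp
  have h2a : 2 * a ≤ M := by
    rw [← hcardB, hM]; exact_mod_cast hcard
  have ha0 : 0 ≤ a := by
    rw [← hcardB]; positivity
  obtain ⟨hff, hJ⟩ := H8_norm A a M ha hM
  obtain ⟨f, hf⟩ : ∃ f : G → ℝ, f = fun y : G => (if y ∈ A then (1 : ℝ) else 0) - a / M := ⟨_, rfl⟩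
  rw [← hf] at hff hJ
  have hlow : a / 2 ≤ f ⬝ᵥ f := by
    rw [hff]
    have : a * a / M ≤ a / 2 := by
      rw [div_le_div_iff₀ hM0 (by norm_num)]
      nlinarith
    linarith
  have hBinv : ∀ h ∈ H, ∀ y : G, (h⁻¹ * y ∈ B ↔ y ∈ B) := by
    intro h hh y
    constructor
    · intro h1
      have := hB h hh _ h1
      rwa [mul_inv_cancel_left] at this
    · intro h1
      exact hB _ (H.inv_mem hh) _ h1
  have hav : avL (subF H) *ᵥ f = f := by
    rw [avL_mulVec_eq_iff (inv_expand_isGrp H)]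
    intro h hh
    rw [mem_subF] at hh
    funext y
    rw [Lm_mulVec, hf]
    simp only [hA, hBinv h hh y]
  have hMc : ∀ E ∈ 𝓑, Commute E (Aw w x) := fun E hE => commute_Aw w x ((h𝓑 E).mp hE).2.2.1
  have hPr : ∀ E ∈ 𝓑, IsPr E := fun E hE => ((h𝓑 E).mp hE).1
  have hs1 := H8_split 𝓑 hPr hsum (Aw w x) hMc f
  have hs2 := H8_split 𝓑 hPr hsum 1 (fun E _ => Commute.one_right E) f
  have hterm : ∀ E ∈ 𝓑, qf (Aw w x) (E *ᵥ f) ≤ (1 - ε) * qf 1 (E *ᵥ f) := by
    intro E hE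
    have hblk := (h𝓑 E).mp hE
    by_cases hEJ : E = Jm G
    · rw [hEJ, hJ]
      simp [qf]
    · by_cases hEH : avL (subF H) * E = 0
      · have h1 : E *ᵥ f = 0 := by
          rw [← hav, Matrix.mulVec_mulVec, (G8_commL_avL hblk.2.1 (subF H)).eq, hEH,
            Matrix.zero_mulVec]
        rw [h1]
        simp [qf]
      · rw [qf_one]
        refine hx E hblk hEJ hEH _ ?_
        rw [Matrix.mulVec_mulVec, hblk.1.2]
  have hgapf : qf (Aw w x) f ≤ (1 - ε) * (f ⬝ᵥ f) := by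
    rw [hs1, ← qf_one, hs2, Finset.mul_sum]
    exact Finset.sum_le_sum hterm
  have hup : ∀ i, ((B.image (fun g => g * x i) \ B).card : ℝ) = f ⬝ᵥ f - qf (Sm (x i)) f := by
    intro i
    rw [qf_Sm, hf, H8_half]
    norm_cast
    congr 1
    ext y
    simp only [Finset.mem_sdiff, Finset.mem_image, Finset.mem_filter, Finset.mem_univ, true_and, hA]
    constructor
    · rintro ⟨⟨g, hg, rfl⟩, h2⟩
      exact ⟨h2, by rwa [mul_inv_cancel_right]⟩
    · rintro ⟨h2, h1⟩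
      exact ⟨⟨_, h1, by group⟩, h2⟩
  have hsumt : f ⬝ᵥ f - qf (Aw w x) f = ∑ i, w i * (f ⬝ᵥ f - qf (Sm (x i)) f) := by
    have e1 : ∑ i, w i * (f ⬝ᵥ f - qf (Sm (x i)) f) = (∑ i, w i) * (f ⬝ᵥ f) - ∑ i, w i * qf (Sm (x i)) f := by
      rw [Finset.sum_mul, ← Finset.sum_sub_distrib]
      exact Finset.sum_congr rfl fun i _ => by ring
    rw [e1, hw.2, one_mul]
    congr 1
    unfold Aw
    rw [qf_sum]
    exact Finset.sum_congr rfl fun i _ => qf_smul _ _ _
  have hfin : ∑ i, w i * ((B.image (fun g => g * x i) \ B).card : ℝ) = f ⬝ᵥ f - qf (Aw w x) f := by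
    rw [hsumt]
    exact Finset.sum_congr rfl fun i _ => by rw [hup i]
  rw [hfin, hcardB]
  have : ε * (a / 2) ≤ ε * (f ⬝ᵥ f) := mul_le_mul_of_nonneg_left hlow hε.le
  linarith

theorem L9_coarea (H : Subgroup G) {ι : Type} [Fintype ι] (x : ι → G) {w : ι → ℝ} (hw : IsWt w) (δ : ℝ)
    (hinv : ∀ B : Finset G, (∀ h ∈ H, ∀ g ∈ B, h * g ∈ B) → 2 * B.card ≤ Fintype.card G →
      δ * (B.card : ℝ) ≤ ∑ i, w i * ((B.image (fun g => g * x i) \ B).card : ℝ))
    (A : Finset G) (hA : 2 * Nat.card {g : G // ∃ h ∈ H, h * g ∈ A} ≤ Fintype.card G) :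
    δ * (A.card : ℝ) ≤ ∑ i, w i * ((A.image (fun g => g * x i) \ A).card : ℝ) := by
  obtain ⟨S, hS⟩ : ∃ S : Finset G, S = subF H := ⟨_, rfl⟩
  have hmS : ∀ g, g ∈ S ↔ g ∈ H := fun g => by rw [hS, mem_subF]
  obtain ⟨F, hF⟩ : ∃ F : G → ℕ, F = fun g => (S.filter (fun h => h * g ∈ A)).card := ⟨_, rfl⟩
  have hF' : ∀ g, F g = (S.filter (fun h => h * g ∈ A)).card := fun g => by rw [hF]
  have hk : 0 < S.card := Finset.card_pos.mpr ⟨1, (hmS 1).2 H.one_mem⟩
  have hFk : ∀ g, F g ≤ S.card := fun g => by rw [hF']; exact Finset.card_filter_le _ _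
  have hFinv : ∀ h ∈ H, ∀ g, F (h * g) = F g := by
    intro h hh g
    rw [hF', hF']
    refine Finset.card_nbij' (fun u => u * h) (fun u => u * h⁻¹) ?_ ?_ ?_ ?_
    · intro u hu
      simp only [Finset.coe_filter, Set.mem_ofPred_eq] at hu ⊢
      exact ⟨(hmS _).2 (H.mul_mem ((hmS _).1 hu.1) hh), by rw [mul_assoc]; exact hu.2⟩
    · intro u hu
      simp only [Finset.coe_filter, Set.mem_ofPred_eq] at hu ⊢
      exact ⟨(hmS _).2 (H.mul_mem ((hmS _).1 hu.1) (H.inv_mem hh)), by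
        rw [← mul_assoc, inv_mul_cancel_right]; exact hu.2⟩
    · intro u _
      simp
    · intro u _
      simp
  obtain ⟨B, hB⟩ : ∃ B : ℕ → Finset G, B = fun t => Finset.univ.filter (fun g => t ≤ F g) :=
    ⟨_, rfl⟩
  have hmB : ∀ t g, g ∈ B t ↔ t ≤ F g := fun t g => by rw [hB]; simp
  have hcB : ∀ t, (B t).card = ∑ g : G, if t ≤ F g then 1 else 0 := fun t => by
    rw [hB, Finset.card_filter]
  have h1 : ∑ t ∈ Finset.Icc 1 S.card, (B t).card = S.card * A.card := by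
    rw [← coarea_dc S A, Finset.sum_congr rfl (fun t _ => hcB t), Finset.sum_comm]
    refine Finset.sum_congr rfl fun g _ => ?_
    rw [← Finset.card_filter, ← hF' g]
    have := coarea_lvl S.card (F g) 0 (hFk g)
    rw [Nat.sub_zero] at this
    refine Eq.trans ?_ this
    congr 1
    ext t
    simp only [Finset.mem_filter, Finset.mem_Icc]
    constructor
    · rintro ⟨h1, h2⟩
      exact ⟨h1, h2, by omega⟩
    · rintro ⟨h1, h2, _⟩
      exact ⟨h1, h2⟩
  have h2 : ∀ y : G, ∑ t ∈ Finset.Icc 1 S.card, ((B t).image (fun g => g * y) \ B t).card ≤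
      S.card * (A.image (fun g => g * y) \ A).card := by
    intro y
    have e : ∀ t, ((B t).image (fun g => g * y) \ B t).card =
        ∑ g : G, if t ≤ F (g * y⁻¹) ∧ F g < t then 1 else 0 := by
      intro t
      rw [← Finset.card_filter]
      congr 1
      ext g
      rw [Finset.mem_sdiff, coarea_mem, hmB, hmB, Finset.mem_filter]
      simp
    rw [← coarea_dc S (A.image (fun g => g * y) \ A), Finset.sum_congr rfl (fun t _ => e t),
      Finset.sum_comm]
    refine Finset.sum_le_sum fun g _ => ?_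
    rw [← Finset.card_filter, coarea_lvl S.card _ _ (hFk _), hF', hF', tsub_le_iff_right]
    refine (Finset.card_le_card ?_).trans (Finset.card_union_le
      (S.filter (fun h => h * g ∈ A.image (fun g => g * y) \ A)) (S.filter (fun h => h * g ∈ A)))
    intro h hh
    rw [Finset.mem_filter] at hh
    rw [Finset.mem_union, Finset.mem_filter, Finset.mem_filter, Finset.mem_sdiff, coarea_mem]
    by_cases hc : h * g ∈ A
    · exact Or.inr ⟨hh.1, hc⟩
    · exact Or.inl ⟨hh.1, by rw [mul_assoc]; exact hh.2, hc⟩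
  have h3 : ∀ t ∈ Finset.Icc 1 S.card, δ * ((B t).card : ℝ) ≤
      ∑ i, w i * (((B t).image (fun g => g * x i) \ B t).card : ℝ) := by
    intro t ht
    rw [Finset.mem_Icc] at ht
    refine hinv (B t) ?_ ?_
    · intro h hh g hg
      rw [hmB] at hg ⊢
      rw [hFinv h hh g]
      exact hg
    · refine le_trans ?_ hA
      refine Nat.mul_le_mul_left 2 ?_
      classical
      rw [Nat.card_eq_fintype_card, Fintype.card_subtype]
      refine Finset.card_le_card ?_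
      intro g hg
      rw [hmB, hF'] at hg
      have hpos : 0 < (S.filter (fun h => h * g ∈ A)).card := by omega
      obtain ⟨h, hh⟩ := Finset.card_pos.mp hpos
      rw [Finset.mem_filter] at hh
      rw [Finset.mem_filter]
      exact ⟨Finset.mem_univ _, h, (hmS h).1 hh.1, hh.2⟩
  have h4 : δ * (∑ t ∈ Finset.Icc 1 S.card, ((B t).card : ℝ)) ≤
      ∑ i, w i * (∑ t ∈ Finset.Icc 1 S.card,
        (((B t).image (fun g => g * x i) \ B t).card : ℝ)) := by
    have e1 : ∑ i, w i * (∑ t ∈ Finset.Icc 1 S.card,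
        (((B t).image (fun g => g * x i) \ B t).card : ℝ)) =
        ∑ t ∈ Finset.Icc 1 S.card, ∑ i, w i * (((B t).image (fun g => g * x i) \ B t).card : ℝ) := by
      rw [Finset.sum_comm]
      exact Finset.sum_congr rfl fun i _ => Finset.mul_sum _ _ _
    rw [e1, Finset.mul_sum]
    exact Finset.sum_le_sum h3
  have h5 : ∑ i, w i * (∑ t ∈ Finset.Icc 1 S.card,
        (((B t).image (fun g => g * x i) \ B t).card : ℝ)) ≤
      ∑ i, w i * ((S.card : ℝ) * ((A.image (fun g => g * x i) \ A).card : ℝ)) := by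
    refine Finset.sum_le_sum fun i _ => mul_le_mul_of_nonneg_left ?_ (hw.1 i)
    have := h2 (x i)
    exact_mod_cast this
  have h5' : ∑ i, w i * ((S.card : ℝ) * ((A.image (fun g => g * x i) \ A).card : ℝ)) =
      (S.card : ℝ) * ∑ i, w i * ((A.image (fun g => g * x i) \ A).card : ℝ) := by
    rw [Finset.mul_sum]
    exact Finset.sum_congr rfl fun i _ => by ring
  rw [h5'] at h5
  have h6 : (∑ t ∈ Finset.Icc 1 S.card, ((B t).card : ℝ)) = (S.card : ℝ) * (A.card : ℝ) := by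
    exact_mod_cast h1
  rw [h6] at h4
  have hk' : (0 : ℝ) < (S.card : ℝ) := by exact_mod_cast hk
  have h7 : (S.card : ℝ) * (δ * (A.card : ℝ)) ≤
      (S.card : ℝ) * ∑ i, w i * ((A.image (fun g => g * x i) \ A).card : ℝ) := by
    calc (S.card : ℝ) * (δ * (A.card : ℝ)) = δ * ((S.card : ℝ) * (A.card : ℝ)) := by ring
      _ ≤ _ := h4.trans h5
  exact le_of_mul_le_mul_left h7 hk'

end gen

theorem L9 {m K : ℕ} (x : Fin m → Alt n) {w : Fin m → ℝ} (hw : IsWt w) (ε X : ℝ) (hε : 0 < ε) (hε1 : ε ≤ 1)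
    (hn : 3 ≤ n) (hK1 : 1 ≤ K) (hK : K + 2 ≤ n) (h : PGap w x ε K)
    (hlev : ∀ H : Subgroup (Alt n), (H.index : ℝ) ≤ X → ∀ E : Matrix (Alt n) (Alt n) ℝ, IsBlock E →
      avL (subF H) * E ≠ 0 → LevLe K E) :
    x ∈ SatExpd (Alt n) m X (ε / 2) := by
  classical
  have hgap := L9_gapOn x hw ε hε1 hn hK h
  intro H hH A hA
  have hinv : ∀ B : Finset (Alt n), (∀ h ∈ H, ∀ g ∈ B, h * g ∈ B) → 2 * B.card ≤ Fintype.card (Alt n) →
      ε / 2 * (B.card : ℝ) ≤ ∑ i, w i * ((B.image (fun g => g * x i) \ B).card : ℝ) := by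
    intro B hB hcard
    refine L9_inv_expand x hw hε H ?_ B hB hcard
    intro E hE hEJ hav f hf
    exact hgap E hE hEJ (hlev H hH E hE hav) f hf
  have hmem : ∀ g : Alt n, g ∈ A.toFinset ↔ g ∈ A := fun g => Set.mem_toFinset
  have hco := L9_coarea H x hw (ε / 2) hinv A.toFinset (by
    rw [Nat.card_eq_fintype_card (α := Alt n)] at hA
    have hAA : Nat.card {g : Alt n // ∃ h ∈ H, h * g ∈ A.toFinset} = Nat.card {g : Alt n // ∃ h ∈ H, h * g ∈ A} := by
      refine Nat.card_congr (Equiv.subtypeEquivRight fun g => ?_)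
      simp only [hmem]
    rw [hAA]
    exact hA)
  have hcA : (Nat.card A : ℝ) = (A.toFinset.card : ℝ) := by
    rw [Nat.card_eq_fintype_card, Set.toFinset_card]
  rw [hcA]
  refine hco.trans ?_
  have hT : (Nat.card {g : Alt n // g ∉ A ∧ ∃ a ∈ A, ∃ i : Fin m, g = a * x i ∨ g = a * (x i)⁻¹}) =
      (Finset.univ.filter (fun g : Alt n => g ∉ A ∧ ∃ a ∈ A, ∃ i : Fin m, g = a * x i ∨ g = a * (x i)⁻¹)).card := by
    rw [Nat.card_eq_fintype_card, Fintype.card_subtype]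
  rw [hT]
  obtain ⟨T, hTdef⟩ : ∃ T : Finset (Alt n), T = (Finset.univ.filter (fun g : Alt n => g ∉ A ∧ ∃ a ∈ A, ∃ i : Fin m,
    g = a * x i ∨ g = a * (x i)⁻¹)) := ⟨_, rfl⟩
  rw [← hTdef]
  calc ∑ i, w i * ((A.toFinset.image (fun g => g * x i) \ A.toFinset).card : ℝ) ≤ ∑ i, w i * (T.card : ℝ) := by
        refine Finset.sum_le_sum fun i _ => mul_le_mul_of_nonneg_left ?_ (hw.1 i)
        refine Nat.cast_le.2 (Finset.card_le_card fun g hg => ?_)
        rw [Finset.mem_sdiff, Finset.mem_image] at hg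
        obtain ⟨⟨a, ha, rfl⟩, hg2⟩ := hg
        rw [hTdef, Finset.mem_filter]
        exact ⟨Finset.mem_univ _, fun h => hg2 ((hmem _).2 h), a, (hmem a).1 ha, i, Or.inl rfl⟩
    _ = (T.card : ℝ) := by rw [← Finset.sum_mul, hw.2, one_mul]

end Pool.Agent.BC5
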