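import Pool.Agent.Lib.MP_bc5a73_al.Lift.OneFresh
import Pool.Agent.Lib.MP_bc5a73_al.Lift.L1a
import Pool.Agent.Lib.MP_bc5a73_al.Lift.L1b
import Pool.Agent.Lib.MP_bc5a73_al.Lift.L9
import Pool.Agent.Lib.MP_bc5a73_al.Lift.I1
import Pool.Agent.Lib.MP_bc5a73_al.Lift.F1

/-! # The lifting theorem, assembled (MP_bc5a73_al) -/

set_option autoImplicit false
open scoped BigOperators Matrix
open Matrix
namespace Pool.Agent.BC5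

theorem base_gap : ∃ n0 : ℕ, ∀ n : ℕ, n0 ≤ n →
    frac (fun x : Fin 2 → Alt n => ¬ PGap (wts 0) x (1 / 80000) 1) ≤ (n : ℝ) ^ (-(1 / 2) : ℝ) := by
  obtain ⟨n0, h⟩ := L1a
  refine ⟨n0, fun n hn => (frac_mono fun x hx h2 => hx ?_).trans (h n hn)⟩
  exact L1b x h2

theorem lift_main (m : ℕ) (hm : 3 ≤ m) (a : ℝ) (ha : a < 1 - (1 / 2) ^ (m - 2)) :
    ∃ ε : ℝ, 0 < ε ∧ ∃ n0 : ℕ, ∀ n : ℕ, n0 ≤ n →
      (1 - (n : ℝ) ^ (-(1 / 4) : ℝ)) * (Nat.card (Alt n) : ℝ) ^ m ≤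
        (Nat.card (SatExpd (Alt n) m (Real.exp ((n : ℝ) ^ a)) ε) : ℝ) := by
  refine F1 (fun i b hb => I1 base_gap (fun c ε h1 h2 h3 h4 => OF c ε h1 h2 h3 h4) i b hb) ?_ m hm a ha
  intro n m K x w hw ε X h1 h2 h3 h4 h5 h6 h7
  exact L9 x hw ε X h1 h2 h3 h4 h5 h6 h7

end Pool.Agent.BC5
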