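import Pool.Agent.Lib.MP_bc5a73_al.Lift.Defs

/-! Paper section 0.1. Induction on k: lambda = top eigenvalue of A = Ap w x on the sum-zero functions of Tp n k, eigenvector f != 0.
If f is pure, lambda <= 1-ε. Otherwise some coordinate sum is nonzero; it has sum zero and the same eigenvalue. -/

set_option autoImplicit false
open scoped BigOperators Matrix
open Matrix
namespace Pool.Agent.BC5

variable {n : ℕ}

section lf
variable {G X : Type} [Group G] [MulAction G X] [DecidableEq X] [Fintype X]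

theorem L2_lf_Pm (g : G) (f : X → ℝ) (a : X) : ((Pm g : Matrix X X ℝ) *ᵥ f) a = f (g⁻¹ • a) := by
  simp only [Pm, Matrix.mulVec, dotProduct, Matrix.of_apply, ite_mul, one_mul, zero_mul]
  rw [Finset.sum_eq_single (g⁻¹ • a)]
  · simp
  · intro b _ hb
    rw [if_neg]
    rintro rfl
    exact hb (by simp)
  · simp

theorem L2_lf_Pm_transpose (g : G) : (Pm g : Matrix X X ℝ)ᵀ = Pm g⁻¹ := by
  ext a b
  simp only [Pm, Matrix.transpose_apply, Matrix.of_apply]
  have h : (b = g • a) ↔ (a = g⁻¹ • b) := by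
    rw [eq_inv_smul_iff, eq_comm]
  simp only [h]

theorem L2_lf_Ap {ι : Type} [Fintype ι] (w : ι → ℝ) (x : ι → G) (f : X → ℝ) (a : X) :
    ((Ap w x : Matrix X X ℝ) *ᵥ f) a = ∑ i, w i * (1 / 2 * (f ((x i)⁻¹ • a) + f (x i • a))) := by
  unfold Ap Sp
  rw [Matrix.sum_mulVec, Finset.sum_apply]
  refine Finset.sum_congr rfl fun i _ => ?_
  rw [Matrix.smul_mulVec, Matrix.smul_mulVec, Matrix.add_mulVec]
  simp only [Pi.smul_apply, Pi.add_apply, smul_eq_mul, L2_lf_Pm, inv_inv]

theorem L2_lf_Ap_transpose {ι : Type} [Fintype ι] (w : ι → ℝ) (x : ι → G) :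
    (Ap w x : Matrix X X ℝ)ᵀ = Ap w x := by
  unfold Ap Sp
  rw [Matrix.transpose_sum]
  refine Finset.sum_congr rfl fun i _ => ?_
  rw [Matrix.transpose_smul, Matrix.transpose_smul, Matrix.transpose_add, L2_lf_Pm_transpose,
    L2_lf_Pm_transpose, inv_inv, add_comm]

theorem L2_lf_sum {ι : Type} [Fintype ι] {w : ι → ℝ} (hw : IsWt w) (x : ι → G) (f : X → ℝ) :
    ∑ a, ((Ap w x : Matrix X X ℝ) *ᵥ f) a = ∑ a, f a := by
  simp only [L2_lf_Ap]
  rw [Finset.sum_comm]
  have h : ∀ i, ∑ a : X, w i * (1 / 2 * (f ((x i)⁻¹ • a) + f (x i • a))) = w i * ∑ a, f a := by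
    intro i
    rw [← Finset.mul_sum, ← Finset.mul_sum, Finset.sum_add_distrib]
    have h1 : ∑ a : X, f ((x i)⁻¹ • a) = ∑ a, f a := Equiv.sum_comp (MulAction.toPerm (x i)⁻¹) f
    have h2 : ∑ a : X, f (x i • a) = ∑ a, f a := Equiv.sum_comp (MulAction.toPerm (x i)) f
    rw [h1, h2]
    ring
  simp only [h]
  rw [← Finset.sum_mul, hw.2, one_mul]

theorem L2_lf_const {ι : Type} [Fintype ι] {w : ι → ℝ} (hw : IsWt w) (x : ι → G) (c : ℝ) :
    (Ap w x : Matrix X X ℝ) *ᵥ (fun _ => c) = fun _ => c := by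
  funext a
  rw [L2_lf_Ap]
  have h : ∀ i : ι, w i * (1 / 2 * (c + c)) = w i * c := by
    intro i
    ring
  simp only [h]
  rw [← Finset.sum_mul, hw.2, one_mul]

/-- Eigenvalue bound on sum-zero functions implies the bound on the quadratic form. -/
theorem L2_lf_spec {ι : Type} [Fintype ι] {w : ι → ℝ} (hw : IsWt w) (x : ι → G) (s : ℝ)
    (h : ∀ (f : X → ℝ) (lam : ℝ), ∑ a, f a = 0 → f ≠ 0 → (Ap w x : Matrix X X ℝ) *ᵥ f = lam • f → lam ≤ s)
    (f : X → ℝ) (hf : ∑ a, f a = 0) : qf (Ap w x : Matrix X X ℝ) f ≤ s * (f ⬝ᵥ f) := by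
  obtain ⟨U, d, hU, hU', hA⟩ := L2_spec (Ap w x : Matrix X X ℝ) (L2_lf_Ap_transpose w x)
  have hcol : ∀ i : X, (Ap w x : Matrix X X ℝ) *ᵥ (fun a => U a i) = d i • (fun a => U a i) := by
    intro i
    have h1 : (Ap w x : Matrix X X ℝ) * U = U * diagonal d := by
      calc (Ap w x : Matrix X X ℝ) * U = U * diagonal d * Uᵀ * U := by rw [← hA]
        _ = U * diagonal d * (Uᵀ * U) := by rw [mul_assoc]
        _ = U * diagonal d := by rw [hU', mul_one]
    funext a
    have h2 := congrFun (congrFun h1 a) i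
    rw [Matrix.mul_diagonal] at h2
    simp only [Pi.smul_apply, smul_eq_mul]
    rw [mul_comm (d i)]
    exact h2
  have hqf : qf (Ap w x : Matrix X X ℝ) f = ∑ i, d i * (Uᵀ *ᵥ f) i ^ 2 := by
    conv_lhs => rw [hA]
    exact L2_qf U d f
  rw [hqf, L2_dot hU f, Finset.mul_sum]
  refine Finset.sum_le_sum fun i _ => ?_
  by_cases h0 : (Uᵀ *ᵥ f) i = 0
  · rw [h0]
    simp
  refine mul_le_mul_of_nonneg_right ?_ (sq_nonneg _)
  set u : X → ℝ := fun a => U a i with hu
  have hinner : (Uᵀ *ᵥ f) i = ∑ a, u a * f a := by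
    simp only [Matrix.mulVec, dotProduct, Matrix.transpose_apply, hu]
  have hcard : (Fintype.card X : ℝ) ≠ 0 := by
    have : 0 < Fintype.card X := Fintype.card_pos_iff.2 ⟨i⟩
    exact_mod_cast this.ne'
  set c : ℝ := (∑ a, u a) / (Fintype.card X : ℝ) with hc
  have hsu : d i * ∑ a, u a = ∑ a, u a := by
    have h1 := L2_lf_sum hw x u
    rw [hcol i] at h1
    simpa [← Finset.mul_sum] using h1
  have hdc : d i * c = c := by
    rw [hc, mul_div_assoc', hsu]
  refine h (fun a => u a - c) (d i) ?_ ?_ ?_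
  · rw [Finset.sum_sub_distrib, Finset.sum_const, Finset.card_univ, nsmul_eq_mul, hc]
    field_simp
    ring
  · intro h1
    apply h0
    rw [hinner]
    have h2 : ∀ a, u a = c := fun a => by
      have := congrFun h1 a
      simp only [Pi.zero_apply] at this
      linarith
    simp only [h2]
    rw [← Finset.mul_sum, hf, mul_zero]
  · have h1 : (fun a => u a - c) = u - (fun _ => c) := rfl
    rw [h1, Matrix.mulVec_sub, hcol i, L2_lf_const hw x c, smul_sub]
    congr 1
    funext a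
    simp only [Pi.smul_apply, smul_eq_mul]
    exact hdc.symm

end lf

/-- Omit the coordinate `j`. -/
def L2_lf_res {k : ℕ} (j : Fin (k + 1)) (b : Tp n (k + 1)) : Tp n k := j.succAboveEmb.trans b

theorem L2_lf_res_smul {k : ℕ} (j : Fin (k + 1)) (g : Alt n) (b : Tp n (k + 1)) :
    L2_lf_res j (MulAction.toPerm g b) = MulAction.toPerm g (L2_lf_res j b) := by
  ext i
  rfl

theorem L2_lf_res_eq {k : ℕ} (j : Fin (k + 1)) (b a : Tp n (k + 1)) :
    L2_lf_res j b = L2_lf_res j a ↔ ∀ i, i ≠ j → b i = a i := by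
  constructor
  · intro h i hi
    obtain ⟨i', rfl⟩ := Fin.exists_succAbove_eq hi
    exact DFunLike.congr_fun h i'
  · intro h
    ext i
    have := h (j.succAbove i) (Fin.succAbove_ne j i)
    exact congrArg Fin.val this

/-- Sum over the coordinate `j`. -/
noncomputable def L2_lf_R {k : ℕ} (j : Fin (k + 1)) (f : Tp n (k + 1) → ℝ) (c : Tp n k) : ℝ :=
  ∑ b, if L2_lf_res j b = c then f b else 0

theorem L2_lf_R_smul {k : ℕ} (j : Fin (k + 1)) (g : Alt n) (f : Tp n (k + 1) → ℝ) (c : Tp n k) :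
    L2_lf_R j f (MulAction.toPerm g c) = L2_lf_R j (fun b => f (MulAction.toPerm g b)) c := by
  unfold L2_lf_R
  rw [← Equiv.sum_comp (MulAction.toPerm g)]
  refine Finset.sum_congr rfl fun b _ => ?_
  simp only [L2_lf_res_smul, EmbeddingLike.apply_eq_iff_eq]

theorem L2_lf_R_sum {k : ℕ} (j : Fin (k + 1)) (f : Tp n (k + 1) → ℝ) : ∑ c, L2_lf_R j f c = ∑ b, f b := by
  unfold L2_lf_R
  rw [Finset.sum_comm]
  refine Finset.sum_congr rfl fun b _ => ?_
  rw [Finset.sum_ite_eq]
  simp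

theorem L2_lf_R_Ap {ι : Type} [Fintype ι] (w : ι → ℝ) (x : ι → Alt n) {k : ℕ} (j : Fin (k + 1))
    (f : Tp n (k + 1) → ℝ) :
    (Ap w x : Matrix (Tp n k) (Tp n k) ℝ) *ᵥ (L2_lf_R j f) =
      L2_lf_R j ((Ap w x : Matrix (Tp n (k + 1)) (Tp n (k + 1)) ℝ) *ᵥ f) := by
  funext c
  rw [L2_lf_Ap]
  simp only [← MulAction.toPerm_apply]
  simp only [L2_lf_R_smul]
  unfold L2_lf_R
  have h : ∀ b : Tp n (k + 1), (if L2_lf_res j b = c then
      ((Ap w x : Matrix (Tp n (k + 1)) (Tp n (k + 1)) ℝ) *ᵥ f) b else 0) =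
      ∑ i, w i * (1 / 2 * ((if L2_lf_res j b = c then f (MulAction.toPerm (x i)⁻¹ b) else 0) +
        (if L2_lf_res j b = c then f (MulAction.toPerm (x i) b) else 0))) := by
    intro b
    by_cases hb : L2_lf_res j b = c
    · simp only [if_pos hb]
      exact L2_lf_Ap w x f b
    · simp only [if_neg hb]
      simp
  simp only [h]
  rw [Finset.sum_comm]
  refine Finset.sum_congr rfl fun i _ => ?_
  rw [← Finset.mul_sum, ← Finset.mul_sum, Finset.sum_add_distrib]

/-- The eigenvalues on the functions of sum zero. -/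
theorem L2_lf_eig {ι : Type} [Fintype ι] {w : ι → ℝ} (hw : IsWt w) (x : ι → Alt n) (ε : ℝ) (k : ℕ)
    (h : PGap w x ε k) (f : Tp n k → ℝ) (lam : ℝ) (hf : ∑ a, f a = 0) (hf0 : f ≠ 0)
    (hA : (Ap w x : Matrix (Tp n k) (Tp n k) ℝ) *ᵥ f = lam • f) : lam ≤ 1 - ε := by
  induction k with
  | zero =>
    exfalso
    apply hf0
    funext a
    have : ∑ b, f b = f a := by
      rw [Fintype.sum_eq_single a]
      intro b hb
      exact absurd (Subsingleton.elim b a) hb
    rw [Pi.zero_apply, ← this, hf]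
  | succ k ih =>
    by_cases hp : IsPure f
    · have h1 := h (k + 1) (by omega) (le_refl _) f hp
      unfold qf at h1
      rw [hA, dotProduct_smul, smul_eq_mul] at h1
      have h2 : 0 < f ⬝ᵥ f := by
        have h3 : 0 ≤ f ⬝ᵥ f := Finset.sum_nonneg fun i _ => mul_self_nonneg _
        rcases h3.lt_or_eq with h4 | h4
        · exact h4
        · exact absurd (dotProduct_self_eq_zero.1 h4.symm) hf0
      exact le_of_mul_le_mul_right h1 h2
    · unfold IsPure at hp
      push Not at hp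
      obtain ⟨j, a, hja⟩ := hp
      refine ih (fun i h1 h2 => h i h1 (by omega)) (L2_lf_R j f) ?_ ?_ ?_
      · rw [L2_lf_R_sum, hf]
      · intro h0
        apply hja
        have h1 := congrFun h0 (L2_lf_res j a)
        rw [Pi.zero_apply] at h1
        rw [← h1, Finset.sum_filter]
        unfold L2_lf_R
        refine Finset.sum_congr rfl fun b _ => ?_
        simp only [L2_lf_res_eq]
      · rw [L2_lf_R_Ap, hA]
        funext c
        simp only [L2_lf_R, Pi.smul_apply, smul_eq_mul, Finset.mul_sum]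
        refine Finset.sum_congr rfl fun b _ => ?_
        split_ifs
        · rfl
        · simp

/-- L2. A gap on the pure functions of the levels `1, …, k` is a gap on all functions of sum zero. -/
theorem L2 {ι : Type} [Fintype ι] {w : ι → ℝ} (hw : IsWt w) (x : ι → Alt n) (ε : ℝ) (hε : ε ≤ 1) (k : ℕ) (hk : k ≤ n)
    (h : PGap w x ε k) (f : Tp n k → ℝ) (hf : ∑ a, f a = 0) : qf (Ap w x) f ≤ (1 - ε) * (f ⬝ᵥ f) :=
  L2_lf_spec hw x (1 - ε) (fun g lam hg hg0 hA => L2_lf_eig hw x ε k h g lam hg hg0 hA) f hf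

end Pool.Agent.BC5
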