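import Pool.Agent.Lib.MP_bc5a73_al.Lift.Defs

/-! Paper section 1.1. -/

set_option autoImplicit false
open scoped BigOperators Matrix
open Matrix
namespace Pool.Agent.BC5

variable {n : ℕ}

/-- The factor of the coordinate `j`. -/
def L3_fac {K : ℕ} (S : Finset (Fin K)) (p q : Fin K → Fin n) (j : Fin K) (x : Fin n) : ℝ :=
  if j ∈ S then ((if x = p j then (1 : ℝ) else 0) - (if x = q j then 1 else 0)) else (if x = p j then 1 else 0)

/-- The mixed difference. -/
noncomputable def L3_F {K : ℕ} (f : Tp n K → ℝ) (S : Finset (Fin K)) (p q : Fin K → Fin n) : ℝ :=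
  ∑ a : Tp n K, f a * ∏ j, L3_fac S p q j (a j)

def L3_good {K : ℕ} (S : Finset (Fin K)) (p q : Fin K → Fin n) : Prop :=
  Function.Injective p ∧ (∀ i ∈ S, ∀ j ∈ S, q i = q j → i = j) ∧ ∀ i, ∀ j ∈ S, p i ≠ q j

theorem L3_congr {K : ℕ} (f : Tp n K → ℝ) (S : Finset (Fin K)) (p q q' : Fin K → Fin n) (h : ∀ i ∈ S, q i = q' i) :
    L3_F f S p q = L3_F f S p q' := by
  unfold L3_F
  refine Finset.sum_congr rfl fun a _ => ?_
  congr 1
  refine Finset.prod_congr rfl fun j _ => ?_
  unfold L3_fac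
  by_cases hj : j ∈ S
  · rw [if_pos hj, if_pos hj, h j hj]
  · rw [if_neg hj, if_neg hj]

theorem L3_ins {K : ℕ} (f : Tp n K → ℝ) (S : Finset (Fin K)) (p q : Fin K → Fin n) (j : Fin K) (hj : j ∉ S) :
    L3_F f (insert j S) p q = L3_F f S p q - L3_F f S (Function.update p j (q j)) q := by
  unfold L3_F
  rw [← Finset.sum_sub_distrib]
  refine Finset.sum_congr rfl fun a _ => ?_
  rw [← mul_sub]
  congr 1
  rw [← Finset.mul_prod_erase Finset.univ (fun i => L3_fac (insert j S) p q i (a i)) (Finset.mem_univ j),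
    ← Finset.mul_prod_erase Finset.univ (fun i => L3_fac S p q i (a i)) (Finset.mem_univ j),
    ← Finset.mul_prod_erase Finset.univ (fun i => L3_fac S (Function.update p j (q j)) q i (a i)) (Finset.mem_univ j)]
  have e1 : ∏ i ∈ Finset.univ.erase j, L3_fac (insert j S) p q i (a i) = ∏ i ∈ Finset.univ.erase j, L3_fac S p q i (a i) := by
    refine Finset.prod_congr rfl fun i hi => ?_
    have hij := Finset.ne_of_mem_erase hi
    unfold L3_fac
    simp only [Finset.mem_insert, hij, false_or]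
  have e2 : ∏ i ∈ Finset.univ.erase j, L3_fac S (Function.update p j (q j)) q i (a i) =
      ∏ i ∈ Finset.univ.erase j, L3_fac S p q i (a i) := by
    refine Finset.prod_congr rfl fun i hi => ?_
    have hij := Finset.ne_of_mem_erase hi
    unfold L3_fac
    rw [Function.update_of_ne hij]
  rw [e1, e2, ← sub_mul]
  congr 1
  unfold L3_fac
  rw [if_pos (Finset.mem_insert_self j S), if_neg hj, if_neg hj, Function.update_self]

theorem L3_pure {K : ℕ} (f : Tp n K → ℝ) (hf : IsPure f) (S : Finset (Fin K)) (p q : Fin K → Fin n) (j : Fin K)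
    (hj : j ∉ S) : ∑ x, L3_F f S (Function.update p j x) q = 0 := by
  classical
  unfold L3_F
  rw [Finset.sum_comm]
  obtain ⟨P, hP⟩ : ∃ P : Tp n K → ℝ, ∀ a, P a = ∏ i ∈ Finset.univ.erase j, L3_fac S p q i (a i) := ⟨_, fun _ => rfl⟩
  have e1 : ∀ a : Tp n K, ∑ x, f a * ∏ i, L3_fac S (Function.update p j x) q i (a i) = f a * P a := by
    intro a
    rw [← Finset.mul_sum]
    congr 1
    have e2 : ∀ x, ∏ i, L3_fac S (Function.update p j x) q i (a i) = (if a j = x then 1 else 0) * P a := by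
      intro x
      rw [← Finset.mul_prod_erase Finset.univ (fun i => L3_fac S (Function.update p j x) q i (a i)) (Finset.mem_univ j), hP]
      congr 1
      · unfold L3_fac
        rw [if_neg hj, Function.update_self]
      · refine Finset.prod_congr rfl fun i hi => ?_
        have hij := Finset.ne_of_mem_erase hi
        unfold L3_fac
        rw [Function.update_of_ne hij]
    rw [Finset.sum_congr rfl (fun x _ => e2 x), ← Finset.sum_mul, Finset.sum_ite_eq]
    simp
  rw [Finset.sum_congr rfl (fun a _ => e1 a)]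
  obtain ⟨r, hr⟩ : ∃ r : Tp n K → ({i : Fin K // i ≠ j} → Fin n), ∀ a i, r a i = a i := ⟨fun a i => a i, fun _ _ => rfl⟩
  rw [← Finset.sum_fiberwise Finset.univ r (fun a => f a * P a)]
  refine Finset.sum_eq_zero fun t _ => ?_
  by_cases ht : ∃ a0, r a0 = t
  · obtain ⟨a0, ha0⟩ := ht
    have h1 : ∀ b : Tp n K, r b = t ↔ ∀ i, i ≠ j → b i = a0 i := by
      intro b
      rw [← ha0]
      constructor
      · intro h i hi
        have := congrFun h ⟨i, hi⟩
        rw [hr, hr] at this
        exact this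
      · intro h
        funext i
        rw [hr, hr]
        exact h i.1 i.2
    have h2 : ∀ b ∈ Finset.univ.filter (fun a => r a = t), f b * P b = f b * P a0 := by
      intro b hb
      rw [Finset.mem_filter, h1] at hb
      congr 1
      rw [hP, hP]
      refine Finset.prod_congr rfl fun i hi => ?_
      rw [hb.2 i (Finset.ne_of_mem_erase hi)]
    rw [Finset.sum_congr rfl h2, ← Finset.sum_mul]
    have h3 : Finset.univ.filter (fun a => r a = t) = Finset.univ.filter (fun b : Tp n K => ∀ i, i ≠ j → b i = a0 i) := by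
      ext b
      rw [Finset.mem_filter, Finset.mem_filter, h1]
    rw [h3, hf j a0, zero_mul]
  · have h1 : Finset.univ.filter (fun a => r a = t) = ∅ := by
      rw [Finset.filter_eq_empty_iff]
      intro a _ ha
      exact ht ⟨a, ha⟩
    rw [h1, Finset.sum_empty]

/-- Two coordinates. -/
theorem L3_two {K : ℕ} (f : Tp n K → ℝ) (S S' : Finset (Fin K)) (p q p' q' : Fin K → Fin n) (i j : Fin K) (hij : i ≠ j)
    (σ : ℝ) (h : ∀ k, k ≠ i → k ≠ j → ∀ x, L3_fac S p q k x = L3_fac S' p' q' k x)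
    (h2 : ∀ x y, x ≠ y → L3_fac S p q i x * L3_fac S p q j y = σ * (L3_fac S' p' q' i x * L3_fac S' p' q' j y)) :
    L3_F f S p q = σ * L3_F f S' p' q' := by
  unfold L3_F
  rw [Finset.mul_sum]
  refine Finset.sum_congr rfl fun a _ => ?_
  have e : ∀ (g : Fin K → ℝ), ∏ k, g k = g i * (g j * ∏ k ∈ (Finset.univ.erase i).erase j, g k) := by
    intro g
    rw [← Finset.mul_prod_erase Finset.univ g (Finset.mem_univ i),
      ← Finset.mul_prod_erase (Finset.univ.erase i) g (Finset.mem_erase.2 ⟨hij.symm, Finset.mem_univ j⟩)]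
  rw [e (fun k => L3_fac S p q k (a k)), e (fun k => L3_fac S' p' q' k (a k))]
  have e1 : ∏ k ∈ (Finset.univ.erase i).erase j, L3_fac S p q k (a k) =
      ∏ k ∈ (Finset.univ.erase i).erase j, L3_fac S' p' q' k (a k) := by
    refine Finset.prod_congr rfl fun k hk => ?_
    rw [Finset.mem_erase, Finset.mem_erase] at hk
    exact h k hk.2.1 hk.1 _
  rw [e1, ← mul_assoc (L3_fac S p q i (a i)), h2 (a i) (a j) (fun h => hij (a.injective h))]
  ring

theorem L3_a {K : ℕ} (f : Tp n K → ℝ) (S : Finset (Fin K)) (p q : Fin K → Fin n) (i j : Fin K) (hij : i ≠ j)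
    (hj : j ∉ S) (hi : i ∉ S) : L3_F f S (Function.update p j (p i)) q = 0 := by
  rw [L3_two f S S (Function.update p j (p i)) q p q i j hij 0 (fun k _ hk x => by
    unfold L3_fac
    rw [Function.update_of_ne hk]) (fun x y hxy => by
    unfold L3_fac
    rw [if_neg hi, if_neg hj, Function.update_self, Function.update_of_ne hij, zero_mul]
    by_cases h1 : x = p i
    · rw [if_pos h1, if_neg (fun h : y = p i => hxy (h1.trans h.symm)), mul_zero]
    · rw [if_neg h1, zero_mul]), zero_mul]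

theorem L3_b {K : ℕ} (f : Tp n K → ℝ) (S : Finset (Fin K)) (p q : Fin K → Fin n) (i j : Fin K) (hij : i ≠ j)
    (hj : j ∉ S) (hi : i ∈ S) : L3_F f S (Function.update p j (p i)) q =
      (-1) * L3_F f (S.erase i) (Function.update (Function.update p i (q i)) j (p i)) q := by
  refine L3_two f S (S.erase i) _ _ _ _ i j hij (-1) (fun k hki hkj x => ?_) (fun x y hxy => ?_)
  · unfold L3_fac
    rw [Function.update_of_ne hkj, Function.update_of_ne hkj, Function.update_of_ne hki]
    simp only [Finset.mem_erase, hki, ne_eq, not_false_eq_true, true_and]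
  · unfold L3_fac
    rw [if_pos hi, if_neg hj, Function.update_self, Function.update_of_ne hij, if_neg (Finset.notMem_erase i S),
      if_neg (fun h => hj (Finset.mem_of_mem_erase h)), Function.update_self, Function.update_of_ne hij,
      Function.update_self]
    by_cases h1 : y = p i
    · rw [if_pos h1, if_neg (fun h => hxy (h.trans h1.symm))]
      ring
    · rw [if_neg h1]
      ring

theorem L3_c {K : ℕ} (f : Tp n K → ℝ) (S : Finset (Fin K)) (p q : Fin K → Fin n) (i j : Fin K) (hij : i ≠ j)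
    (hj : j ∉ S) (hi : i ∈ S) : L3_F f S (Function.update p j (q i)) q =
      1 * L3_F f (S.erase i) (Function.update p j (q i)) q := by
  refine L3_two f S (S.erase i) _ _ _ _ i j hij 1 (fun k hki hkj x => ?_) (fun x y hxy => ?_)
  · unfold L3_fac
    simp only [Finset.mem_erase, hki, ne_eq, not_false_eq_true, true_and]
  · unfold L3_fac
    rw [if_pos hi, if_neg hj, Function.update_self, Function.update_of_ne hij, if_neg (Finset.notMem_erase i S),
      if_neg (fun h => hj (Finset.mem_of_mem_erase h))]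
    by_cases h1 : y = q i
    · rw [if_pos h1, if_neg (fun h : x = q i => hxy (h.trans h1.symm))]
      ring
    · rw [if_neg h1]
      ring

theorem L3_good_b {K : ℕ} (S : Finset (Fin K)) (p q : Fin K → Fin n) (i j : Fin K) (hij : i ≠ j)
    (hj : j ∉ S) (hi : i ∈ S) (h : L3_good S p q) :
    L3_good (S.erase i) (Function.update (Function.update p i (q i)) j (p i)) q := by
  obtain ⟨h1, h2, h3⟩ := h
  have hval : ∀ k, Function.update (Function.update p i (q i)) j (p i) k =
      if k = j then p i else if k = i then q i else p k := by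
    intro k
    by_cases hkj : k = j
    · subst hkj
      rw [Function.update_self, if_pos rfl]
    · rw [Function.update_of_ne hkj, if_neg hkj]
      by_cases hki : k = i
      · subst hki
        rw [Function.update_self, if_pos rfl]
      · rw [Function.update_of_ne hki, if_neg hki]
  refine ⟨?_, fun a ha b hb hab => h2 a (Finset.mem_of_mem_erase ha) b (Finset.mem_of_mem_erase hb) hab, ?_⟩
  · intro a b hab
    rw [hval, hval] at hab
    split_ifs at hab with c1 c2 c3 c4 c5 c6 c7 c8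
    · rw [c1, c2]
    · exact absurd hab (h3 i i hi)
    · exact absurd (h1 hab).symm c3
    · exact absurd hab.symm (h3 i i hi)
    · rw [c4, c6]
    · exact absurd hab.symm (h3 b i hi)
    · exact absurd (h1 hab) c4
    · exact absurd hab (h3 a i hi)
    · exact h1 hab
  · intro a b hb
    rw [Finset.mem_erase] at hb
    rw [hval]
    split_ifs
    · exact h3 i b hb.2
    · intro hqq
      exact hb.1 (h2 i hi b hb.2 hqq).symm
    · exact h3 a b hb.2

theorem L3_good_c {K : ℕ} (S : Finset (Fin K)) (p q : Fin K → Fin n) (i j : Fin K)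
    (hi : i ∈ S) (h : L3_good S p q) :
    L3_good (S.erase i) (Function.update p j (q i)) q := by
  obtain ⟨h1, h2, h3⟩ := h
  have hval : ∀ k, Function.update p j (q i) k = if k = j then q i else p k := by
    intro k
    by_cases hkj : k = j
    · subst hkj
      rw [Function.update_self, if_pos rfl]
    · rw [Function.update_of_ne hkj, if_neg hkj]
  refine ⟨?_, fun a ha b hb hab => h2 a (Finset.mem_of_mem_erase ha) b (Finset.mem_of_mem_erase hb) hab, ?_⟩
  · intro a b hab
    rw [hval, hval] at hab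
    split_ifs at hab with c1 c2 c3
    · rw [c1, c2]
    · exact absurd hab.symm (h3 b i hi)
    · exact absurd hab (h3 a i hi)
    · exact h1 hab
  · intro a b hb
    rw [Finset.mem_erase] at hb
    rw [hval]
    split_ifs
    · intro hqq
      exact hb.1 (h2 i hi b hb.2 hqq).symm
    · exact h3 a b hb.2

theorem L3_good_ins {K : ℕ} (S : Finset (Fin K)) (p q : Fin K → Fin n) (j : Fin K) (hj : j ∉ S) (x : Fin n)
    (hxp : ∀ i, p i ≠ x) (hxq : ∀ i ∈ S, q i ≠ x) (h : L3_good S p q) :
    L3_good (insert j S) p (Function.update q j x) := by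
  obtain ⟨h1, h2, h3⟩ := h
  have hval : ∀ k, Function.update q j x k = if k = j then x else q k := by
    intro k
    by_cases hkj : k = j
    · subst hkj
      rw [Function.update_self, if_pos rfl]
    · rw [Function.update_of_ne hkj, if_neg hkj]
  have hS : ∀ a, a ∈ insert j S → a ≠ j → a ∈ S := fun a ha haj => (Finset.mem_insert.1 ha).resolve_left haj
  refine ⟨h1, ?_, ?_⟩
  · intro a ha b hb hab
    rw [hval, hval] at hab
    split_ifs at hab with c1 c2 c3
    · rw [c1, c2]
    · exact absurd hab.symm (hxq b (hS b hb c2))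
    · exact absurd hab (hxq a (hS a ha c1))
    · exact h2 a (hS a ha c1) b (hS b hb c3) hab
  · intro a b hb
    rw [hval]
    split_ifs with c1
    · exact hxp a
    · exact h3 a b (hS b hb c1)

open Classical in
/-- The maximum over the good configurations. -/
noncomputable def L3_u {K : ℕ} (f : Tp n K → ℝ) (m : ℕ) : ℝ :=
  ⨆ t : Finset (Fin K) × (Fin K → Fin n) × (Fin K → Fin n),
    if t.1.card = m ∧ L3_good t.1 t.2.1 t.2.2 then |L3_F f t.1 t.2.1 t.2.2| else 0

theorem L3_le_u {K : ℕ} (f : Tp n K → ℝ) (m : ℕ) (S : Finset (Fin K)) (p q : Fin K → Fin n) (hS : S.card = m)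
    (h : L3_good S p q) : |L3_F f S p q| ≤ L3_u f m := by
  classical
  unfold L3_u
  refine le_trans (le_of_eq ?_) (le_ciSup (Set.finite_range _).bddAbove (S, p, q))
  rw [if_pos ⟨hS, h⟩]

theorem L3_attain {K : ℕ} (hn : 1 ≤ n) (f : Tp n K → ℝ) (m : ℕ) : L3_u f m = 0 ∨
    ∃ (S : Finset (Fin K)) (p q : Fin K → Fin n), S.card = m ∧ L3_good S p q ∧ L3_u f m = |L3_F f S p q| := by
  classical
  have : Nonempty (Fin n) := ⟨⟨0, hn⟩⟩
  obtain ⟨t, ht⟩ := exists_eq_ciSup_of_finite (f := fun t : Finset (Fin K) × (Fin K → Fin n) × (Fin K → Fin n) =>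
    if t.1.card = m ∧ L3_good t.1 t.2.1 t.2.2 then |L3_F f t.1 t.2.1 t.2.2| else 0)
  by_cases h : t.1.card = m ∧ L3_good t.1 t.2.1 t.2.2
  · refine Or.inr ⟨t.1, t.2.1, t.2.2, h.1, h.2, ?_⟩
    unfold L3_u
    rw [← ht, if_pos h]
  · left
    unfold L3_u
    rw [← ht, if_neg h]

theorem L3_u_nonneg {K : ℕ} (f : Tp n K → ℝ) (m : ℕ) : 0 ≤ L3_u f m := by
  classical
  unfold L3_u
  refine Real.iSup_nonneg fun t => ?_
  split_ifs
  · exact abs_nonneg _
  · exact le_refl _

theorem L3_point {K : ℕ} (f : Tp n K → ℝ) (hf : IsPure f) (m : ℕ) (hm : m < K) (hK : K + m ≤ n)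
    (S : Finset (Fin K)) (p q : Fin K → Fin n) (hS : S.card = m) (h : L3_good S p q) :
    ((n : ℝ) - K - m) * |L3_F f S p q| ≤ ((n : ℝ) - K - m) * L3_u f (m + 1) + L3_u f m + 2 * m * L3_u f (m - 1) := by
  classical
  obtain ⟨j, hj⟩ : ∃ j, j ∉ S := by
    by_contra hc
    push Not at hc
    have h1 : S = Finset.univ := Finset.eq_univ_iff_forall.2 hc
    rw [h1, Finset.card_univ, Fintype.card_fin] at hS
    omega
  obtain ⟨h1, h2, h3⟩ := h
  obtain ⟨A, hA⟩ : ∃ A : Finset (Fin n), A = Finset.univ.image p := ⟨_, rfl⟩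
  obtain ⟨B, hB⟩ : ∃ B : Finset (Fin n), B = S.image q := ⟨_, rfl⟩
  have hAc : A.card = K := by
    rw [hA, Finset.card_image_of_injective _ h1, Finset.card_univ, Fintype.card_fin]
  have hqi : Set.InjOn q S := fun a ha b hb hab => h2 a ha b hb hab
  have hBc : B.card = m := by
    rw [hB, Finset.card_image_of_injOn hqi, hS]
  have hAB : Disjoint A B := by
    rw [Finset.disjoint_left]
    intro x hx hx'
    rw [hA, Finset.mem_image] at hx
    rw [hB, Finset.mem_image] at hx'
    obtain ⟨a, -, ha⟩ := hx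
    obtain ⟨b, hb, hb'⟩ := hx'
    exact h3 a b hb (ha.trans hb'.symm)
  obtain ⟨X, hX⟩ : ∃ X : Finset (Fin n), X = (A ∪ B)ᶜ := ⟨_, rfl⟩
  have hXc : (X.card : ℝ) = (n : ℝ) - K - m := by
    have h4 : X.card + (K + m) = n := by
      have h5 := Finset.card_compl_add_card (A ∪ B)
      rw [← hX, Finset.card_union_of_disjoint hAB, hAc, hBc, Fintype.card_fin] at h5
      exact h5
    have h6 : (X.card : ℝ) + (K + m) = n := by exact_mod_cast h4
    linarith
  obtain ⟨Φ, hΦ⟩ : ∃ Φ : Fin n → ℝ, ∀ x, Φ x = L3_F f S (Function.update p j x) q := ⟨_, fun _ => rfl⟩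
  have hpure : ∑ x, Φ x = 0 := by
    rw [← L3_pure f hf S p q j hj]
    exact Finset.sum_congr rfl fun x _ => hΦ x
  have hsplit : ∑ x ∈ X, Φ x + (∑ x ∈ A, Φ x + ∑ x ∈ B, Φ x) = 0 := by
    rw [← Finset.sum_union hAB, ← hpure, hX]
    exact Finset.sum_compl_add_sum (A ∪ B) Φ
  have hSA : ∑ x ∈ A, Φ x = L3_F f S p q + ∑ i ∈ Finset.univ.erase j, Φ (p i) := by
    rw [hA, Finset.sum_image (fun a _ b _ hab => h1 hab), ← Finset.add_sum_erase Finset.univ (fun i => Φ (p i)) (Finset.mem_univ j),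
      hΦ (p j), Function.update_eq_self]
  have hSA2 : |∑ i ∈ Finset.univ.erase j, Φ (p i)| ≤ m * L3_u f (m - 1) := by
    have h4 : ∑ i ∈ Finset.univ.erase j, Φ (p i) = ∑ i ∈ S, Φ (p i) := by
      symm
      refine Finset.sum_subset (fun i hi => Finset.mem_erase.2 ⟨fun h => hj (h ▸ hi), Finset.mem_univ _⟩) ?_
      intro i hi hiS
      rw [hΦ]
      exact L3_a f S p q i j (Finset.ne_of_mem_erase hi) hj hiS
    rw [h4]
    refine (Finset.abs_sum_le_sum_abs _ _).trans ?_
    calc ∑ i ∈ S, |Φ (p i)| ≤ ∑ i ∈ S, L3_u f (m - 1) := by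
          refine Finset.sum_le_sum fun i hi => ?_
          have hij : i ≠ j := fun h => hj (h ▸ hi)
          rw [hΦ, L3_b f S p q i j hij hj hi, neg_one_mul, abs_neg]
          exact L3_le_u f (m - 1) _ _ _ (by rw [Finset.card_erase_of_mem hi, hS]) (L3_good_b S p q i j hij hj hi ⟨h1, h2, h3⟩)
      _ = m * L3_u f (m - 1) := by rw [Finset.sum_const, hS, nsmul_eq_mul]
  have hSB : |∑ x ∈ B, Φ x| ≤ m * L3_u f (m - 1) := by
    rw [hB, Finset.sum_image hqi]
    refine (Finset.abs_sum_le_sum_abs _ _).trans ?_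
    calc ∑ i ∈ S, |Φ (q i)| ≤ ∑ i ∈ S, L3_u f (m - 1) := by
          refine Finset.sum_le_sum fun i hi => ?_
          have hij : i ≠ j := fun h => hj (h ▸ hi)
          rw [hΦ, L3_c f S p q i j hij hj hi, one_mul]
          exact L3_le_u f (m - 1) _ _ _ (by rw [Finset.card_erase_of_mem hi, hS]) (L3_good_c S p q i j hi ⟨h1, h2, h3⟩)
      _ = m * L3_u f (m - 1) := by rw [Finset.sum_const, hS, nsmul_eq_mul]
  have hSX : ∑ x ∈ X, L3_F f (insert j S) p (Function.update q j x) = X.card * L3_F f S p q - ∑ x ∈ X, Φ x := by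
    have h4 : ∀ x ∈ X, L3_F f (insert j S) p (Function.update q j x) = L3_F f S p q - Φ x := by
      intro x _
      rw [L3_ins f S p _ j hj, Function.update_self, hΦ]
      have hc : ∀ i ∈ S, Function.update q j x i = q i := by
        intro i hi
        rw [Function.update_of_ne (fun h : i = j => hj (h ▸ hi))]
      rw [L3_congr f S p _ q hc, L3_congr f S _ _ q hc]
    rw [Finset.sum_congr rfl h4, Finset.sum_sub_distrib, Finset.sum_const, nsmul_eq_mul]
  have hSX2 : |∑ x ∈ X, L3_F f (insert j S) p (Function.update q j x)| ≤ X.card * L3_u f (m + 1) := by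
    refine (Finset.abs_sum_le_sum_abs _ _).trans ?_
    calc ∑ x ∈ X, |L3_F f (insert j S) p (Function.update q j x)| ≤ ∑ x ∈ X, L3_u f (m + 1) := by
          refine Finset.sum_le_sum fun x hx => ?_
          rw [hX, Finset.mem_compl, Finset.mem_union, not_or] at hx
          refine L3_le_u f (m + 1) _ _ _ (by rw [Finset.card_insert_of_notMem hj, hS])
            (L3_good_ins S p q j hj x ?_ ?_ ⟨h1, h2, h3⟩)
          · intro i hi
            exact hx.1 (by rw [hA]; exact Finset.mem_image.2 ⟨i, Finset.mem_univ _, hi⟩)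
          · intro i hi hi2
            exact hx.2 (by rw [hB]; exact Finset.mem_image.2 ⟨i, hi, hi2⟩)
      _ = X.card * L3_u f (m + 1) := by rw [Finset.sum_const, nsmul_eq_mul]
  have hF := L3_le_u f m S p q hS ⟨h1, h2, h3⟩
  have hmain : (X.card : ℝ) * L3_F f S p q = ∑ x ∈ X, L3_F f (insert j S) p (Function.update q j x) - L3_F f S p q -
      ∑ i ∈ Finset.univ.erase j, Φ (p i) - ∑ x ∈ B, Φ x := by
    rw [hSX]
    rw [hSA] at hsplit
    linarith
  rw [← hXc]
  have h7 : (X.card : ℝ) * |L3_F f S p q| = |(X.card : ℝ) * L3_F f S p q| := by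
    rw [abs_mul, abs_of_nonneg (Nat.cast_nonneg _ : (0 : ℝ) ≤ (X.card : ℝ))]
  rw [h7, hmain]
  have t1 := abs_sub (∑ x ∈ X, L3_F f (insert j S) p (Function.update q j x)) (L3_F f S p q)
  have t2 := abs_sub (∑ x ∈ X, L3_F f (insert j S) p (Function.update q j x) - L3_F f S p q)
    (∑ i ∈ Finset.univ.erase j, Φ (p i))
  have t3 := abs_sub (∑ x ∈ X, L3_F f (insert j S) p (Function.update q j x) - L3_F f S p q -
      ∑ i ∈ Finset.univ.erase j, Φ (p i)) (∑ x ∈ B, Φ x)
  linarith

theorem L3_rec {K : ℕ} (f : Tp n K → ℝ) (hf : IsPure f) (hK : 20 * K ≤ n) (m : ℕ) (hm : m < K) :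
    L3_u f m ≤ 2 * L3_u f (m + 1) := by
  induction m with
  | zero =>
    have h0 := L3_u_nonneg f 0
    have h1 := L3_u_nonneg f 1
    rcases L3_attain (by omega) f 0 with h2 | ⟨S, p, q, hS, hg, hu⟩
    · rw [h2]; linarith
    · have h3 := L3_point f hf 0 hm (by omega) S p q hS hg
      rw [← hu] at h3
      have hn : (20 : ℝ) * K ≤ n := by exact_mod_cast hK
      have hK1 : (1 : ℝ) ≤ K := by exact_mod_cast hm
      simp only [Nat.cast_zero, mul_zero, zero_mul, add_zero, sub_zero, zero_add] at h3 ⊢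
      have h4 : ((n : ℝ) - K - 1) * L3_u f 0 ≤ ((n : ℝ) - K) * L3_u f 1 := by linarith
      have h5 : ((n : ℝ) - K) * L3_u f 0 ≤ 2 * (((n : ℝ) - K - 1) * L3_u f 0) := by nlinarith
      have h6 : ((n : ℝ) - K) * L3_u f 0 ≤ ((n : ℝ) - K) * (2 * L3_u f 1) := by linarith
      exact le_of_mul_le_mul_left h6 (by linarith)
  | succ m ih =>
    have ih' := ih (by omega)
    have h0 := L3_u_nonneg f (m + 1)
    have h1 := L3_u_nonneg f (m + 1 + 1)
    rcases L3_attain (by omega) f (m + 1) with h2 | ⟨S, p, q, hS, hg, hu⟩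
    · rw [h2]; linarith
    · have h3 := L3_point f hf (m + 1) hm (by omega) S p q hS hg
      rw [← hu] at h3
      have hn : (20 : ℝ) * K ≤ n := by exact_mod_cast hK
      have hK1 : (m : ℝ) + 2 ≤ K := by exact_mod_cast hm
      have hm0 : (0 : ℝ) ≤ m := Nat.cast_nonneg _
      have e1 : m + 1 - 1 = m := by omega
      rw [e1] at h3
      push_cast at h3
      have h4 : 2 * ((m : ℝ) + 1) * L3_u f m ≤ 2 * ((m : ℝ) + 1) * (2 * L3_u f (m + 1)) :=
        mul_le_mul_of_nonneg_left ih' (by linarith)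
      have h5 : ((n : ℝ) - K - (m + 1) - 1 - 4 * (m + 1)) * L3_u f (m + 1) ≤
          ((n : ℝ) - K - (m + 1)) * L3_u f (m + 1 + 1) := by linarith
      have h6 : ((n : ℝ) - K - (m + 1)) * L3_u f (m + 1) ≤
          2 * (((n : ℝ) - K - (m + 1) - 1 - 4 * (m + 1)) * L3_u f (m + 1)) := by nlinarith
      have h7 : ((n : ℝ) - K - (m + 1)) * L3_u f (m + 1) ≤ ((n : ℝ) - K - (m + 1)) * (2 * L3_u f (m + 1 + 1)) := by
        linarith
      exact le_of_mul_le_mul_left h7 (by linarith)

theorem L3_zero {K : ℕ} (f : Tp n K → ℝ) (a : Tp n K) : |f a| ≤ L3_u f 0 := by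
  have h1 : L3_F f ∅ a a = f a := by
    unfold L3_F
    rw [Finset.sum_eq_single a]
    · have h2 : ∏ j, L3_fac ∅ (⇑a) (⇑a) j (a j) = 1 := by
        refine Finset.prod_eq_one fun j _ => ?_
        unfold L3_fac
        rw [if_neg (Finset.notMem_empty j), if_pos rfl]
      rw [h2, mul_one]
    · intro b _ hb
      have h2 : ∃ j, b j ≠ a j := by
        by_contra hc
        push Not at hc
        exact hb (DFunLike.ext _ _ hc)
      obtain ⟨j, hj⟩ := h2
      have h3 : ∏ j, L3_fac ∅ (⇑a) (⇑a) j (b j) = 0 := by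
        refine Finset.prod_eq_zero (Finset.mem_univ j) ?_
        unfold L3_fac
        rw [if_neg (Finset.notMem_empty j), if_neg hj]
      rw [h3, mul_zero]
    · intro h
      exact absurd (Finset.mem_univ a) h
  rw [← h1]
  refine L3_le_u f 0 ∅ a a Finset.card_empty ⟨a.injective, ?_, ?_⟩
  · intro i hi
    exact absurd hi (Finset.notMem_empty i)
  · intro i j hj
    exact absurd hj (Finset.notMem_empty j)

theorem L3_last {K : ℕ} (hn : 1 ≤ n) (f : Tp n K → ℝ) : L3_u f K ^ 2 ≤ ∑ z : Lb K ↪ Fin n, (f ⬝ᵥ pv z) ^ 2 := by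
  rcases L3_attain hn f K with h2 | ⟨S, p, q, hS, hg, hu⟩
  · rw [h2]
    have : (0 : ℝ) ≤ ∑ z : Lb K ↪ Fin n, (f ⬝ᵥ pv z) ^ 2 := Finset.sum_nonneg fun z _ => sq_nonneg _
    simpa using this
  · have hSu : S = Finset.univ := by
      apply Finset.eq_univ_of_card
      rw [hS, Fintype.card_fin]
    subst hSu
    obtain ⟨h1, h2, h3⟩ := hg
    obtain ⟨z, hz⟩ : ∃ z : Lb K ↪ Fin n, ∀ l, z l = if l.2 then q l.1 else p l.1 := by
      refine ⟨⟨fun l => if l.2 then q l.1 else p l.1, ?_⟩, fun _ => rfl⟩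
      rintro ⟨a, b⟩ ⟨a', b'⟩ hab
      simp only at hab
      cases b <;> cases b' <;> simp only [Bool.false_eq_true, if_false, if_true] at hab
      · rw [h1 hab]
      · exact absurd hab (h3 a a' (Finset.mem_univ _))
      · exact absurd hab.symm (h3 a' a (Finset.mem_univ _))
      · rw [h2 a (Finset.mem_univ _) a' (Finset.mem_univ _) hab]
    have h4 : L3_F f Finset.univ p q = f ⬝ᵥ pv z := by
      unfold L3_F dotProduct pv
      refine Finset.sum_congr rfl fun a _ => ?_
      congr 1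
      refine Finset.prod_congr rfl fun j _ => ?_
      unfold L3_fac
      rw [if_pos (Finset.mem_univ j), hz, hz]
      simp
    rw [hu, h4, sq_abs]
    exact Finset.single_le_sum (f := fun z : Lb K ↪ Fin n => (f ⬝ᵥ pv z) ^ 2) (fun _ _ => sq_nonneg _) (Finset.mem_univ z)

theorem L3 {K : ℕ} (hK1 : 1 ≤ K) (hK : 20 * K ≤ n) (f : Tp n K → ℝ) (hf : IsPure f) :
    f ⬝ᵥ f ≤ (4 * n : ℝ) ^ K * ∑ z : Lb K ↪ Fin n, (f ⬝ᵥ pv z) ^ 2 := by
  have h1 : ∀ m, m ≤ K → L3_u f 0 ≤ 2 ^ m * L3_u f m := by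
    intro m
    induction m with
    | zero => intro _; simp
    | succ m ih =>
      intro hm
      have h2 := ih (by omega)
      have h3 := L3_rec f hf hK m (by omega)
      calc L3_u f 0 ≤ 2 ^ m * L3_u f m := h2
        _ ≤ 2 ^ m * (2 * L3_u f (m + 1)) := mul_le_mul_of_nonneg_left h3 (by positivity)
        _ = 2 ^ (m + 1) * L3_u f (m + 1) := by ring
  have h2 := h1 K le_rfl
  have h3 := L3_last (by omega) f
  have h4 : f ⬝ᵥ f ≤ (n : ℝ) ^ K * L3_u f 0 ^ 2 := by
    unfold dotProduct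
    calc ∑ a, f a * f a ≤ ∑ a : Tp n K, L3_u f 0 ^ 2 := by
          refine Finset.sum_le_sum fun a _ => ?_
          rw [← sq, ← sq_abs]
          exact pow_le_pow_left₀ (abs_nonneg _) (L3_zero f a) 2
      _ = (Fintype.card (Tp n K) : ℝ) * L3_u f 0 ^ 2 := by rw [Finset.sum_const, nsmul_eq_mul, Finset.card_univ]
      _ ≤ (n : ℝ) ^ K * L3_u f 0 ^ 2 := by
          refine mul_le_mul_of_nonneg_right ?_ (sq_nonneg _)
          have h5 : Fintype.card (Tp n K) ≤ n ^ K := by
            rw [Fintype.card_embedding_eq, Fintype.card_fin, Fintype.card_fin]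
            exact Nat.descFactorial_le_pow n K
          exact_mod_cast h5
  calc f ⬝ᵥ f ≤ (n : ℝ) ^ K * L3_u f 0 ^ 2 := h4
    _ ≤ (n : ℝ) ^ K * (2 ^ K * L3_u f K) ^ 2 := by
        refine mul_le_mul_of_nonneg_left ?_ (by positivity)
        exact pow_le_pow_left₀ (L3_u_nonneg f 0) h2 2
    _ = (4 * n : ℝ) ^ K * L3_u f K ^ 2 := by
        have : (4 : ℝ) ^ K = (2 ^ K) ^ 2 := by
          rw [← pow_mul, mul_comm K 2, pow_mul]
          norm_num
        rw [mul_pow, mul_pow, this]
        ring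
    _ ≤ (4 * n : ℝ) ^ K * ∑ z : Lb K ↪ Fin n, (f ⬝ᵥ pv z) ^ 2 := mul_le_mul_of_nonneg_left h3 (by positivity)

end Pool.Agent.BC5
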