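import Pool.Agent.Lib.MP_bc5a73_al.Lift.Defs

/-! Paper section 2.1 (complete proof there). Finset.sum_involution on the set of y with a cancelling pair: y' = y * swap u u' * swap x x' with u = src of (j,false), u' = src of (j,true)
in step s ((s,j) the first cancelling pair in a linear order that depends only on the set of cancelling pairs), x,x' the two smallest points not used as sources (they
exist because at most 2*K*N sources are used). Lemma: for s' <= s all positions Wd • z l agree for y and y'; for s' > s they agree for the labels outside the pair and are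
exchanged for (j,false),(j,true). So src y' is a permutation of src y inside each pair in each step, mlt is the same, Canc is the same. pv of z with
(j,false),(j,true) exchanged is -pv z; Pm g *ᵥ pv z = pv (g • z). -/

set_option autoImplicit false
open scoped BigOperators Matrix
open Matrix
namespace Pool.Agent.BC5

variable {n : ℕ}

theorem L4_Wd_succ (y : Alt n) (e : ℕ → Bool) (h : ℕ → Alt n) (s : ℕ) (x : Fin n) :
    Wd y e h (s + 1) • x = h (s + 1) • (yp y (e s) • (Wd y e h s • x)) := by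
  simp only [Wd, mul_smul]

/-- Exchange of the two labels of the pair `j0`. -/
def L4_sg {K : ℕ} (j0 : Fin K) : Equiv.Perm (Lb K) := Equiv.swap (j0, false) (j0, true)

theorem L4_sg_false {K : ℕ} (j0 : Fin K) : L4_sg j0 (j0, false) = (j0, true) := by
  simp [L4_sg]

theorem L4_sg_true {K : ℕ} (j0 : Fin K) : L4_sg j0 (j0, true) = (j0, false) := by
  simp [L4_sg]

theorem L4_sg_ne {K : ℕ} {j0 j : Fin K} (hj : j ≠ j0) (b : Bool) : L4_sg j0 (j, b) = (j, b) := by
  unfold L4_sg
  apply Equiv.swap_apply_of_ne_of_ne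
  · intro hh; exact hj (congrArg Prod.fst hh)
  · intro hh; exact hj (congrArg Prod.fst hh)

theorem L4_src_inj {K : ℕ} (y : Alt n) (e : ℕ → Bool) (h : ℕ → Alt n) (z : Lb K ↪ Fin n) (s : ℕ)
    {l l' : Lb K} (hh : src y e h z s l = src y e h z s l') : l = l' := by
  unfold src at hh
  split_ifs at hh
  · exact z.injective (MulAction.injective _ hh)
  · exact z.injective (MulAction.injective _ (MulAction.injective _ hh))

theorem L4_used {K : ℕ} (y : Alt n) (e : ℕ → Bool) (h : ℕ → Alt n) (z : Lb K ↪ Fin n) {N s : ℕ} (hs : s < N)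
    (l : Lb K) : mlt y e h z N (src y e h z s l) ≠ 0 := by
  unfold mlt
  apply Finset.card_ne_zero_of_mem (a := (s, l))
  simp [hs]

theorem L4_uniq {K : ℕ} (y : Alt n) (e : ℕ → Bool) (h : ℕ → Alt n) (z : Lb K ↪ Fin n) {N s s' : ℕ} (hs : s < N)
    (hs' : s' < N) {l l' : Lb K} (h1 : mlt y e h z N (src y e h z s l) = 1)
    (heq : src y e h z s' l' = src y e h z s l) : s' = s ∧ l' = l := by
  unfold mlt at h1
  obtain ⟨p, hp⟩ := Finset.card_eq_one.mp h1
  have m1 : (s, l) ∈ (Finset.range N ×ˢ (Finset.univ : Finset (Lb K))).filter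
      (fun p => src y e h z p.1 p.2 = src y e h z s l) := by simp [hs]
  have m2 : (s', l') ∈ (Finset.range N ×ˢ (Finset.univ : Finset (Lb K))).filter
      (fun p => src y e h z p.1 p.2 = src y e h z s l) := by simp [hs', heq]
  rw [hp, Finset.mem_singleton] at m1 m2
  have := m2.trans m1.symm
  exact ⟨congrArg Prod.fst this, congrArg Prod.snd this⟩

/-- The involution `(u u')(x x')`. -/
def L4_t (u u' x x' : Fin n) : Equiv.Perm (Fin n) := Equiv.swap u u' * Equiv.swap x x'

theorem L4_t_src {K : ℕ} (y : Alt n) (e : ℕ → Bool) (h : ℕ → Alt n) (z : Lb K ↪ Fin n) {N s0 : ℕ} (hs0 : s0 < N)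
    {j0 : Fin K} (hc : Canc y e h z N s0 j0) {x x' : Fin n} (hx : mlt y e h z N x = 0)
    (hx' : mlt y e h z N x' = 0) {s : ℕ} (hs : s < N) (l : Lb K) :
    L4_t (src y e h z s0 (j0, false)) (src y e h z s0 (j0, true)) x x' (src y e h z s l)
      = src y e h z s (if s = s0 then L4_sg j0 l else l) := by
  have hu := L4_used y e h z hs l
  have n1 : src y e h z s l ≠ x := by
    intro hh; rw [hh] at hu; exact hu hx
  have n2 : src y e h z s l ≠ x' := by
    intro hh; rw [hh] at hu; exact hu hx'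
  unfold L4_t
  rw [Equiv.Perm.mul_apply, Equiv.swap_apply_of_ne_of_ne n1 n2]
  by_cases h1 : src y e h z s l = src y e h z s0 (j0, false)
  · obtain ⟨e1, e2⟩ := L4_uniq y e h z hs0 hs (hc false) h1
    subst e1 e2
    rw [Equiv.swap_apply_left, if_pos rfl, L4_sg_false]
  · by_cases h2 : src y e h z s l = src y e h z s0 (j0, true)
    · obtain ⟨e1, e2⟩ := L4_uniq y e h z hs0 hs (hc true) h2
      subst e1 e2
      rw [Equiv.swap_apply_right, if_pos rfl, L4_sg_true]
    · rw [Equiv.swap_apply_of_ne_of_ne h1 h2]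
      split_ifs with h3
      · subst h3
        obtain ⟨j, b⟩ := l
        have hj : j ≠ j0 := by
          rintro rfl
          cases b
          · exact h1 rfl
          · exact h2 rfl
        rw [L4_sg_ne hj]
      · rfl

/-- The label whose place the label `l` of `y'` takes at time `s`. -/
def L4_rho {K : ℕ} (j0 : Fin K) (s0 s : ℕ) (l : Lb K) : Lb K := if s ≤ s0 then l else L4_sg j0 l

theorem L4_rho_succ {K : ℕ} (j0 : Fin K) (s0 s : ℕ) (l : Lb K) :
    (if s = s0 then L4_sg j0 (L4_rho j0 s0 s l) else L4_rho j0 s0 s l) = L4_rho j0 s0 (s + 1) l := by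
  unfold L4_rho
  rcases lt_trichotomy s s0 with hh | hh | hh
  · rw [if_neg hh.ne, if_pos hh.le, if_pos (show s + 1 ≤ s0 by omega)]
  · subst hh; simp
  · rw [if_neg hh.ne', if_neg (by omega), if_neg (by omega)]

theorem L4_t_inv {u u' x x' : Fin n} (h1 : u ≠ x) (h2 : u ≠ x') (h3 : u' ≠ x) (h4 : u' ≠ x') :
    (L4_t u u' x x')⁻¹ = L4_t u u' x x' := by
  unfold L4_t
  rw [_root_.mul_inv_rev, Equiv.swap_inv, Equiv.swap_inv]
  apply Equiv.Perm.Disjoint.commute
  intro w
  by_cases hw : w = u ∨ w = u'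
  · left
    rcases hw with rfl | rfl
    · exact Equiv.swap_apply_of_ne_of_ne h1 h2
    · exact Equiv.swap_apply_of_ne_of_ne h3 h4
  · right
    push Not at hw
    exact Equiv.swap_apply_of_ne_of_ne hw.1 hw.2

section
variable {K : ℕ} (y : Alt n) (e : ℕ → Bool) (h : ℕ → Alt n) (z : Lb K ↪ Fin n) {N s0 : ℕ} (hs0 : s0 < N)
    {j0 : Fin K} (hc : Canc y e h z N s0 j0) {x x' : Fin n} (hx : mlt y e h z N x = 0)
    (hx' : mlt y e h z N x' = 0) (y' : Alt n)
    (hy' : (y' : Equiv.Perm (Fin n)) = (y : Equiv.Perm (Fin n)) *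
      L4_t (src y e h z s0 (j0, false)) (src y e h z s0 (j0, true)) x x')

include hs0 hc hx hx' hy'

omit hc in
theorem L4_smul_inv (v : Fin n) : y'⁻¹ • v =
    L4_t (src y e h z s0 (j0, false)) (src y e h z s0 (j0, true)) x x' (y⁻¹ • v) := by
  have e1 : y'⁻¹ • v = ((y' : Equiv.Perm (Fin n))⁻¹) v := rfl
  have e2 : y⁻¹ • v = ((y : Equiv.Perm (Fin n))⁻¹) v := rfl
  have a1 := L4_used y e h z hs0 (j0, false)
  have a2 := L4_used y e h z hs0 (j0, true)
  rw [e1, hy', _root_.mul_inv_rev, L4_t_inv, Equiv.Perm.mul_apply, e2]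
  · intro hh; rw [hh] at a1; exact a1 hx
  · intro hh; rw [hh] at a1; exact a1 hx'
  · intro hh; rw [hh] at a2; exact a2 hx
  · intro hh; rw [hh] at a2; exact a2 hx'

theorem L4_src_of_pos {s : ℕ} (hs : s < N)
    (hp : ∀ l, Wd y' e h s • z l = Wd y e h s • z (L4_rho j0 s0 s l)) (l : Lb K) :
    src y' e h z s l = src y e h z s (if e s then L4_rho j0 s0 s l else L4_rho j0 s0 (s + 1) l) := by
  by_cases he : e s
  · rw [if_pos he]
    unfold src
    rw [if_pos he, if_pos he, hp]
  · rw [if_neg he, ← L4_rho_succ, ← L4_t_src y e h z hs0 hc hx hx' hs]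
    have e1 : src y' e h z s l = y'⁻¹ • (Wd y' e h s • z l) := by unfold src; rw [if_neg he]
    have e2 : src y e h z s (L4_rho j0 s0 s l) = y⁻¹ • (Wd y e h s • z (L4_rho j0 s0 s l)) := by
      unfold src; rw [if_neg he]
    rw [e1, hp, L4_smul_inv y e h z hs0 hx hx' y' hy', e2]

theorem L4_pos (s : ℕ) (hs : s ≤ N) : ∀ l, Wd y' e h s • z l = Wd y e h s • z (L4_rho j0 s0 s l) := by
  induction s with
  | zero =>
    intro l
    simp [Wd, L4_rho]
  | succ s ih =>
    intro l
    have ih' := ih (by omega)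
    have hsN : s < N := by omega
    rw [L4_Wd_succ, L4_Wd_succ]
    congr 1
    by_cases he : e s
    · have hy1 : ∀ v : Fin n, yp y' (e s) • v = y • (L4_t (src y e h z s0 (j0, false)) (src y e h z s0 (j0, true)) x x' v) := by
        intro v
        have : yp y' (e s) • v = (y' : Equiv.Perm (Fin n)) v := by
          unfold yp; rw [if_pos he]; rfl
        rw [this, hy', Equiv.Perm.mul_apply]; rfl
      have hy2 : yp y (e s) = y := by unfold yp; rw [if_pos he]
      rw [hy1, ih', hy2]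
      congr 1
      have hsr : ∀ l', src y e h z s l' = Wd y e h s • z l' := by
        intro l'; unfold src; rw [if_pos he]
      rw [← hsr, ← hsr, L4_t_src y e h z hs0 hc hx hx' hsN, L4_rho_succ]
    · have hy1 : yp y' (e s) = y'⁻¹ := by unfold yp; rw [if_neg he]
      have hy2 : yp y (e s) = y⁻¹ := by unfold yp; rw [if_neg he]
      rw [hy1, hy2, ih', L4_smul_inv y e h z hs0 hx hx' y' hy']
      have hsr : ∀ l', src y e h z s l' = y⁻¹ • (Wd y e h s • z l') := by
        intro l'; unfold src; rw [if_neg he]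
      rw [← hsr, ← hsr, L4_t_src y e h z hs0 hc hx hx' hsN, L4_rho_succ]

theorem L4_src' {s : ℕ} (hs : s < N) :
    (∀ l, src y' e h z s l = src y e h z s l) ∨ (∀ l, src y' e h z s l = src y e h z s (L4_sg j0 l)) := by
  have hp := L4_src_of_pos y e h z hs0 hc hx hx' y' hy' hs (L4_pos y e h z hs0 hc hx hx' y' hy' s hs.le)
  by_cases he : e s
  · by_cases h1 : s ≤ s0
    · left; intro l; rw [hp, if_pos he]; unfold L4_rho; rw [if_pos h1]
    · right; intro l; rw [hp, if_pos he]; unfold L4_rho; rw [if_neg h1]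
  · by_cases h1 : s + 1 ≤ s0
    · left; intro l; rw [hp, if_neg he]; unfold L4_rho; rw [if_pos h1]
    · right; intro l; rw [hp, if_neg he]; unfold L4_rho; rw [if_neg h1]

theorem L4_src'' : ∃ π : ℕ → Equiv.Perm (Lb K), (∀ s, π s = 1 ∨ π s = L4_sg j0) ∧
    ∀ s, s < N → ∀ l, src y' e h z s l = src y e h z s (π s l) := by
  classical
  have hh : ∀ s, ∃ p : Equiv.Perm (Lb K), (p = 1 ∨ p = L4_sg j0) ∧ (s < N → ∀ l, src y' e h z s l = src y e h z s (p l)) := by
    intro s
    by_cases hs : s < N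
    · rcases L4_src' y e h z hs0 hc hx hx' y' hy' hs with h1 | h1
      · exact ⟨1, Or.inl rfl, fun _ => h1⟩
      · exact ⟨_, Or.inr rfl, fun _ => h1⟩
    · exact ⟨1, Or.inl rfl, fun hs' => absurd hs' hs⟩
  choose π h1 h2 using hh
  exact ⟨π, h1, h2⟩

theorem L4_mlt : mlt y' e h z N = mlt y e h z N := by
  obtain ⟨π, h1, h2⟩ := L4_src'' y e h z hs0 hc hx hx' y' hy'
  funext u
  unfold mlt
  apply Finset.card_bij (fun p _ => (p.1, π p.1 p.2))
  · rintro ⟨s, l⟩ hp
    simp only [Finset.mem_filter, Finset.mem_product, Finset.mem_range, Finset.mem_univ, and_true] at hp ⊢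
    refine ⟨hp.1, ?_⟩
    rw [← h2 s hp.1]; exact hp.2
  · rintro ⟨s, l⟩ _ ⟨s', l'⟩ _ hh
    have e1 : s = s' := congrArg Prod.fst hh
    subst e1
    have e2 : π s l = π s l' := congrArg Prod.snd hh
    rw [(π s).injective e2]
  · rintro ⟨s, l⟩ hp
    simp only [Finset.mem_filter, Finset.mem_product, Finset.mem_range, Finset.mem_univ, and_true] at hp
    refine ⟨(s, (π s).symm l), ?_, ?_⟩
    · simp only [Finset.mem_filter, Finset.mem_product, Finset.mem_range, Finset.mem_univ, and_true]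
      refine ⟨hp.1, ?_⟩
      rw [h2 s hp.1, Equiv.apply_symm_apply]; exact hp.2
    · simp

theorem L4_pair {s : ℕ} (hs : s < N) (j : Fin K) :
    (∀ b, src y' e h z s (j, b) = src y e h z s (j, b)) ∨ (∀ b, src y' e h z s (j, b) = src y e h z s (j, !b)) := by
  obtain ⟨π, h1, h2⟩ := L4_src'' y e h z hs0 hc hx hx' y' hy'
  rcases h1 s with h3 | h3
  · left; intro b; rw [h2 s hs, h3]; rfl
  · by_cases hj : j = j0
    · right; intro b
      subst hj
      rw [h2 s hs, h3]
      cases b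
      · rw [L4_sg_false]; rfl
      · rw [L4_sg_true]; rfl
    · left; intro b; rw [h2 s hs, h3, L4_sg_ne hj]

theorem L4_Canc {s : ℕ} (hs : s < N) (j : Fin K) : Canc y' e h z N s j ↔ Canc y e h z N s j := by
  unfold Canc
  rw [L4_mlt y e h z hs0 hc hx hx' y' hy']
  rcases L4_pair y e h z hs0 hc hx hx' y' hy' hs j with h1 | h1
  · constructor
    · intro hh b; rw [← h1]; exact hh b
    · intro hh b; rw [h1]; exact hh b
  · constructor
    · intro hh b; have := hh (!b); rw [h1, Bool.not_not] at this; exact this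
    · intro hh b; rw [h1]; exact hh _

theorem L4_swap {s : ℕ} (hs : s < N) (j : Fin K) :
    Equiv.swap (src y' e h z s (j, false)) (src y' e h z s (j, true)) =
      Equiv.swap (src y e h z s (j, false)) (src y e h z s (j, true)) := by
  rcases L4_pair y e h z hs0 hc hx hx' y' hy' hs j with h1 | h1
  · rw [h1, h1]
  · rw [h1, h1]; exact Equiv.swap_comm _ _

end

/-- The predicate of the cancelling pairs. -/
def L4_P {K : ℕ} (y : Alt n) (e : ℕ → Bool) (h : ℕ → Alt n) (z : Lb K ↪ Fin n) (N : ℕ) : ℕ × Fin K → Prop :=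
  fun p => p.1 < N ∧ Canc y e h z N p.1 p.2

/-- The transpositions of the pairs. -/
def L4_S {K : ℕ} (y : Alt n) (e : ℕ → Bool) (h : ℕ → Alt n) (z : Lb K ↪ Fin n) (N : ℕ) :
    ℕ × Fin K → Equiv.Perm (Fin n) :=
  fun p => if p.1 < N then Equiv.swap (src y e h z p.1 (p.2, false)) (src y e h z p.1 (p.2, true)) else 1

open Classical in
/-- The chosen involution. -/
noncomputable def L4_T {K : ℕ} (P : ℕ × Fin K → Prop) (S : ℕ × Fin K → Equiv.Perm (Fin n)) (m : Fin n → ℕ) :
    Equiv.Perm (Fin n) :=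
  (if h : ∃ p, P p then S h.choose else 1) *
    (if h : ∃ q : Fin n × Fin n, q.1 ≠ q.2 ∧ m q.1 = 0 ∧ m q.2 = 0 then Equiv.swap h.choose.1 h.choose.2 else 1)

theorem L4_free {K N : ℕ} (hN : 2 * K * N + 2 ≤ n) (y : Alt n) (e : ℕ → Bool) (h : ℕ → Alt n) (z : Lb K ↪ Fin n) :
    ∃ q : Fin n × Fin n, q.1 ≠ q.2 ∧ mlt y e h z N q.1 = 0 ∧ mlt y e h z N q.2 = 0 := by
  classical
  set A : Finset (Fin n) := (Finset.range N ×ˢ (Finset.univ : Finset (Lb K))).image
    (fun p => src y e h z p.1 p.2) with hA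
  have hAc : A.card ≤ N * (K * 2) := by
    refine le_trans Finset.card_image_le ?_
    rw [Finset.card_product]
    simp
  have hB : 1 < (Aᶜ).card := by
    rw [Finset.card_compl, Fintype.card_fin]
    have : N * (K * 2) = 2 * K * N := by ring
    omega
  obtain ⟨a, ha, b, hb, hab⟩ := Finset.one_lt_card.mp hB
  have key : ∀ a, a ∈ Aᶜ → mlt y e h z N a = 0 := by
    intro a ha
    unfold mlt
    rw [Finset.card_eq_zero, Finset.filter_eq_empty_iff]
    intro p hp hh
    rw [Finset.mem_compl] at ha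
    apply ha
    rw [hA, Finset.mem_image]
    exact ⟨p, hp, hh⟩
  exact ⟨(a, b), hab, key a ha, key b hb⟩

theorem L4_pm {K : ℕ} (g : Alt n) (z : Lb K ↪ Fin n) : (Pm g : Matrix (Tp n K) (Tp n K) ℝ) *ᵥ pv z = pv (g • z) := by
  funext a
  have h1 : ((Pm g : Matrix (Tp n K) (Tp n K) ℝ) *ᵥ pv z) a = pv z (g⁻¹ • a) := by
    simp only [Matrix.mulVec, dotProduct, Pm, Matrix.of_apply]
    rw [Finset.sum_eq_single (g⁻¹ • a)]
    · exact (congrArg (· * pv z (g⁻¹ • a)) (if_pos (smul_inv_smul g a).symm)).trans (one_mul _)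
    · intro b _ hb
      rw [if_neg, zero_mul]
      intro hh
      exact hb (by rw [hh]; exact (inv_smul_smul g b).symm)
    · intro hh; exact absurd (Finset.mem_univ _) hh
  rw [h1]
  unfold pv
  apply Finset.prod_congr rfl
  intro j _
  have key : ∀ l, ((g⁻¹ • a) j = z l) ↔ (a j = (g • z) l) := by
    intro l
    have e1 : (g⁻¹ • a) j = g⁻¹ • (a j) := rfl
    have e2 : (g • z) l = g • (z l) := rfl
    rw [e1, e2, inv_smul_eq_iff]
  simp only [key]

theorem L4_pv {K : ℕ} (z z' : Lb K ↪ Fin n) (j0 : Fin K) (hz : ∀ l, z' l = z (L4_sg j0 l)) : pv z' = - pv z := by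
  funext a
  rw [Pi.neg_apply]
  unfold pv
  rw [← Finset.mul_prod_erase Finset.univ _ (Finset.mem_univ j0),
    ← Finset.mul_prod_erase Finset.univ (fun j => ((if a j = z (j, false) then (1 : ℝ) else 0) - (if a j = z (j, true) then 1 else 0))) (Finset.mem_univ j0)]
  have h1 : ∏ j ∈ Finset.univ.erase j0, ((if a j = z' (j, false) then (1 : ℝ) else 0) - (if a j = z' (j, true) then 1 else 0))
      = ∏ j ∈ Finset.univ.erase j0, ((if a j = z (j, false) then (1 : ℝ) else 0) - (if a j = z (j, true) then 1 else 0)) := by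
    apply Finset.prod_congr rfl
    intro j hj
    rw [hz, hz, L4_sg_ne (Finset.ne_of_mem_erase hj), L4_sg_ne (Finset.ne_of_mem_erase hj)]
  rw [h1, hz, hz, L4_sg_false, L4_sg_true]
  ring

theorem L4_sign {u u' x x' : Fin n} (h1 : u ≠ u') (h2 : x ≠ x') : L4_t u u' x x' ∈ alternatingGroup (Fin n) := by
  rw [Equiv.Perm.mem_alternatingGroup]
  unfold L4_t
  rw [Equiv.Perm.sign_mul, Equiv.Perm.sign_swap h1, Equiv.Perm.sign_swap h2]
  decide

/-- Everything about one application of the involution. -/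
theorem L4_step {K N : ℕ} (hN : 2 * K * N + 2 ≤ n) (y : Alt n) (e : ℕ → Bool) (h : ℕ → Alt n) (z : Lb K ↪ Fin n)
    (hnc : ¬ NoCanc y e h z N) :
    ∃ y' : Alt n, (y' : Equiv.Perm (Fin n)) = (y : Equiv.Perm (Fin n)) * L4_T (L4_P y e h z N) (L4_S y e h z N) (mlt y e h z N) ∧
      L4_T (L4_P y' e h z N) (L4_S y' e h z N) (mlt y' e h z N) = L4_T (L4_P y e h z N) (L4_S y e h z N) (mlt y e h z N) ∧
      L4_T (L4_P y e h z N) (L4_S y e h z N) (mlt y e h z N) * L4_T (L4_P y e h z N) (L4_S y e h z N) (mlt y e h z N) = 1 ∧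
      L4_T (L4_P y e h z N) (L4_S y e h z N) (mlt y e h z N) ≠ 1 ∧
      ¬ NoCanc y' e h z N ∧
      (Pm (Wd y' e h N) : Matrix (Tp n K) (Tp n K) ℝ) *ᵥ pv z = - ((Pm (Wd y e h N) : Matrix (Tp n K) (Tp n K) ℝ) *ᵥ pv z) := by
  classical
  have hP : ∃ p, L4_P y e h z N p := by
    unfold NoCanc at hnc
    push Not at hnc
    obtain ⟨s, hs, j, hj⟩ := hnc
    exact ⟨(s, j), hs, hj⟩
  have hq := L4_free hN y e h z
  set p := hP.choose with hp
  set q := hq.choose with hqd
  have hp1 : p.1 < N := hP.choose_spec.1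
  have hp2 : Canc y e h z N p.1 p.2 := hP.choose_spec.2
  have hq1 : q.1 ≠ q.2 := hq.choose_spec.1
  have hq2 : mlt y e h z N q.1 = 0 := hq.choose_spec.2.1
  have hq3 : mlt y e h z N q.2 = 0 := hq.choose_spec.2.2
  have hT : L4_T (L4_P y e h z N) (L4_S y e h z N) (mlt y e h z N) =
      L4_t (src y e h z p.1 (p.2, false)) (src y e h z p.1 (p.2, true)) q.1 q.2 := by
    unfold L4_T L4_t
    rw [dif_pos hP, dif_pos hq, ← hp, ← hqd]
    unfold L4_S
    rw [if_pos hp1]
  have hu : src y e h z p.1 (p.2, false) ≠ src y e h z p.1 (p.2, true) := by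
    intro hh
    have := L4_src_inj y e h z p.1 hh
    simp at this
  have a1 := L4_used y e h z hp1 (p.2, false)
  have a2 := L4_used y e h z hp1 (p.2, true)
  have hinv : (L4_t (src y e h z p.1 (p.2, false)) (src y e h z p.1 (p.2, true)) q.1 q.2)⁻¹ =
      L4_t (src y e h z p.1 (p.2, false)) (src y e h z p.1 (p.2, true)) q.1 q.2 := by
    apply L4_t_inv
    · intro hh; rw [hh] at a1; exact a1 hq2
    · intro hh; rw [hh] at a1; exact a1 hq3
    · intro hh; rw [hh] at a2; exact a2 hq2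
    · intro hh; rw [hh] at a2; exact a2 hq3
  set tt : Alt n := ⟨_, L4_sign hu hq1⟩ with htt
  have hy' : ((y * tt : Alt n) : Equiv.Perm (Fin n)) = (y : Equiv.Perm (Fin n)) *
      L4_t (src y e h z p.1 (p.2, false)) (src y e h z p.1 (p.2, true)) q.1 q.2 := rfl
  have hC := fun s (hs : s < N) j => L4_Canc y e h z hp1 hp2 hq2 hq3 (y * tt) hy' hs j
  refine ⟨y * tt, ?_, ?_, ?_, ?_, ?_, ?_⟩
  · rw [hT]; rfl
  · have e1 : L4_P (y * tt) e h z N = L4_P y e h z N := by
      funext p'
      unfold L4_P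
      apply propext
      constructor
      · rintro ⟨h1, h2⟩; exact ⟨h1, (hC _ h1 _).mp h2⟩
      · rintro ⟨h1, h2⟩; exact ⟨h1, (hC _ h1 _).mpr h2⟩
    have e2 : L4_S (y * tt) e h z N = L4_S y e h z N := by
      funext p'
      unfold L4_S
      split_ifs with h1
      · exact L4_swap y e h z hp1 hp2 hq2 hq3 (y * tt) hy' h1 _
      · rfl
    rw [e1, e2, L4_mlt y e h z hp1 hp2 hq2 hq3 (y * tt) hy']
  · rw [hT]
    nth_rewrite 1 [← hinv]
    exact inv_mul_cancel _
  · rw [hT]
    intro hh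
    have h1 : L4_t (src y e h z p.1 (p.2, false)) (src y e h z p.1 (p.2, true)) q.1 q.2 (src y e h z p.1 (p.2, false))
        = src y e h z p.1 (p.2, true) := by
      rw [L4_t_src y e h z hp1 hp2 hq2 hq3 hp1, if_pos rfl, L4_sg_false]
    rw [hh] at h1
    exact hu h1
  · intro hh
    exact hh p.1 hp1 p.2 ((hC _ hp1 _).mpr hp2)
  · rw [L4_pm, L4_pm]
    apply L4_pv _ _ p.2
    intro l
    have h1 := L4_pos y e h z hp1 hp2 hq2 hq3 (y * tt) hy' N le_rfl l
    unfold L4_rho at h1
    rw [if_neg (by omega)] at h1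
    exact h1

open Classical in
theorem L4 {K N : ℕ} (hN : 2 * K * N + 2 ≤ n) (e : ℕ → Bool) (h : ℕ → Alt n) (z : Lb K ↪ Fin n) :
    ∑ y ∈ Finset.univ.filter (fun y : Alt n => ¬ NoCanc y e h z N), Pm (Wd y e h N) *ᵥ pv z = 0 := by
  choose! g h1 h2 h3 h4 h5 h6 using fun y (hy : ¬ NoCanc y e h z N) => L4_step hN y e h z hy
  apply Finset.sum_involution (fun y _ => g y)
  · intro y hy
    rw [Finset.mem_filter] at hy
    rw [h6 y hy.2, add_neg_cancel]
  · intro y hy _ hh
    rw [Finset.mem_filter] at hy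
    have := h1 y hy.2
    rw [hh] at this
    exact h4 y hy.2 (mul_eq_left.mp this.symm)
  · intro y hy
    rw [Finset.mem_filter] at hy ⊢
    exact ⟨Finset.mem_univ _, h5 y hy.2⟩
  · intro y hy
    rw [Finset.mem_filter] at hy
    apply Subtype.ext
    rw [h1 _ (h5 y hy.2), h2 y hy.2, h1 y hy.2, mul_assoc, h3 y hy.2, mul_one]

end Pool.Agent.BC5
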