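import Pool.Agent.Lib.MP_bc5a73_al.Lift.Defs

set_option autoImplicit false
open scoped BigOperators Matrix
open Matrix
namespace Pool.Agent.BC5

variable {n : ℕ}

open Classical in
/-- The number of labels whose edge in the step `s` has been used in an earlier step. -/
noncomputable def L5_J {K : ℕ} (y : Alt n) (e : ℕ → Bool) (h : ℕ → Alt n) (z : Lb K ↪ Fin n) (s : ℕ) : ℕ :=
  (Finset.univ.filter (fun l : Lb K => ∃ s', s' < s ∧ ∃ l', src y e h z s' l' = src y e h z s l)).card

theorem L5_src_inj {K : ℕ} (y : Alt n) (e : ℕ → Bool) (h : ℕ → Alt n) (z : Lb K ↪ Fin n) (s : ℕ) (l l' : Lb K)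
    (hl : src y e h z s l = src y e h z s l') : l = l' := by
  unfold src at hl
  apply z.injective
  split_ifs at hl
  · exact MulAction.injective _ hl
  · exact MulAction.injective _ (MulAction.injective _ hl)

open Classical in
theorem L5_comb {K N : ℕ} (y : Alt n) (e : ℕ → Bool) (h : ℕ → Alt n) (z : Lb K ↪ Fin n)
    (hnc : NoCanc y e h z N) : K * N ≤ 2 * ∑ s ∈ Finset.range N, L5_J y e h z s := by
  obtain ⟨U, hU⟩ : ∃ U : Finset (ℕ × Lb K), U = Finset.range N ×ˢ (Finset.univ : Finset (Lb K)) := ⟨_, rfl⟩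
  obtain ⟨f, hf⟩ : ∃ f : ℕ × Lb K → Fin n, ∀ p, f p = src y e h z p.1 p.2 := ⟨_, fun _ => rfl⟩
  have hmlt : ∀ u, mlt y e h z N u = (U.filter (fun p => f p = u)).card := by
    intro u
    unfold mlt
    rw [hU]
    congr 1
    ext p
    simp only [Finset.mem_filter, hf]
  -- the pairs `(s, l)` with an edge of multiplicity at least two
  obtain ⟨M, hM⟩ : ∃ M : Finset (ℕ × Lb K), M = U.filter (fun p => 2 ≤ mlt y e h z N (f p)) := ⟨_, rfl⟩
  obtain ⟨R, hR⟩ : ∃ R : Finset (ℕ × Lb K), R = U.filter (fun p => ∃ q ∈ U, q.1 < p.1 ∧ f q = f p) := ⟨_, rfl⟩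
  have h1 : K * N ≤ M.card := by
    have hex : ∀ q : ℕ × Fin K, q.1 < N → ∃ b : Bool, (q.1, (q.2, b)) ∈ M := by
      intro q hq
      have h2 := hnc q.1 hq q.2
      unfold Canc at h2
      push Not at h2
      obtain ⟨b, hb⟩ := h2
      refine ⟨b, ?_⟩
      have hm : (q.1, (q.2, b)) ∈ U := by
        rw [hU, Finset.mem_product]
        exact ⟨Finset.mem_range.2 hq, Finset.mem_univ _⟩
      rw [hM, Finset.mem_filter]
      refine ⟨hm, ?_⟩
      have h3 : 1 ≤ mlt y e h z N (f (q.1, (q.2, b))) := by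
        rw [hmlt]
        exact Finset.card_pos.2 ⟨(q.1, (q.2, b)), Finset.mem_filter.2 ⟨hm, rfl⟩⟩
      have h4 : mlt y e h z N (f (q.1, (q.2, b))) ≠ 1 := by
        rw [hf]
        exact hb
      omega
    have hex' : ∀ q : ℕ × Fin K, ∃ b : Bool, q.1 < N → (q.1, (q.2, b)) ∈ M := by
      intro q
      by_cases hq : q.1 < N
      · obtain ⟨b, hb⟩ := hex q hq
        exact ⟨b, fun _ => hb⟩
      · exact ⟨true, fun h => absurd h hq⟩
    choose b hb using hex'
    calc K * N = (Finset.range N ×ˢ (Finset.univ : Finset (Fin K))).card := by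
          rw [Finset.card_product, Finset.card_range, Finset.card_univ, Fintype.card_fin, mul_comm]
      _ ≤ M.card := Finset.card_le_card_of_injOn (fun q => (q.1, (q.2, b q))) (by
          intro q hq
          rw [Finset.mem_coe, Finset.mem_product, Finset.mem_range] at hq
          exact hb q hq.1) (by
          intro q _ q' _ hqq
          simp only [Prod.mk.injEq] at hqq
          exact Prod.ext hqq.1 hqq.2.1)
  have h2 : M.card ≤ 2 * R.card := by
    have e1 : M.card = ∑ u : Fin n, (M.filter (fun p => f p = u)).card :=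
      Finset.card_eq_sum_card_fiberwise (fun _ _ => Finset.mem_coe.2 (Finset.mem_univ _))
    have e2 : R.card = ∑ u : Fin n, (R.filter (fun p => f p = u)).card :=
      Finset.card_eq_sum_card_fiberwise (fun _ _ => Finset.mem_coe.2 (Finset.mem_univ _))
    rw [e1, e2, Finset.mul_sum]
    refine Finset.sum_le_sum fun u _ => ?_
    by_cases hu : 2 ≤ mlt y e h z N u
    · have h3 : (M.filter (fun p => f p = u)).card ≤ mlt y e h z N u := by
        rw [hmlt]
        refine Finset.card_le_card ?_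
        intro p hp
        rw [Finset.mem_filter, hM, Finset.mem_filter] at hp
        exact Finset.mem_filter.2 ⟨hp.1.1, hp.2⟩
      -- the first use
      have h4 : mlt y e h z N u ≤ (R.filter (fun p => f p = u)).card + 1 := by
        rw [hmlt]
        obtain ⟨Fu, hFu⟩ : ∃ Fu, Fu = U.filter (fun p => f p = u) := ⟨_, rfl⟩
        rw [← hFu]
        have hne : Fu.Nonempty := by
          rw [hmlt, ← hFu] at hu
          exact Finset.card_pos.1 (by omega)
        obtain ⟨p0, hp0, hmin⟩ := Finset.exists_min_image Fu (fun p => p.1) hne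
        have h5 : Fu ⊆ insert p0 (R.filter (fun p => f p = u)) := by
          intro p hp
          rw [Finset.mem_insert]
          by_cases hpp : p = p0
          · exact Or.inl hpp
          · refine Or.inr ?_
            have hp' := hp
            have hp0' := hp0
            rw [hFu, Finset.mem_filter] at hp' hp0'
            have hlt : p0.1 < p.1 := by
              rcases lt_or_eq_of_le (hmin p hp) with h6 | h6
              · exact h6
              · exfalso
                apply hpp
                have h7 : p.2 = p0.2 := by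
                  apply L5_src_inj y e h z p.1
                  have h8 := hp'.2.trans hp0'.2.symm
                  rw [hf, hf] at h8
                  rw [h6] at h8
                  exact h8
                exact Prod.ext h6.symm h7
            rw [Finset.mem_filter, hR, Finset.mem_filter]
            exact ⟨⟨hp'.1, p0, hp0'.1, hlt, hp0'.2.trans hp'.2.symm⟩, hp'.2⟩
        exact (Finset.card_le_card h5).trans (Finset.card_insert_le _ _)
      omega
    · have h3 : M.filter (fun p => f p = u) = ∅ := by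
        rw [Finset.filter_eq_empty_iff]
        intro p hp hpu
        rw [hM, Finset.mem_filter] at hp
        rw [hpu] at hp
        exact hu hp.2
      rw [h3, Finset.card_empty]
      exact Nat.zero_le _
  have h3 : R.card = ∑ s ∈ Finset.range N, L5_J y e h z s := by
    have e1 : R.card = ∑ s ∈ Finset.range N, (R.filter (fun p => p.1 = s)).card :=
      Finset.card_eq_sum_card_fiberwise (fun p hp => by
        rw [Finset.mem_coe, hR, Finset.mem_filter, hU, Finset.mem_product] at hp
        exact hp.1.1)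
    rw [e1]
    refine Finset.sum_congr rfl fun s hs => ?_
    rw [Finset.mem_range] at hs
    unfold L5_J
    refine Finset.card_nbij' (fun p => p.2) (fun l => (s, l)) ?_ ?_ ?_ ?_
    · intro p hp
      rw [Finset.mem_coe, Finset.mem_filter, hR, Finset.mem_filter] at hp
      obtain ⟨⟨hpU, q, hqU, hq1, hq2⟩, hps⟩ := hp
      rw [Finset.mem_coe, Finset.mem_filter]
      refine ⟨Finset.mem_univ _, q.1, by rw [← hps]; exact hq1, q.2, ?_⟩
      rw [hf, hf, hps] at hq2
      exact hq2
    · intro l hl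
      rw [Finset.mem_coe, Finset.mem_filter] at hl
      obtain ⟨-, s', hs', l', hl'⟩ := hl
      rw [Finset.mem_coe, Finset.mem_filter, hR, Finset.mem_filter]
      refine ⟨⟨?_, (s', l'), ?_, hs', ?_⟩, rfl⟩
      · rw [hU, Finset.mem_product]
        exact ⟨Finset.mem_range.2 hs, Finset.mem_univ _⟩
      · rw [hU, Finset.mem_product]
        exact ⟨Finset.mem_range.2 (hs'.trans hs), Finset.mem_univ _⟩
      · rw [hf, hf]
        exact hl'
    · intro p hp
      rw [Finset.mem_coe, Finset.mem_filter] at hp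
      exact Prod.ext hp.2.symm rfl
    · intro l _
      rfl
  rw [← h3]
  exact h1.trans h2

theorem L5_J_zero {K : ℕ} (y : Alt n) (e : ℕ → Bool) (h : ℕ → Alt n) (z : Lb K ↪ Fin n) : L5_J y e h z 0 = 0 := by
  unfold L5_J
  rw [Finset.card_eq_zero, Finset.filter_eq_empty_iff]
  rintro l - ⟨s', hs', -⟩
  exact absurd hs' (Nat.not_lt_zero _)

theorem L5_J_le {K : ℕ} (y : Alt n) (e : ℕ → Bool) (h : ℕ → Alt n) (z : Lb K ↪ Fin n) (s : ℕ) :
    L5_J y e h z s ≤ 2 * K := by
  unfold L5_J
  refine (Finset.card_filter_le _ _).trans ?_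
  rw [Finset.card_univ, Fintype.card_prod, Fintype.card_fin, Fintype.card_bool, mul_comm]

/-- If no pair cancels, then at least `m` of the `8 m` steps have many repeated edges. -/
theorem L5_bad {K m : ℕ} (hK : 1 ≤ K) (y : Alt n) (e : ℕ → Bool) (h : ℕ → Alt n) (z : Lb K ↪ Fin n)
    (hnc : NoCanc y e h z (8 * m)) :
    m ≤ ((Finset.range (8 * m)).filter (fun s => 1 ≤ s ∧ K ≤ 4 * L5_J y e h z s)).card := by
  have h1 := L5_comb y e h z hnc
  obtain ⟨B, hB⟩ : ∃ B, B = (Finset.range (8 * m)).filter (fun s => 1 ≤ s ∧ K ≤ 4 * L5_J y e h z s) := ⟨_, rfl⟩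
  rw [← hB]
  have h2 : ∑ s ∈ Finset.range (8 * m), 4 * L5_J y e h z s ≤
      ∑ s ∈ Finset.range (8 * m), (K + if (1 ≤ s ∧ K ≤ 4 * L5_J y e h z s) then 8 * K else 0) := by
    refine Finset.sum_le_sum fun s _ => ?_
    have h3 := L5_J_le y e h z s
    by_cases hs : 1 ≤ s
    · by_cases hk : K ≤ 4 * L5_J y e h z s
      · rw [if_pos ⟨hs, hk⟩]; omega
      · rw [if_neg (fun h => hk h.2)]; omega
    · have h4 : s = 0 := by omega
      rw [if_neg (fun h => hs h.1), h4, L5_J_zero]
      omega
  rw [Finset.sum_add_distrib, ← Finset.sum_filter, ← hB, Finset.sum_const, Finset.sum_const, ← Finset.mul_sum,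
    Finset.card_range, smul_eq_mul, smul_eq_mul] at h2
  have h3 : K * (8 * m) ≤ K * (8 * B.card) := by
    have e1 : 8 * m * K = K * (8 * m) := by ring
    have e2 : B.card * (8 * K) = K * (8 * B.card) := by ring
    rw [e1, e2] at h2
    omega
  have h4 := Nat.le_of_mul_le_mul_left h3 (by omega)
  omega

open Classical in
theorem L5_step {K k : ℕ} (hK : 1 ≤ K) (hk1 : 1 ≤ k) (hk : k = 1 ∨ 8 * k ≤ K) (α : Alt n → ℝ) (hα : IsWt α)
    (hmix : MixOk α k) (c : Lb K ↪ Fin n) (U : Finset (Fin n)) (M : ℝ) (hU : (U.card : ℝ) ≤ M) :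
    ∑ g : Alt n, α g * (if K ≤ 4 * (Finset.univ.filter (fun l : Lb K => g • c l ∈ U)).card then (1 : ℝ) else 0) ≤
      2 * 16 ^ k * M ^ k / (n.descFactorial k : ℝ) := by
  obtain ⟨J, hJ⟩ : ∃ J : Alt n → ℕ, ∀ g, J g = (Finset.univ.filter (fun l : Lb K => g • c l ∈ U)).card := ⟨_, fun _ => rfl⟩
  obtain ⟨T, hT⟩ : ∃ T : Alt n → ℕ, ∀ g, T g = (Finset.univ.filter (fun t : Fin k ↪ Lb K => ∀ i, g • c (t i) ∈ U)).card :=
    ⟨_, fun _ => rfl⟩
  have hM0 : 0 ≤ M := le_trans (Nat.cast_nonneg _) hU
  -- the number of tuples of labels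
  have hTJ : ∀ g, (J g).descFactorial k ≤ T g := by
    intro g
    obtain ⟨S, hS⟩ : ∃ S, S = Finset.univ.filter (fun l : Lb K => g • c l ∈ U) := ⟨_, rfl⟩
    have h1 : (J g).descFactorial k = Fintype.card (Fin k ↪ S) := by
      rw [Fintype.card_embedding_eq, Fintype.card_coe, Fintype.card_fin, hJ, hS]
    rw [h1, hT, ← Finset.card_univ]
    refine Finset.card_le_card_of_injOn (fun t => t.trans (Function.Embedding.subtype _)) ?_ ?_
    · intro t _
      rw [Finset.mem_coe, Finset.mem_filter]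
      refine ⟨Finset.mem_univ _, fun i => ?_⟩
      have hm : ∀ l, l ∈ S → g • c l ∈ U := by
        intro l hl
        rw [hS, Finset.mem_filter] at hl
        exact hl.2
      exact hm _ (t i).2
    · intro t _ t' _ htt
      ext i : 2
      have h2 := DFunLike.congr_fun htt i
      exact h2
  have hlow : ∀ g, K ≤ 4 * J g → K ^ k ≤ 8 ^ k * T g := by
    intro g hg
    calc K ^ k ≤ (8 * (J g + 1 - k)) ^ k := by
          apply Nat.pow_le_pow_left
          rcases hk with hk | hk <;> omega
      _ = 8 ^ k * (J g + 1 - k) ^ k := mul_pow _ _ _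
      _ ≤ 8 ^ k * (J g).descFactorial k := Nat.mul_le_mul_left _ (Nat.pow_sub_le_descFactorial _ _)
      _ ≤ 8 ^ k * T g := Nat.mul_le_mul_left _ (hTJ g)
  -- the mean of the number of tuples
  have hmean : ∑ g, α g * (T g : ℝ) ≤ (2 * K : ℝ) ^ k * (M ^ k * (2 / (n.descFactorial k : ℝ))) := by
    have e1 : ∀ g, α g * (T g : ℝ) = ∑ t : Fin k ↪ Lb K, if (∀ i, g • c (t i) ∈ U) then α g else 0 := by
      intro g
      rw [hT, ← Finset.sum_filter, Finset.sum_const, nsmul_eq_mul, mul_comm]
    rw [Finset.sum_congr rfl (fun g _ => e1 g), Finset.sum_comm]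
    have e2 : ∀ t : Fin k ↪ Lb K, ∑ g, (if (∀ i, g • c (t i) ∈ U) then α g else 0) ≤
        M ^ k * (2 / (n.descFactorial k : ℝ)) := by
      intro t
      obtain ⟨V, hV⟩ : ∃ V : Finset (Tp n k), V = Finset.univ.filter (fun b => ∀ i, b i ∈ U) := ⟨_, rfl⟩
      have hVc : (V.card : ℝ) ≤ M ^ k := by
        have h1 : V.card ≤ U.card ^ k := by
          calc V.card ≤ (Fintype.piFinset (fun _ : Fin k => U)).card := by
                refine Finset.card_le_card_of_injOn (fun b => ⇑b) ?_ ?_
                · intro b hb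
                  rw [Finset.mem_coe, hV, Finset.mem_filter] at hb
                  rw [Finset.mem_coe, Fintype.mem_piFinset]
                  exact hb.2
                · intro b _ b' _ hbb
                  exact DFunLike.coe_injective hbb
            _ = U.card ^ k := by
                rw [Fintype.card_piFinset, Finset.prod_const, Finset.card_univ, Fintype.card_fin]
        calc (V.card : ℝ) ≤ (U.card : ℝ) ^ k := by exact_mod_cast h1
          _ ≤ M ^ k := pow_le_pow_left₀ (Nat.cast_nonneg _) hU k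
      have e3 : ∀ g, (if (∀ i, g • c (t i) ∈ U) then α g else 0) ≤
          ∑ b ∈ V, if g • (t.trans c : Tp n k) = b then α g else 0 := by
        intro g
        by_cases hg : ∀ i, g • c (t i) ∈ U
        · rw [if_pos hg]
          have h1 : g • (t.trans c : Tp n k) ∈ V := by
            rw [hV, Finset.mem_filter]
            exact ⟨Finset.mem_univ _, hg⟩
          rw [Finset.sum_ite_eq, if_pos h1]
        · rw [if_neg hg]
          refine Finset.sum_nonneg fun b _ => ?_
          split_ifs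
          · exact hα.1 g
          · exact le_refl _
      calc ∑ g, (if (∀ i, g • c (t i) ∈ U) then α g else 0)
          ≤ ∑ g, ∑ b ∈ V, (if g • (t.trans c : Tp n k) = b then α g else 0) := Finset.sum_le_sum fun g _ => e3 g
        _ = ∑ b ∈ V, ∑ g, (if g • (t.trans c : Tp n k) = b then α g else 0) := Finset.sum_comm
        _ ≤ ∑ b ∈ V, 2 / (n.descFactorial k : ℝ) := by
            refine Finset.sum_le_sum fun b _ => ?_
            rw [← Finset.sum_filter]
            exact hmix _ b
        _ = V.card * (2 / (n.descFactorial k : ℝ)) := by rw [Finset.sum_const, nsmul_eq_mul]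
        _ ≤ M ^ k * (2 / (n.descFactorial k : ℝ)) := mul_le_mul_of_nonneg_right hVc (by positivity)
    calc ∑ t : Fin k ↪ Lb K, ∑ g, (if (∀ i, g • c (t i) ∈ U) then α g else 0)
        ≤ ∑ t : Fin k ↪ Lb K, M ^ k * (2 / (n.descFactorial k : ℝ)) := Finset.sum_le_sum fun t _ => e2 t
      _ = (Fintype.card (Fin k ↪ Lb K) : ℝ) * (M ^ k * (2 / (n.descFactorial k : ℝ))) := by
          rw [Finset.sum_const, nsmul_eq_mul, Finset.card_univ]
      _ ≤ (2 * K : ℝ) ^ k * (M ^ k * (2 / (n.descFactorial k : ℝ))) := by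
          refine mul_le_mul_of_nonneg_right ?_ (by positivity)
          rw [Fintype.card_embedding_eq, Fintype.card_fin, Fintype.card_prod, Fintype.card_fin, Fintype.card_bool]
          have h1 := Nat.descFactorial_le_pow (K * 2) k
          have h2 : ((K * 2).descFactorial k : ℝ) ≤ ((K * 2 : ℕ) : ℝ) ^ k := by exact_mod_cast h1
          refine h2.trans (le_of_eq ?_)
          push_cast
          ring
  have hKp : (0 : ℝ) < (K : ℝ) ^ k := by
    have : (0 : ℝ) < K := by exact_mod_cast hK
    positivity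
  have hfin : (K : ℝ) ^ k * ∑ g : Alt n, α g * (if K ≤ 4 * (Finset.univ.filter (fun l : Lb K => g • c l ∈ U)).card
      then (1 : ℝ) else 0) ≤ (K : ℝ) ^ k * (2 * 16 ^ k * M ^ k / (n.descFactorial k : ℝ)) := by
    calc (K : ℝ) ^ k * ∑ g : Alt n, α g * (if K ≤ 4 * (Finset.univ.filter (fun l : Lb K => g • c l ∈ U)).card
          then (1 : ℝ) else 0)
        ≤ 8 ^ k * ∑ g, α g * (T g : ℝ) := by
          rw [Finset.mul_sum, Finset.mul_sum]
          refine Finset.sum_le_sum fun g _ => ?_
          rw [← hJ]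
          by_cases hg : K ≤ 4 * J g
          · rw [if_pos hg, mul_one]
            have h1 : ((K ^ k : ℕ) : ℝ) ≤ ((8 ^ k * T g : ℕ) : ℝ) := Nat.cast_le.2 (hlow g hg)
            push_cast at h1
            calc (K : ℝ) ^ k * α g ≤ (8 ^ k * (T g : ℝ)) * α g := mul_le_mul_of_nonneg_right h1 (hα.1 g)
              _ = 8 ^ k * (α g * (T g : ℝ)) := by ring
          · rw [if_neg hg, mul_zero, mul_zero]
            have h2 := hα.1 g
            positivity
      _ ≤ 8 ^ k * ((2 * K : ℝ) ^ k * (M ^ k * (2 / (n.descFactorial k : ℝ)))) :=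
          mul_le_mul_of_nonneg_left hmean (by positivity)
      _ = (K : ℝ) ^ k * (2 * 16 ^ k * M ^ k / (n.descFactorial k : ℝ)) := by
          rw [mul_pow]
          have h16 : (16 : ℝ) ^ k = 8 ^ k * 2 ^ k := by rw [← mul_pow]; norm_num
          rw [h16]
          ring
  exact le_of_mul_le_mul_left hfin hKp

theorem L5_Wd_congr (y : Alt n) (e : ℕ → Bool) (h h' : ℕ → Alt n) (s : ℕ) (hh : ∀ i, i ≤ s → h i = h' i) :
    Wd y e h s = Wd y e h' s := by
  induction s with
  | zero => exact hh 0 le_rfl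
  | succ s ih =>
    show h (s + 1) * yp y (e s) * Wd y e h s = h' (s + 1) * yp y (e s) * Wd y e h' s
    rw [hh (s + 1) le_rfl, ih (fun i hi => hh i (by omega))]

theorem L5_src_congr {K : ℕ} (y : Alt n) (e : ℕ → Bool) (h h' : ℕ → Alt n) (z : Lb K ↪ Fin n) (s : ℕ)
    (hh : ∀ i, i ≤ s → h i = h' i) (l : Lb K) : src y e h z s l = src y e h' z s l := by
  unfold src
  rw [L5_Wd_congr y e h h' s hh]

theorem L5_J_congr {K : ℕ} (y : Alt n) (e : ℕ → Bool) (h h' : ℕ → Alt n) (z : Lb K ↪ Fin n) (s : ℕ)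
    (hh : ∀ i, i ≤ s → h i = h' i) : L5_J y e h z s = L5_J y e h' z s := by
  unfold L5_J
  congr 1
  ext l
  simp only [Finset.mem_filter, Finset.mem_univ, true_and]
  rw [L5_src_congr y e h h' z s hh l]
  constructor
  · rintro ⟨s', hs', l', hl'⟩
    exact ⟨s', hs', l', by rw [← L5_src_congr y e h h' z s' (fun i hi => hh i (by omega)) l']; exact hl'⟩
  · rintro ⟨s', hs', l', hl'⟩
    exact ⟨s', hs', l', by rw [L5_src_congr y e h h' z s' (fun i hi => hh i (by omega)) l']; exact hl'⟩

open Classical in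
theorem L5_one {K k N : ℕ} (hK : 1 ≤ K) (hk1 : 1 ≤ k) (hk : k = 1 ∨ 8 * k ≤ K) (y : Alt n) (e : ℕ → Bool)
    (z : Lb K ↪ Fin n) (α : Alt n → ℝ) (hα : IsWt α) (hmix : MixOk α k) (h : ℕ → Alt n) (s : ℕ) (hs1 : 1 ≤ s)
    (hsN : s ≤ N) :
    ∑ g : Alt n, α g * (if K ≤ 4 * L5_J y e (Function.update h s g) z s then (1 : ℝ) else 0) ≤ bet n K k N := by
  obtain ⟨s', rfl⟩ : ∃ s', s = s' + 1 := ⟨s - 1, by omega⟩
  obtain ⟨V, hV⟩ : ∃ V : Alt n, V = yp y (e s') * Wd y e h s' := ⟨_, rfl⟩
  obtain ⟨c, hc⟩ : ∃ c : Lb K ↪ Fin n, ∀ l, c l = V • z l :=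
    ⟨z.trans ⟨fun p => V • p, MulAction.injective V⟩, fun _ => rfl⟩
  obtain ⟨U0, hU0⟩ : ∃ U0 : Finset (Fin n), U0 = (Finset.range (s' + 1) ×ˢ (Finset.univ : Finset (Lb K))).image
    (fun p => src y e h z p.1 p.2) := ⟨_, rfl⟩
  obtain ⟨U, hU⟩ : ∃ U : Finset (Fin n), U = if e (s' + 1) then U0 else U0.image (fun p => y • p) := ⟨_, rfl⟩
  have hcard : U.card ≤ 2 * K * N := by
    have h1 : U0.card ≤ 2 * K * N := by
      rw [hU0]
      refine Finset.card_image_le.trans ?_
      rw [Finset.card_product, Finset.card_range, Finset.card_univ, Fintype.card_prod, Fintype.card_fin,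
        Fintype.card_bool]
      calc (s' + 1) * (K * 2) ≤ N * (K * 2) := Nat.mul_le_mul_right _ hsN
        _ = 2 * K * N := by ring
    rw [hU]
    split_ifs
    · exact h1
    · exact Finset.card_image_le.trans h1
  have hcard' : (U.card : ℝ) ≤ 2 * K * N := by exact_mod_cast hcard
  have hWd : ∀ g, Wd y e (Function.update h (s' + 1) g) (s' + 1) = g * V := by
    intro g
    show Function.update h (s' + 1) g (s' + 1) * yp y (e s') * Wd y e (Function.update h (s' + 1) g) s' = g * V
    rw [Function.update_self, L5_Wd_congr y e (Function.update h (s' + 1) g) h s' (fun i hi => by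
      rw [Function.update_of_ne (by omega)]), hV, mul_assoc]
  have hJ : ∀ g, L5_J y e (Function.update h (s' + 1) g) z (s' + 1) =
      (Finset.univ.filter (fun l : Lb K => g • c l ∈ U)).card := by
    intro g
    unfold L5_J
    congr 1
    ext l
    simp only [Finset.mem_filter, Finset.mem_univ, true_and]
    have h1 : (∃ s'_1, s'_1 < s' + 1 ∧ ∃ l', src y e (Function.update h (s' + 1) g) z s'_1 l' =
        src y e (Function.update h (s' + 1) g) z (s' + 1) l) ↔
        src y e (Function.update h (s' + 1) g) z (s' + 1) l ∈ U0 := by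
      rw [hU0, Finset.mem_image]
      constructor
      · rintro ⟨t, ht, l', hl'⟩
        refine ⟨(t, l'), ?_, ?_⟩
        · rw [Finset.mem_product]
          exact ⟨Finset.mem_range.2 ht, Finset.mem_univ _⟩
        · rw [← hl']
          exact L5_src_congr y e h _ z t (fun i hi => by rw [Function.update_of_ne (by omega)]) l'
      · rintro ⟨⟨t, l'⟩, ht, hl'⟩
        rw [Finset.mem_product, Finset.mem_range] at ht
        refine ⟨t, ht.1, l', ?_⟩
        rw [← hl']
        exact (L5_src_congr y e h _ z t (fun i hi => by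
          have := ht.1
          simp only at this
          rw [Function.update_of_ne (by omega)]) l').symm
    rw [h1]
    have h2 : (g * V) • z l = g • c l := by
      rw [hc, mul_smul]
    unfold src
    rw [hWd, h2, hU]
    by_cases he : e (s' + 1) = true
    · rw [if_pos he, if_pos he]
    · rw [if_neg he, if_neg he, Finset.mem_image]
      constructor
      · intro h3
        exact ⟨_, h3, by rw [smul_inv_smul]⟩
      · rintro ⟨p, hp, hp2⟩
        rw [← hp2, inv_smul_smul]
        exact hp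
  have h3 := L5_step hK hk1 hk α hα hmix c U (2 * K * N) hcard'
  unfold bet
  refine le_trans (le_of_eq ?_) h3
  exact Finset.sum_congr rfl fun g _ => by rw [hJ]

theorem L5_ext1_snoc {N : ℕ} (h : Fin N → Alt n) (g : Alt n) :
    ext1 (Fin.snoc h g : Fin (N + 1) → Alt n) = Function.update (ext1 h) N g := by
  funext i
  unfold ext1
  by_cases hi : i = N
  · subst hi
    rw [Function.update_self, dif_pos (Nat.lt_succ_self _)]
    have h1 : (⟨i, Nat.lt_succ_self i⟩ : Fin (i + 1)) = Fin.last i := rfl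
    rw [h1, Fin.snoc_last]
  · rw [Function.update_of_ne hi]
    by_cases hi2 : i < N
    · rw [dif_pos hi2, dif_pos (by omega)]
      have h1 : (⟨i, by omega⟩ : Fin (N + 1)) = Fin.castSucc ⟨i, hi2⟩ := rfl
      rw [h1, Fin.snoc_castSucc]
    · rw [dif_neg hi2, dif_neg (by omega)]

theorem L5_prod (a : ℕ → Alt n → ℝ) (ha : ∀ s, IsWt (a s)) (φ : ℕ → (ℕ → Alt n) → ℝ) (h0 : ∀ s h, 0 ≤ φ s h)
    (hc : ∀ s h h', (∀ i, i ≤ s → h i = h' i) → φ s h = φ s h') (C : ℕ → ℝ) (hC0 : ∀ s, 0 ≤ C s)
    (hC : ∀ s h, ∑ g, a s g * φ s (Function.update h s g) ≤ C s) (N : ℕ) :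
    ∑ h : Fin N → Alt n, (∏ i : Fin N, a (i : ℕ) (h i)) * ∏ s ∈ Finset.range N, φ s (ext1 h) ≤
      ∏ s ∈ Finset.range N, C s := by
  induction N with
  | zero => simp
  | succ N ih =>
    rw [← (Fin.snocEquiv (fun _ : Fin (N + 1) => Alt n)).sum_comp, Fintype.sum_prod_type, Finset.sum_comm]
    have h1 : ∀ h : Fin N → Alt n, ∑ g : Alt n, (∏ i : Fin (N + 1), a (i : ℕ) (Fin.snocEquiv (fun _ : Fin (N + 1) => Alt n) (g, h) i)) *
        ∏ s ∈ Finset.range (N + 1), φ s (ext1 (Fin.snocEquiv (fun _ : Fin (N + 1) => Alt n) (g, h))) ≤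
        ((∏ i : Fin N, a (i : ℕ) (h i)) * ∏ s ∈ Finset.range N, φ s (ext1 h)) * C N := by
      intro h
      have e1 : ∀ g : Alt n, (∏ i : Fin (N + 1), a (i : ℕ) (Fin.snocEquiv (fun _ : Fin (N + 1) => Alt n) (g, h) i)) *
          ∏ s ∈ Finset.range (N + 1), φ s (ext1 (Fin.snocEquiv (fun _ : Fin (N + 1) => Alt n) (g, h))) =
          ((∏ i : Fin N, a (i : ℕ) (h i)) * ∏ s ∈ Finset.range N, φ s (ext1 h)) *
            (a N g * φ N (Function.update (ext1 h) N g)) := by
        intro g
        have e2 : (Fin.snocEquiv (fun _ : Fin (N + 1) => Alt n) (g, h)) = (Fin.snoc h g : Fin (N + 1) → Alt n) := rfl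
        rw [e2, Fin.prod_univ_castSucc, Finset.prod_range_succ, L5_ext1_snoc]
        have e3 : ∏ i : Fin N, a ((Fin.castSucc i : Fin (N + 1)) : ℕ) ((Fin.snoc h g : Fin (N + 1) → Alt n) (Fin.castSucc i)) =
            ∏ i : Fin N, a (i : ℕ) (h i) := by
          refine Finset.prod_congr rfl fun i _ => ?_
          rw [Fin.snoc_castSucc]
          rfl
        have e4 : ∏ s ∈ Finset.range N, φ s (Function.update (ext1 h) N g) = ∏ s ∈ Finset.range N, φ s (ext1 h) := by
          refine Finset.prod_congr rfl fun s hs => ?_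
          rw [Finset.mem_range] at hs
          exact hc s _ _ fun i hi => by rw [Function.update_of_ne (by omega)]
        rw [e3, e4, Fin.snoc_last, Fin.val_last]
        ring
      rw [Finset.sum_congr rfl (fun g _ => e1 g), ← Finset.mul_sum]
      refine mul_le_mul_of_nonneg_left (hC N _) ?_
      exact mul_nonneg (Finset.prod_nonneg fun i _ => (ha _).1 _) (Finset.prod_nonneg fun s _ => h0 s _)
    refine (Finset.sum_le_sum fun h _ => h1 h).trans ?_
    rw [← Finset.sum_mul, Finset.prod_range_succ]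
    exact mul_le_mul_of_nonneg_right ih (hC0 N)

open Classical in
theorem L5 {K k m : ℕ} (hK : 1 ≤ K) (hk1 : 1 ≤ k) (hk : k = 1 ∨ 8 * k ≤ K) (hkn : k ≤ n) (y : Alt n) (e : ℕ → Bool)
    (z : Lb K ↪ Fin n) (a : ℕ → Alt n → ℝ) (ha : ∀ s, IsWt (a s)) (hmix : ∀ s, 1 ≤ s → s < 8 * m → MixOk (a s) k) :
    ∑ h : Fin (8 * m + 1) → Alt n, (∏ i : Fin (8 * m + 1), a (i : ℕ) (h i)) * (if NoCanc y e (ext1 h) z (8 * m) then (1 : ℝ) else 0) ≤
      2 ^ (8 * m) * bet n K k (8 * m) ^ m := by
  obtain ⟨β, hβ⟩ : ∃ β, β = bet n K k (8 * m) := ⟨_, rfl⟩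
  rw [← hβ]
  have hdf : (0 : ℝ) < (n.descFactorial k : ℝ) := by
    exact_mod_cast Nat.descFactorial_pos.2 hkn
  have hβ0 : 0 ≤ β := by
    rw [hβ]
    unfold bet
    positivity
  by_cases hcase : m = 0 ∨ 1 ≤ β
  · have h1 := L5_prod a ha (fun _ _ => 1) (fun _ _ => zero_le_one) (fun _ _ _ _ => rfl) (fun _ => 1)
      (fun _ => zero_le_one) (fun s h => by
        simp only [mul_one]
        exact (ha s).2.le) (8 * m + 1)
    simp only [Finset.prod_const_one, mul_one] at h1
    have h2 : ∑ h : Fin (8 * m + 1) → Alt n, (∏ i : Fin (8 * m + 1), a (i : ℕ) (h i)) *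
        (if NoCanc y e (ext1 h) z (8 * m) then (1 : ℝ) else 0) ≤
        ∑ h : Fin (8 * m + 1) → Alt n, (∏ i : Fin (8 * m + 1), a (i : ℕ) (h i)) := by
      refine Finset.sum_le_sum fun h _ => ?_
      refine mul_le_of_le_one_right (Finset.prod_nonneg fun i _ => (ha _).1 _) ?_
      split_ifs <;> norm_num
    refine h2.trans (h1.trans ?_)
    rcases hcase with h3 | h3
    · subst h3
      simp
    · have h4 : (1 : ℝ) ≤ 2 ^ (8 * m) := one_le_pow₀ (by norm_num)
      have h5 : (1 : ℝ) ≤ β ^ m := one_le_pow₀ h3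
      nlinarith
  · push Not at hcase
    obtain ⟨hm, hβ1⟩ := hcase
    have hβp : 0 < β := by
      rw [hβ]
      unfold bet
      have h1 : (0 : ℝ) < K := by exact_mod_cast hK
      have h2 : (0 : ℝ) < ((8 * m : ℕ) : ℝ) := by
        have : 0 < 8 * m := by omega
        exact_mod_cast this
      positivity
    have hinv : 1 ≤ β⁻¹ := (one_le_inv₀ hβp).2 hβ1.le
    obtain ⟨φ, hφ⟩ : ∃ φ : ℕ → (ℕ → Alt n) → ℝ, ∀ s h, φ s h = if (1 ≤ s ∧ s < 8 * m) ∧ K ≤ 4 * L5_J y e h z s then β⁻¹ else 1 :=
      ⟨_, fun _ _ => rfl⟩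
    have h1 := L5_prod a ha φ (fun s h => by
        rw [hφ]
        split_ifs
        · exact inv_nonneg.2 hβ0
        · exact zero_le_one)
      (fun s h h' hh => by
        rw [hφ, hφ, L5_J_congr y e h h' z s hh])
      (fun s => if s = 0 then 1 else 2) (fun s => by
        show (0 : ℝ) ≤ if s = 0 then 1 else 2
        split_ifs <;> norm_num) (fun s h => by
        show _ ≤ if s = 0 then (1 : ℝ) else 2
        by_cases hs : 1 ≤ s ∧ s < 8 * m
        · rw [if_neg (by omega)]
          have h2 := L5_one hK hk1 hk y e z (a s) (ha s) (hmix s hs.1 hs.2) h s hs.1 hs.2.le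
          rw [← hβ] at h2
          calc ∑ g, a s g * φ s (Function.update h s g)
              ≤ ∑ g, (a s g + β⁻¹ * (a s g * (if K ≤ 4 * L5_J y e (Function.update h s g) z s then (1 : ℝ) else 0))) := by
                refine Finset.sum_le_sum fun g _ => ?_
                have h3 := (ha s).1 g
                rw [hφ]
                by_cases hb : K ≤ 4 * L5_J y e (Function.update h s g) z s
                · rw [if_pos ⟨hs, hb⟩, if_pos hb]
                  nlinarith
                · rw [if_neg (fun h => hb h.2), if_neg hb]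
                  simp
            _ = 1 + β⁻¹ * ∑ g, a s g * (if K ≤ 4 * L5_J y e (Function.update h s g) z s then (1 : ℝ) else 0) := by
                rw [Finset.sum_add_distrib, ← Finset.mul_sum, (ha s).2]
            _ ≤ 1 + β⁻¹ * β := by
                have := mul_le_mul_of_nonneg_left h2 (inv_nonneg.2 hβ0)
                linarith
            _ = 2 := by rw [inv_mul_cancel₀ hβp.ne']; norm_num
        · have h2 : ∑ g, a s g * φ s (Function.update h s g) = 1 := by
            rw [← (ha s).2]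
            refine Finset.sum_congr rfl fun g _ => ?_
            rw [hφ, if_neg (fun h => hs h.1), mul_one]
          rw [h2]
          split_ifs <;> norm_num) (8 * m + 1)
    have h2 : ∏ s ∈ Finset.range (8 * m + 1), (if s = 0 then (1 : ℝ) else 2) = 2 ^ (8 * m) := by
      rw [Finset.prod_range_succ']
      simp
    rw [h2] at h1
    have h3 : ∀ h : Fin (8 * m + 1) → Alt n, (if NoCanc y e (ext1 h) z (8 * m) then (1 : ℝ) else 0) ≤
        β ^ m * ∏ s ∈ Finset.range (8 * m + 1), φ s (ext1 h) := by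
      intro h
      have h4 : ∏ s ∈ Finset.range (8 * m + 1), φ s (ext1 h) = β⁻¹ ^ ((Finset.range (8 * m + 1)).filter
          (fun s => (1 ≤ s ∧ s < 8 * m) ∧ K ≤ 4 * L5_J y e (ext1 h) z s)).card := by
        rw [← Finset.prod_const, Finset.prod_filter]
        exact Finset.prod_congr rfl fun s _ => hφ s _
      rw [h4]
      by_cases hnc : NoCanc y e (ext1 h) z (8 * m)
      · rw [if_pos hnc]
        have h5 := L5_bad hK y e (ext1 h) z hnc
        have h6 : m ≤ ((Finset.range (8 * m + 1)).filter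
          (fun s => (1 ≤ s ∧ s < 8 * m) ∧ K ≤ 4 * L5_J y e (ext1 h) z s)).card := by
          refine h5.trans (Finset.card_le_card ?_)
          intro s hs
          rw [Finset.mem_filter, Finset.mem_range] at hs ⊢
          exact ⟨by omega, ⟨hs.2.1, hs.1⟩, hs.2.2⟩
        have h7 : β⁻¹ ^ m ≤ β⁻¹ ^ ((Finset.range (8 * m + 1)).filter
          (fun s => (1 ≤ s ∧ s < 8 * m) ∧ K ≤ 4 * L5_J y e (ext1 h) z s)).card := pow_le_pow_right₀ hinv h6
        calc (1 : ℝ) = β ^ m * β⁻¹ ^ m := by rw [← mul_pow, mul_inv_cancel₀ hβp.ne', one_pow]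
          _ ≤ _ := mul_le_mul_of_nonneg_left h7 (by positivity)
      · rw [if_neg hnc]
        positivity
    calc ∑ h : Fin (8 * m + 1) → Alt n, (∏ i : Fin (8 * m + 1), a (i : ℕ) (h i)) *
          (if NoCanc y e (ext1 h) z (8 * m) then (1 : ℝ) else 0)
        ≤ ∑ h : Fin (8 * m + 1) → Alt n, β ^ m * ((∏ i : Fin (8 * m + 1), a (i : ℕ) (h i)) *
          ∏ s ∈ Finset.range (8 * m + 1), φ s (ext1 h)) := by
          refine Finset.sum_le_sum fun h _ => ?_
          calc (∏ i : Fin (8 * m + 1), a (i : ℕ) (h i)) * (if NoCanc y e (ext1 h) z (8 * m) then (1 : ℝ) else 0)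
              ≤ (∏ i : Fin (8 * m + 1), a (i : ℕ) (h i)) * (β ^ m * ∏ s ∈ Finset.range (8 * m + 1), φ s (ext1 h)) :=
                mul_le_mul_of_nonneg_left (h3 h) (Finset.prod_nonneg fun i _ => (ha _).1 _)
            _ = _ := by ring
      _ = β ^ m * ∑ h : Fin (8 * m + 1) → Alt n, ((∏ i : Fin (8 * m + 1), a (i : ℕ) (h i)) *
          ∏ s ∈ Finset.range (8 * m + 1), φ s (ext1 h)) := by rw [Finset.mul_sum]
      _ ≤ β ^ m * 2 ^ (8 * m) := mul_le_mul_of_nonneg_left h1 (by positivity)
      _ = 2 ^ (8 * m) * β ^ m := mul_comm _ _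

end Pool.Agent.BC5
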