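import Pool.Agent.Lib.MP_bc5a73_al.Lift.Ops
import Pool.Agent.Lib.MP_bc5a73_al.Lift.L2

/-! # Mixing of tuples (MP_bc5a73_al) -/

set_option autoImplicit false
set_option linter.unusedSectionVars false
open scoped BigOperators Matrix
open Matrix
namespace Pool.Agent.BC5

section
variable {G X : Type} [Group G] [MulAction G X] [DecidableEq X] [Fintype X]

theorem Pm_dot (g : G) (f : X → ℝ) : ((Pm g : Matrix X X ℝ) *ᵥ f) ⬝ᵥ ((Pm g : Matrix X X ℝ) *ᵥ f) = f ⬝ᵥ f := by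
  rw [Matrix.dotProduct_mulVec, Matrix.vecMul_mulVec, Pm_inv_mul, Matrix.vecMul_one]

theorem abs_dot_le (u v : X → ℝ) (c : ℝ) (hc : 0 ≤ c) (hu : u ⬝ᵥ u ≤ c) (hv : v ⬝ᵥ v ≤ c) : |u ⬝ᵥ v| ≤ c := by
  have h1 : (u ⬝ᵥ v) ^ 2 ≤ (u ⬝ᵥ u) * (v ⬝ᵥ v) := by
    have := Finset.sum_mul_sq_le_sq_mul_sq Finset.univ u v
    simp only [dotProduct]
    simp_rw [← sq]
    exact this
  have h0 : 0 ≤ u ⬝ᵥ u := dot_self_nonneg u
  have h0' : 0 ≤ v ⬝ᵥ v := dot_self_nonneg v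
  have h2 : (u ⬝ᵥ v) ^ 2 ≤ c ^ 2 := h1.trans (by nlinarith)
  exact abs_le_of_sq_le_sq h2 hc

theorem abs_qf_Pm_le (g : G) (f : X → ℝ) : |qf (Pm g : Matrix X X ℝ) f| ≤ f ⬝ᵥ f :=
  abs_dot_le _ _ _ (dot_self_nonneg f) le_rfl (Pm_dot g f).le

theorem abs_qf_Sp_le (g : G) (f : X → ℝ) : |qf (Sp g : Matrix X X ℝ) f| ≤ f ⬝ᵥ f := by
  unfold Sp
  rw [qf_smul, qf_add, abs_mul, abs_of_nonneg (by norm_num : (0 : ℝ) ≤ 1 / 2)]
  have h1 := abs_qf_Pm_le g f
  have h2 := abs_qf_Pm_le g⁻¹ f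
  have h3 := abs_add_le (qf (Pm g : Matrix X X ℝ) f) (qf (Pm g⁻¹ : Matrix X X ℝ) f)
  linarith

theorem abs_qf_Ap_le {ι : Type} [Fintype ι] {w : ι → ℝ} (hw : IsWt w) (x : ι → G) (f : X → ℝ) :
    |qf (Ap w x : Matrix X X ℝ) f| ≤ f ⬝ᵥ f := by
  unfold Ap
  rw [qf_sum]
  refine (Finset.abs_sum_le_sum_abs _ _).trans ?_
  have h1 : ∀ i ∈ Finset.univ, |qf (w i • (Sp (x i) : Matrix X X ℝ)) f| ≤ w i * (f ⬝ᵥ f) := by
    intro i _
    rw [qf_smul, abs_mul, abs_of_nonneg (hw.1 i)]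
    exact mul_le_mul_of_nonneg_left (abs_qf_Sp_le _ _) (hw.1 i)
  refine (Finset.sum_le_sum h1).trans ?_
  rw [← Finset.sum_mul, hw.2, one_mul]

theorem Pm_const (g : G) (c : ℝ) : (Pm g : Matrix X X ℝ) *ᵥ (fun _ => c) = fun _ => c := by
  funext a
  rw [Pm_mulVec]

theorem Ap_const {ι : Type} [Fintype ι] {w : ι → ℝ} (hw : IsWt w) (x : ι → G) (c : ℝ) :
    (Ap w x : Matrix X X ℝ) *ᵥ (fun _ => c) = fun _ => c := by
  unfold Ap Sp
  rw [Matrix.sum_mulVec]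
  have h1 : ∀ i, (w i • ((1 / 2 : ℝ) • ((Pm (x i) : Matrix X X ℝ) + Pm (x i)⁻¹))) *ᵥ (fun _ : X => c) = fun _ => w i * c := by
    intro i
    rw [Matrix.smul_mulVec, Matrix.smul_mulVec, Matrix.add_mulVec, Pm_const, Pm_const]
    funext a
    simp only [Pi.smul_apply, Pi.add_apply, smul_eq_mul]
    ring
  rw [Finset.sum_congr rfl fun i _ => h1 i]
  funext a
  rw [Finset.sum_apply, ← Finset.sum_mul, hw.2, one_mul]

/-- The lazy operator. -/
noncomputable def Tz {ι : Type} [Fintype ι] (w : ι → ℝ) (x : ι → G) : Matrix X X ℝ := (1 / 2 : ℝ) • (1 + Ap w x)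

theorem Tz_transpose {ι : Type} [Fintype ι] (w : ι → ℝ) (x : ι → G) : (Tz w x : Matrix X X ℝ)ᵀ = Tz w x := by
  unfold Tz
  rw [Matrix.transpose_smul, Matrix.transpose_add, Matrix.transpose_one, Ap_transpose]

theorem qf_Tz {ι : Type} [Fintype ι] (w : ι → ℝ) (x : ι → G) (f : X → ℝ) :
    qf (Tz w x : Matrix X X ℝ) f = 1 / 2 * (f ⬝ᵥ f + qf (Ap w x) f) := by
  unfold Tz
  rw [qf_smul, qf_add, qf_one]

theorem qf_Tz_nonneg {ι : Type} [Fintype ι] {w : ι → ℝ} (hw : IsWt w) (x : ι → G) (f : X → ℝ) :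
    0 ≤ qf (Tz w x : Matrix X X ℝ) f := by
  rw [qf_Tz]
  have := (abs_le.1 (abs_qf_Ap_le hw x f)).1
  linarith

theorem qf_Tz_le {ι : Type} [Fintype ι] {w : ι → ℝ} (hw : IsWt w) (x : ι → G) (f : X → ℝ) :
    qf (Tz w x : Matrix X X ℝ) f ≤ f ⬝ᵥ f := by
  rw [qf_Tz]
  have := (abs_le.1 (abs_qf_Ap_le hw x f)).2
  linarith

theorem Tz_const {ι : Type} [Fintype ι] {w : ι → ℝ} (hw : IsWt w) (x : ι → G) (c : ℝ) :
    (Tz w x : Matrix X X ℝ) *ᵥ (fun _ => c) = fun _ => c := by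
  unfold Tz
  rw [Matrix.smul_mulVec, Matrix.add_mulVec, Matrix.one_mulVec, Ap_const hw]
  funext a
  simp only [Pi.smul_apply, Pi.add_apply, smul_eq_mul]
  ring

theorem Tz_pow_const {ι : Type} [Fintype ι] {w : ι → ℝ} (hw : IsWt w) (x : ι → G) (c : ℝ) (t : ℕ) :
    ((Tz w x : Matrix X X ℝ) ^ t) *ᵥ (fun _ => c) = fun _ => c := by
  induction t with
  | zero => rw [pow_zero, Matrix.one_mulVec]
  | succ t ih => rw [pow_succ, ← Matrix.mulVec_mulVec, Tz_const hw, ih]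

theorem entry_le (T : Matrix X X ℝ) (hT : Tᵀ = T) (θ : ℝ) (hθ : 0 ≤ θ) (h0 : ∀ v, 0 ≤ qf T v)
    (h1 : ∀ v, qf T v ≤ θ * (v ⬝ᵥ v)) (t : ℕ) (b c : X) : (T ^ t) b c ≤ θ ^ t := by
  obtain ⟨U, d, hU1, hU2, hTU⟩ := L2_spec T hT
  have hsingle : ∀ i, ∑ j, d j * (Pi.single i (1 : ℝ) : X → ℝ) j ^ 2 = d i := by
    intro i
    rw [Finset.sum_eq_single i]
    · simp
    · intro j _ hj
      rw [Pi.single_eq_of_ne hj]
      ring
    · intro h
      exact absurd (Finset.mem_univ i) h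
  have hd : ∀ i, 0 ≤ d i ∧ d i ≤ θ := by
    intro i
    have h2 := h0 (U *ᵥ (Pi.single i 1))
    have h3 := h1 (U *ᵥ (Pi.single i 1))
    rw [L2_dot hU1] at h3
    rw [hTU, L2_qf, Matrix.mulVec_mulVec, hU2, Matrix.one_mulVec, hsingle] at h2 h3
    refine ⟨h2, h3.trans ?_⟩
    have : ∑ j, (Pi.single i (1 : ℝ) : X → ℝ) j ^ 2 = 1 := by
      rw [Finset.sum_eq_single i]
      · simp
      · intro j _ hj
        rw [Pi.single_eq_of_ne hj]
        ring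
      · intro h
        exact absurd (Finset.mem_univ i) h
    rw [this, mul_one]
  have hrow : ∀ b, ∑ i, U b i ^ 2 = 1 := by
    intro b
    have h2 := congrFun (congrFun hU1 b) b
    rw [Matrix.mul_apply, Matrix.one_apply_eq] at h2
    rw [← h2]
    exact Finset.sum_congr rfl fun i _ => by rw [Matrix.transpose_apply]; ring
  have hentry : (T ^ t) b c = ∑ i, U b i * d i ^ t * U c i := by
    rw [hTU, L3_pow hU2 hU1, Matrix.mul_apply]
    refine Finset.sum_congr rfl fun i _ => ?_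
    rw [Matrix.mul_diagonal, Matrix.transpose_apply]
  rw [hentry]
  have h4 : ∀ i ∈ Finset.univ, U b i * d i ^ t * U c i ≤ θ ^ t * ((U b i ^ 2 + U c i ^ 2) / 2) := by
    intro i _
    have h5 : d i ^ t ≤ θ ^ t := pow_le_pow_left₀ (hd i).1 (hd i).2 t
    have h6 : 0 ≤ d i ^ t := pow_nonneg (hd i).1 t
    have h7 : U b i * U c i ≤ (U b i ^ 2 + U c i ^ 2) / 2 := by nlinarith [sq_nonneg (U b i - U c i)]
    have h8 : 0 ≤ (U b i ^ 2 + U c i ^ 2) / 2 := by positivity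
    calc U b i * d i ^ t * U c i = d i ^ t * (U b i * U c i) := by ring
      _ ≤ d i ^ t * ((U b i ^ 2 + U c i ^ 2) / 2) := mul_le_mul_of_nonneg_left h7 h6
      _ ≤ _ := mul_le_mul_of_nonneg_right h5 h8
  refine (Finset.sum_le_sum h4).trans ?_
  rw [← Finset.mul_sum, ← Finset.sum_div, Finset.sum_add_distrib, hrow, hrow]
  linarith

end

/-- L7b. Mixing of `k`-tuples. -/
theorem L7b {n : ℕ} {ι : Type} [Fintype ι] {w : ι → ℝ} (hw : IsWt w) (x : ι → Alt n) (ε : ℝ) (hε : 0 < ε)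
    (hε1 : ε ≤ 1) (k : ℕ) (hk : k ≤ n) (h : PGap w x ε k) (t : ℕ) (ht : (1 - ε / 2) ^ t * (n : ℝ) ^ k ≤ 1)
    (α : Alt n → ℝ) (hα : (opm α : Matrix (Tp n k) (Tp n k) ℝ) = ((1 / 2 : ℝ) • (1 + Ap w x)) ^ t) : MixOk α k := by
  classical
  intro c b
  have hα' : (opm α : Matrix (Tp n k) (Tp n k) ℝ) = (Tz w x) ^ t := hα
  have hcard : Fintype.card (Tp n k) = n.descFactorial k := by
    rw [Fintype.card_embedding_eq, Fintype.card_fin, Fintype.card_fin]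
  have hpos : 0 < n.descFactorial k := Nat.descFactorial_pos.2 hk
  have hNpos : (0 : ℝ) < (n.descFactorial k : ℝ) := by exact_mod_cast hpos
  have hNle : (n.descFactorial k : ℝ) ≤ (n : ℝ) ^ k := by exact_mod_cast Nat.descFactorial_le_pow n k
  have hsum : ∑ g ∈ Finset.univ.filter (fun g : Alt n => g • c = b), α g = ((Tz w x : Matrix (Tp n k) (Tp n k) ℝ) ^ t) b c := by
    rw [← hα', opm, Matrix.sum_apply, Finset.sum_filter]
    refine Finset.sum_congr rfl fun g _ => ?_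
    rw [Matrix.smul_apply, smul_eq_mul]
    by_cases hg : g • c = b
    · have h1 : (Pm g : Matrix (Tp n k) (Tp n k) ℝ) b c = 1 := if_pos hg.symm
      rw [if_pos hg, h1, mul_one]
    · have h1 : (Pm g : Matrix (Tp n k) (Tp n k) ℝ) b c = 0 := if_neg (fun hh => hg hh.symm)
      rw [if_neg hg, h1, mul_zero]
  rw [hsum]
  have hθ : 0 ≤ 1 - ε / 2 := by linarith
  have hpow : (1 - ε / 2) ^ t ≤ 1 / (n.descFactorial k : ℝ) := by
    rw [le_div_iff₀ hNpos]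
    exact (mul_le_mul_of_nonneg_left hNle (pow_nonneg hθ t)).trans ht
  rcases Nat.eq_zero_or_pos t with rfl | htpos
  · rw [pow_zero, Matrix.one_apply]
    rw [pow_zero] at hpow
    have h2 : (1 : ℝ) ≤ 2 / (n.descFactorial k : ℝ) := by
      rw [div_eq_mul_one_div]
      linarith
    split_ifs
    · exact h2
    · positivity
  -- subtract the projection on the constants
  obtain ⟨J, hJ⟩ : ∃ J : Matrix (Tp n k) (Tp n k) ℝ, J = Matrix.of fun _ _ => 1 / (n.descFactorial k : ℝ) := ⟨_, rfl⟩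
  have hJv : ∀ f : Tp n k → ℝ, J *ᵥ f = fun _ => (1 / (n.descFactorial k : ℝ)) * ∑ a, f a := by
    intro f
    funext a
    rw [hJ, Matrix.mulVec, dotProduct, Finset.mul_sum]
    rfl
  have hJt : Jᵀ = J := by rw [hJ]; rfl
  have hTJ : (Tz w x : Matrix (Tp n k) (Tp n k) ℝ) * J = J := by
    ext a a'
    have h2 := congrFun (Tz_const (X := Tp n k) hw x (1 / (n.descFactorial k : ℝ))) a
    rw [Matrix.mulVec, dotProduct] at h2
    rw [Matrix.mul_apply, hJ]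
    exact h2
  have hJT : J * (Tz w x : Matrix (Tp n k) (Tp n k) ℝ) = J := by
    have h2 := congrArg Matrix.transpose hTJ
    rwa [Matrix.transpose_mul, hJt, Tz_transpose] at h2
  have hJJ : J * J = J := by
    ext a a'
    rw [Matrix.mul_apply, hJ]
    simp only [Matrix.of_apply]
    rw [Finset.sum_const, Finset.card_univ, hcard, nsmul_eq_mul]
    field_simp
  have hpowJ : ∀ s : ℕ, 1 ≤ s → ((Tz w x : Matrix (Tp n k) (Tp n k) ℝ) - J) ^ s = (Tz w x) ^ s - J := by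
    intro s hs
    induction s, hs using Nat.le_induction with
    | base => rw [pow_one, pow_one]
    | succ s hs ih =>
      have hTsJ : (Tz w x : Matrix (Tp n k) (Tp n k) ℝ) ^ s * J = J := by
        clear ih hs
        induction s with
        | zero => rw [pow_zero, one_mul]
        | succ s ihs => rw [pow_succ, mul_assoc, hTJ, ihs]
      rw [pow_succ, ih, sub_mul, mul_sub, mul_sub, hTsJ, hJT, hJJ, ← pow_succ]
      abel
  have hsplit : ∀ v : Tp n k → ℝ, qf ((Tz w x : Matrix (Tp n k) (Tp n k) ℝ) - J) v =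
      qf (Tz w x) (v - J *ᵥ v) := by
    intro v
    have h2 : (Tz w x : Matrix (Tp n k) (Tp n k) ℝ) *ᵥ (v - J *ᵥ v) = (Tz w x) *ᵥ v - J *ᵥ v := by
      rw [Matrix.mulVec_sub, Matrix.mulVec_mulVec, hTJ]
    have h3 : (J *ᵥ v) ⬝ᵥ ((Tz w x : Matrix (Tp n k) (Tp n k) ℝ) *ᵥ v - J *ᵥ v) = 0 := by
      rw [dotProduct_comm, ← Matrix.sub_mulVec, Matrix.dotProduct_mulVec, ← Matrix.mulVec_transpose, hJt,
        Matrix.mulVec_mulVec, mul_sub, hJT, hJJ, sub_self, Matrix.zero_mulVec, zero_dotProduct]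
    unfold qf
    rw [h2, sub_dotProduct, h3, sub_zero, Matrix.sub_mulVec]
  have hsum0 : ∀ v : Tp n k → ℝ, ∑ a, (v - J *ᵥ v) a = 0 := by
    intro v
    rw [hJv]
    simp only [Pi.sub_apply]
    rw [Finset.sum_sub_distrib, Finset.sum_const, Finset.card_univ, hcard, nsmul_eq_mul]
    field_simp
    ring
  have hnorm : ∀ v : Tp n k → ℝ, (v - J *ᵥ v) ⬝ᵥ (v - J *ᵥ v) ≤ v ⬝ᵥ v := by
    intro v
    have h2 : (J *ᵥ v) ⬝ᵥ (J *ᵥ v) = v ⬝ᵥ (J *ᵥ v) := by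
      rw [Matrix.dotProduct_mulVec, ← Matrix.mulVec_transpose, hJt, Matrix.mulVec_mulVec, hJJ, dotProduct_comm]
    have h3 : 0 ≤ (J *ᵥ v) ⬝ᵥ (J *ᵥ v) := dot_self_nonneg _
    rw [sub_dotProduct, dotProduct_sub, dotProduct_sub, h2, dotProduct_comm (J *ᵥ v) v]
    linarith
  have hmain := entry_le ((Tz w x : Matrix (Tp n k) (Tp n k) ℝ) - J) (by
    rw [Matrix.transpose_sub, Tz_transpose, hJt]) (1 - ε / 2) hθ (fun v => by
      rw [hsplit]; exact qf_Tz_nonneg hw x _) (fun v => by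
      rw [hsplit, qf_Tz]
      have h2 := L2 hw x ε hε1 k hk h _ (hsum0 v)
      have h3 := hnorm v
      have h4 : 0 ≤ (v - J *ᵥ v) ⬝ᵥ (v - J *ᵥ v) := dot_self_nonneg _
      nlinarith) t b c
  rw [hpowJ t htpos, Matrix.sub_apply, hJ, Matrix.of_apply] at hmain
  have h5 : (2 : ℝ) / (n.descFactorial k : ℝ) = 1 / (n.descFactorial k : ℝ) + 1 / (n.descFactorial k : ℝ) := by
    ring
  rw [h5]
  linarith

end Pool.Agent.BC5
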