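import Pool.Agent.Lib.MP_bc5a73_al.Lift.Defs

/-! Numbers of one level. -/

set_option autoImplicit false
open scoped BigOperators Matrix
open Matrix
namespace Pool.Agent.BC5

theorem N1_desc (n k' : ℕ) (h : 2 * k' ≤ n) : ((n : ℝ) / 2) ^ k' ≤ (n.descFactorial k' : ℝ) := by
  have h1 : (n + 1 - k') ^ k' ≤ n.descFactorial k' := Nat.pow_sub_le_descFactorial n k'
  have h2 : (n : ℝ) / 2 ≤ ((n + 1 - k' : ℕ) : ℝ) := by
    have h3 : n ≤ 2 * (n + 1 - k') := by omega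
    have h4 : (n : ℝ) ≤ 2 * ((n + 1 - k' : ℕ) : ℝ) := by exact_mod_cast h3
    linarith
  calc ((n : ℝ) / 2) ^ k' ≤ ((n + 1 - k' : ℕ) : ℝ) ^ k' := by
        exact pow_le_pow_left₀ (by positivity) h2 k'
    _ ≤ (n.descFactorial k' : ℝ) := by exact_mod_cast h1

theorem N1_bet (n K k' m : ℕ) (hn : 1 ≤ n) (h : 2 * k' ≤ n) (R : ℝ) (hR : 512 * (K : ℝ) * m ≤ R) :
    bet n K k' (8 * m) ≤ 2 * (R / n) ^ k' := by
  have hnp : (0 : ℝ) < (n : ℝ) := by exact_mod_cast hn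
  have hd := N1_desc n k' h
  have hdp : 0 < ((n : ℝ) / 2) ^ k' := by positivity
  rw [bet]
  calc 2 * 16 ^ k' * (2 * (K : ℝ) * ((8 * m : ℕ) : ℝ)) ^ k' / (n.descFactorial k' : ℝ)
      ≤ 2 * 16 ^ k' * (2 * (K : ℝ) * ((8 * m : ℕ) : ℝ)) ^ k' / ((n : ℝ) / 2) ^ k' := by
        apply div_le_div_of_nonneg_left _ hdp hd
        positivity
    _ = 2 * ((512 * (K : ℝ) * m) / n) ^ k' := by
        push_cast
        rw [mul_assoc, ← mul_pow, mul_div_assoc, ← div_pow]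
        congr 2
        field_simp
        ring
    _ ≤ 2 * (R / n) ^ k' := by
        have : (512 * (K : ℝ) * m) / n ≤ R / n := by
          exact div_le_div_of_nonneg_right hR hnp.le
        have h0 : 0 ≤ (512 * (K : ℝ) * m) / n := by positivity
        have := pow_le_pow_left₀ h0 this k'
        linarith

theorem N1_fin (c ε η L K k' t m : ℝ) (hη : η = c * ε / 256) (hc : 0 < c) (hc1 : c < 1)
    (ht2 : ε * t ≤ k' * L + 1) (hcL : 144 ≤ c * L) (hk1 : 1 ≤ k') (hL : 3 ≤ L) (hK1 : 1 ≤ K) (hm0 : 1 ≤ m)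
    (hm1 : 8 * K ≤ c * k' * m) :
    K * (2 + L) + 2 * K * L + K * 1 + 8 * m * 1 + m * (1 - c * L * k') ≤
      -(2 * L) + 4 * m * (4 * t * (-(2 * η)) + -2) := by
  have hηt : 32 * η * t ≤ c * k' * L / 8 + 1 / 8 := by
    have h1 : c * (ε * t) ≤ c * (k' * L + 1) := mul_le_mul_of_nonneg_left ht2 hc.le
    have h2 : 32 * η * t = c * (ε * t) / 8 := by rw [hη]; ring
    have h3 : c * (k' * L + 1) = c * k' * L + c := by ring
    rw [h2]
    linarith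
  have hηtm : 32 * η * t * m ≤ (c * k' * L / 8 + 1 / 8) * m :=
    mul_le_mul_of_nonneg_right hηt (by linarith)
  have h18 : 18 * m ≤ c * L * k' * m / 8 := by
    have h1 : 144 * 1 ≤ (c * L) * k' := mul_le_mul hcL hk1 (by norm_num) (by linarith)
    have h2 : 144 * 1 * m ≤ (c * L) * k' * m := mul_le_mul_of_nonneg_right h1 (by linarith)
    linarith
  have h6K : 8 * K * L ≤ c * k' * m * L := mul_le_mul_of_nonneg_right hm1 (by linarith)
  have h3K : K * 3 ≤ K * L := mul_le_mul_of_nonneg_left hL (by linarith)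
  have h2K : 1 * L ≤ K * L := mul_le_mul_of_nonneg_right hK1 (by linarith)
  linarith

theorem N1_main (n K k' t m : ℕ) (c ε L R : ℝ) (hc : 0 < c) (hε : 0 < ε) (hε1 : ε ≤ 1) (hc1 : c < 1)
    (hexpL : Real.exp L = n) (hn1 : 1 ≤ n) (hk'n : 2 * k' ≤ n) (hRdiv : R / n = Real.exp (-(c * L)))
    (h512 : 512 * (K : ℝ) * m ≤ R) (hcL : 144 ≤ c * L) (hk1R : (1 : ℝ) ≤ (k' : ℝ)) (hL144 : 144 ≤ L)
    (hK1 : (1 : ℝ) ≤ (K : ℝ)) (hm0R : (1 : ℝ) ≤ (m : ℝ)) (hm1 : 8 * (K : ℝ) ≤ c * k' * m)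
    (ht2 : ε * t ≤ (k' : ℝ) * L + 1) :
    (4 * n : ℝ) ^ K * (n : ℝ) ^ (2 * K) * 2 ^ K * 2 ^ (8 * m) * bet n K k' (8 * m) ^ m ≤
      ((n : ℝ) ^ 2)⁻¹ * ((1 - c * ε / 256) ^ (4 * t) / 4) ^ (4 * m) := by
  have hnp : (0 : ℝ) < (n : ℝ) := by rw [← hexpL]; exact Real.exp_pos _
  have hL0 : 0 < L := by linarith
  have e1 : (1 : ℝ) + 1 ≤ Real.exp 1 := Real.add_one_le_exp 1
  have e2 : (2 : ℝ) ≤ Real.exp 1 := by linarith
  have e4 : (4 : ℝ) ≤ Real.exp 2 := by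
    have : Real.exp 2 = Real.exp 1 * Real.exp 1 := by rw [← Real.exp_add]; norm_num
    rw [this]
    nlinarith [Real.exp_pos 1]
  have hb : bet n K k' (8 * m) ≤ Real.exp (1 - c * L * k') := by
    refine (N1_bet n K k' m hn1 hk'n R h512).trans ?_
    rw [hRdiv, ← Real.exp_nat_mul]
    calc 2 * Real.exp ((k' : ℝ) * -(c * L)) ≤ Real.exp 1 * Real.exp ((k' : ℝ) * -(c * L)) :=
          mul_le_mul_of_nonneg_right e2 (Real.exp_pos _).le
      _ = Real.exp (1 - c * L * k') := by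
          rw [← Real.exp_add]
          congr 1
          ring
  have hb0 : 0 ≤ bet n K k' (8 * m) := by
    rw [bet]
    positivity
  have l1 : (4 * n : ℝ) ^ K ≤ Real.exp ((K : ℝ) * (2 + L)) := by
    rw [Real.exp_nat_mul, Real.exp_add, hexpL]
    exact pow_le_pow_left₀ (by positivity) (mul_le_mul_of_nonneg_right e4 hnp.le) _
  have l2 : (n : ℝ) ^ (2 * K) = Real.exp ((2 * K : ℕ) * L) := by
    rw [Real.exp_nat_mul, hexpL]
  have l3 : (2 : ℝ) ^ K ≤ Real.exp ((K : ℝ) * 1) := by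
    rw [Real.exp_nat_mul]
    exact pow_le_pow_left₀ (by norm_num) e2 _
  have l4 : (2 : ℝ) ^ (8 * m) ≤ Real.exp ((8 * m : ℕ) * 1) := by
    rw [Real.exp_nat_mul]
    exact pow_le_pow_left₀ (by norm_num) e2 _
  have l5 : bet n K k' (8 * m) ^ m ≤ Real.exp ((m : ℝ) * (1 - c * L * k')) := by
    rw [Real.exp_nat_mul]
    exact pow_le_pow_left₀ hb0 hb _
  refine (mul_le_mul (mul_le_mul (mul_le_mul (mul_le_mul l1 l2.le (by positivity) (Real.exp_pos _).le)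
    l3 (by positivity) (by positivity)) l4 (by positivity) (by positivity)) l5 (pow_nonneg hb0 _)
    (by positivity)).trans ?_
  have r1 : ((n : ℝ) ^ 2)⁻¹ = Real.exp (-(2 * L)) := by
    rw [Real.exp_neg]
    congr 1
    have : Real.exp (2 * L) = Real.exp L ^ 2 := by
      rw [← Real.exp_nat_mul]
      norm_num
    rw [this, hexpL]
  obtain ⟨η, hη⟩ : ∃ η : ℝ, η = c * ε / 256 := ⟨_, rfl⟩
  have hη0 : 0 < η := by rw [hη]; positivity
  have hη1 : η ≤ 1 / 256 := by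
    rw [hη]
    have : c * ε ≤ 1 := by nlinarith
    linarith
  have r2 : Real.exp (-(2 * η)) ≤ 1 - η := by
    have h1 : 1 + 2 * η ≤ Real.exp (2 * η) := by
      have := Real.add_one_le_exp (2 * η)
      linarith
    rw [Real.exp_neg]
    have h2 : (Real.exp (2 * η))⁻¹ ≤ (1 + 2 * η)⁻¹ := inv_anti₀ (by linarith) h1
    refine h2.trans ?_
    rw [inv_le_iff_one_le_mul₀ (by linarith)]
    nlinarith
  have r3 : Real.exp (-2) ≤ 1 / 4 := by
    rw [Real.exp_neg, one_div]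
    exact inv_anti₀ (by norm_num) e4
  have r4 : Real.exp ((4 * t : ℕ) * (-(2 * η)) + -2) ≤ (1 - η) ^ (4 * t) / 4 := by
    rw [Real.exp_add, Real.exp_nat_mul]
    have h1 : Real.exp (-(2 * η)) ^ (4 * t) ≤ (1 - η) ^ (4 * t) :=
      pow_le_pow_left₀ (Real.exp_pos _).le r2 _
    calc Real.exp (-(2 * η)) ^ (4 * t) * Real.exp (-2) ≤ (1 - η) ^ (4 * t) * (1 / 4) := by
          apply mul_le_mul h1 r3 (Real.exp_pos _).le
          exact pow_nonneg (by linarith) _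
      _ = (1 - η) ^ (4 * t) / 4 := by ring
  have r5 : Real.exp ((4 * m : ℕ) * ((4 * t : ℕ) * (-(2 * η)) + -2)) ≤ ((1 - η) ^ (4 * t) / 4) ^ (4 * m) := by
    rw [Real.exp_nat_mul]
    exact pow_le_pow_left₀ (Real.exp_pos _).le r4 _
  rw [← hη, r1]
  refine le_trans ?_ (mul_le_mul_of_nonneg_left r5 (Real.exp_pos _).le)
  rw [← Real.exp_add, ← Real.exp_add, ← Real.exp_add, ← Real.exp_add, ← Real.exp_add, Real.exp_le_exp]
  push_cast
  exact N1_fin c ε η L K k' t m hη hc hc1 ht2 hcL hk1R (by linarith) hK1 hm0R hm1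

/-- N1. The numbers of one level. -/
theorem N1 (c ε : ℝ) (hc : 0 < c) (hc1 : c < 1) (hε : 0 < ε) (hε1 : ε ≤ 1) :
    ∃ n0 : ℕ, ∀ n : ℕ, n0 ≤ n → ∀ k K : ℕ, 1 ≤ k → k < K → (K : ℝ) ^ 2 ≤ c * k * (n : ℝ) ^ (1 - c) / 80000 →
      ∃ k' t m : ℕ, 1 ≤ k' ∧ k' ≤ k ∧ (k' = 1 ∨ 8 * k' ≤ K) ∧ k' ≤ n ∧ 20 * K ≤ n ∧ 1 ≤ m ∧ 2 * K * (8 * m) + 2 ≤ n ∧
        (1 - ε / 2) ^ (2 * t) * (n : ℝ) ^ k' ≤ 1 ∧
        (4 * n : ℝ) ^ K * (n : ℝ) ^ (2 * K) * 2 ^ K * 2 ^ (8 * m) * bet n K k' (8 * m) ^ m ≤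
          ((n : ℝ) ^ 2)⁻¹ * ((1 - c * ε / 256) ^ (4 * t) / 4) ^ (4 * m) := by
  refine ⟨⌈Real.exp (144 / c)⌉₊, fun n hn k K hk hkK hK => ?_⟩
  have hNexp : Real.exp (144 / c) ≤ (n : ℝ) := Nat.ceil_le.mp hn
  have hnp : (0 : ℝ) < (n : ℝ) := lt_of_lt_of_le (Real.exp_pos _) hNexp
  have hn1 : 1 ≤ n := by exact_mod_cast hnp
  have hn1' : (1 : ℝ) ≤ (n : ℝ) := by exact_mod_cast hn1
  obtain ⟨L, hL⟩ : ∃ L : ℝ, L = Real.log n := ⟨_, rfl⟩
  have hexpL : Real.exp L = n := by rw [hL]; exact Real.exp_log hnp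
  have hL1 : 144 / c ≤ L := by
    rw [hL, Real.le_log_iff_exp_le hnp]
    exact hNexp
  have hcL : 144 ≤ c * L := by
    rw [div_le_iff₀ hc] at hL1
    linarith
  have hL0 : 0 < L := by
    by_contra hh
    have := not_lt.1 hh
    nlinarith
  have hL144 : 144 ≤ L := by nlinarith
  have hn144 : (145 : ℝ) ≤ (n : ℝ) := by
    rw [← hexpL]
    have := Real.add_one_le_exp L
    linarith
  have hn145 : 145 ≤ n := by exact_mod_cast hn144
  -- the power of `n`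
  obtain ⟨R, hR⟩ : ∃ R : ℝ, R = (n : ℝ) ^ (1 - c) := ⟨_, rfl⟩
  rw [← hR] at hK
  have hRpos : 0 < R := by rw [hR]; exact Real.rpow_pos_of_pos hnp _
  have hRn : R ≤ n := by
    rw [hR]
    calc (n : ℝ) ^ (1 - c) ≤ (n : ℝ) ^ (1 : ℝ) := Real.rpow_le_rpow_of_exponent_le hn1' (by linarith)
      _ = n := Real.rpow_one _
  have hRdiv : R / n = Real.exp (-(c * L)) := by
    rw [hR, Real.rpow_def_of_pos hnp, ← hL, ← hexpL, ← Real.exp_sub]
    congr 1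
    ring
  -- the numbers
  obtain ⟨k', hk'⟩ : ∃ k' : ℕ, k' = max 1 (k / 8) := ⟨_, rfl⟩
  have hk1 : 1 ≤ k' := by rw [hk']; exact le_max_left _ _
  have hk2 : k' ≤ k := by rw [hk']; exact max_le hk (Nat.div_le_self k 8)
  have hk3 : k ≤ 15 * k' := by
    have h1 : k / 8 ≤ k' := by rw [hk']; exact le_max_right _ _
    omega
  have hk4 : k' = 1 ∨ 8 * k' ≤ K := by
    rcases le_total (k / 8) 1 with h1 | h1
    · left
      rw [hk', max_eq_left h1]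
    · right
      rw [hk', max_eq_right h1]
      omega
  have hk1R : (1 : ℝ) ≤ (k' : ℝ) := by exact_mod_cast hk1
  have hk2R : (k' : ℝ) ≤ (k : ℝ) := by exact_mod_cast hk2
  have hk3R : (k : ℝ) ≤ 15 * (k' : ℝ) := by exact_mod_cast hk3
  have hkKR : (k : ℝ) ≤ (K : ℝ) := by exact_mod_cast hkK.le
  have hK1 : (1 : ℝ) ≤ (K : ℝ) := by exact_mod_cast (by omega : 1 ≤ K)
  have hck : 0 < c * (k' : ℝ) := by positivity
  have hKR : 80000 * (K : ℝ) ≤ R := by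
    have h1 : c * (k : ℝ) ≤ 1 * (K : ℝ) := mul_le_mul hc1.le hkKR (by positivity) (by norm_num)
    have h2 : c * (k : ℝ) * R ≤ 1 * (K : ℝ) * R := mul_le_mul_of_nonneg_right h1 hRpos.le
    have h3 : (K : ℝ) * (80000 * (K : ℝ)) ≤ (K : ℝ) * R := by nlinarith
    exact le_of_mul_le_mul_left h3 (by linarith)
  have hKn : 80000 * (K : ℝ) ≤ n := hKR.trans hRn
  have hKn' : 80000 * K ≤ n := by exact_mod_cast hKn
  obtain ⟨m, hm⟩ : ∃ m : ℕ, m = ⌈8 * (K : ℝ) / (c * k')⌉₊ := ⟨_, rfl⟩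
  have hm1 : 8 * (K : ℝ) ≤ c * k' * m := by
    have h1 : 8 * (K : ℝ) / (c * k') ≤ (m : ℝ) := by rw [hm]; exact Nat.le_ceil _
    rw [div_le_iff₀ hck] at h1
    linarith
  have hm2 : c * k' * m ≤ 9 * (K : ℝ) := by
    have h1 : (m : ℝ) < 8 * (K : ℝ) / (c * k') + 1 := by
      rw [hm]
      exact Nat.ceil_lt_add_one (by positivity)
    have h2 : (m : ℝ) * (c * k') < (8 * (K : ℝ) / (c * k') + 1) * (c * k') :=
      mul_lt_mul_of_pos_right h1 hck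
    have h3 : (8 * (K : ℝ) / (c * k') + 1) * (c * k') = 8 * K + c * k' := by
      field_simp
    have h4 : c * (k' : ℝ) ≤ K := by nlinarith
    rw [h3] at h2
    linarith
  have hm0 : 1 ≤ m := by
    rw [hm]
    exact Nat.one_le_ceil_iff.mpr (by positivity)
  have hm0R : (1 : ℝ) ≤ (m : ℝ) := by exact_mod_cast hm0
  have h512 : 512 * (K : ℝ) * m ≤ R := by
    have h1 : (512 * (K : ℝ) * m) * (c * k') ≤ R * (c * k') := by
      have h2 : (512 * (K : ℝ)) * (c * k' * m) ≤ (512 * (K : ℝ)) * (9 * K) :=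
        mul_le_mul_of_nonneg_left hm2 (by positivity)
      have h3 : c * (k : ℝ) * R ≤ c * (15 * (k' : ℝ)) * R := by
        have : c * (k : ℝ) ≤ c * (15 * (k' : ℝ)) := mul_le_mul_of_nonneg_left hk3R hc.le
        exact mul_le_mul_of_nonneg_right this hRpos.le
      have h4 : 0 < c * (k' : ℝ) * R := by positivity
      nlinarith
    exact le_of_mul_le_mul_right h1 hck
  obtain ⟨t, ht⟩ : ∃ t : ℕ, t = ⌈(k' : ℝ) * L / ε⌉₊ := ⟨_, rfl⟩
  have ht1 : (k' : ℝ) * L ≤ ε * t := by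
    have h1 : (k' : ℝ) * L / ε ≤ (t : ℝ) := by rw [ht]; exact Nat.le_ceil _
    rw [div_le_iff₀ hε] at h1
    linarith
  have ht2 : ε * t ≤ (k' : ℝ) * L + 1 := by
    have h1 : (t : ℝ) < (k' : ℝ) * L / ε + 1 := by
      rw [ht]
      exact Nat.ceil_lt_add_one (by positivity)
    have h2 : (t : ℝ) * ε < ((k' : ℝ) * L / ε + 1) * ε := mul_lt_mul_of_pos_right h1 hε
    have h3 : ((k' : ℝ) * L / ε + 1) * ε = (k' : ℝ) * L + ε := by field_simp
    rw [h3] at h2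
    linarith
  refine ⟨k', t, m, hk1, hk2, hk4, by omega, by omega, hm0, ?_, ?_, ?_⟩
  · have h1 : ((2 * K * (8 * m) + 2 : ℕ) : ℝ) ≤ ((n : ℕ) : ℝ) := by
      push_cast
      linarith
    exact_mod_cast h1
  · have h1 : 1 - ε / 2 ≤ Real.exp (-(ε / 2)) := by
      have := Real.add_one_le_exp (-(ε / 2))
      linarith
    have h2 : (1 - ε / 2) ^ (2 * t) ≤ Real.exp (-(ε / 2)) ^ (2 * t) :=
      pow_le_pow_left₀ (by linarith) h1 _
    have h3 : Real.exp (-(ε / 2)) ^ (2 * t) = Real.exp (-(ε * t)) := by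
      rw [← Real.exp_nat_mul]
      congr 1
      push_cast
      ring
    have h4 : (n : ℝ) ^ k' = Real.exp ((k' : ℝ) * L) := by
      rw [Real.exp_nat_mul, hexpL]
    rw [h3] at h2
    rw [h4]
    calc (1 - ε / 2) ^ (2 * t) * Real.exp ((k' : ℝ) * L)
        ≤ Real.exp (-(ε * t)) * Real.exp ((k' : ℝ) * L) :=
          mul_le_mul_of_nonneg_right h2 (Real.exp_pos _).le
      _ = Real.exp (-(ε * t) + (k' : ℝ) * L) := by rw [Real.exp_add]
      _ ≤ 1 := by rw [Real.exp_le_one_iff]; linarith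
  · exact N1_main n K k' t m c ε L R hc hε hε1 hc1 hexpL hn1 (by omega) hRdiv h512 hcL hk1R hL144 hK1 hm0R hm1 ht2

end Pool.Agent.BC5
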