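import Pool.Agent.Lib.MP_bc5a73_al.Lift.OneLevel
import Pool.Agent.Lib.MP_bc5a73_al.Lift.N1

/-! # One fresh element (MP_bc5a73_al) -/

set_option autoImplicit false
set_option linter.unusedSectionVars false
set_option linter.unusedVariables false
open scoped BigOperators Matrix
open Matrix
namespace Pool.Agent.BC5

theorem qf_Ap_snoc {n K i : ℕ} (w : Fin i → ℝ) (x : Fin i → Alt n) (y : Alt n) (f : Tp n K → ℝ) :
    qf (Ap (Fin.snoc (α := fun _ => ℝ) (fun j => w j / 2) (1 / 2)) (Fin.snoc (α := fun _ => Alt n) x y) :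
      Matrix (Tp n K) (Tp n K) ℝ) f = 1 / 2 * qf (Ap w x) f + 1 / 2 * qf (Sp y) f := by
  unfold Ap
  rw [qf_sum, qf_sum, Fin.sum_univ_castSucc, Finset.mul_sum]
  simp only [Fin.snoc_castSucc, Fin.snoc_last, qf_smul]
  congr 1
  exact Finset.sum_congr rfl fun j _ => by ring

theorem OF (c ε : ℝ) (hc : 0 < c) (hc1 : c < 1) (hε : 0 < ε) (hε1 : ε ≤ 1) :
    ∃ n0 : ℕ, ∀ n : ℕ, n0 ≤ n → ∀ (i : ℕ) (w : Fin i → ℝ), IsWt w →
      ∀ (x : Fin i → Alt n) (k k1 : ℕ), 1 ≤ k → (k1 : ℝ) ^ 2 ≤ c * k * (n : ℝ) ^ (1 - c) / 80000 → PGap w x ε k →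
        frac (fun y : Alt n => ¬ PGap (Fin.snoc (α := fun _ => ℝ) (fun j => w j / 2) (1 / 2))
          (Fin.snoc (α := fun _ => Alt n) x y) (c * ε / 16384) k1) ≤ 1 / n := by
  obtain ⟨n0, hn0⟩ := N1 c ε hc hc1 hε hε1
  refine ⟨max n0 1, fun n hn i w hw x k k1 hk hk1 hgap => ?_⟩
  have hnn0 : n0 ≤ n := (le_max_left _ _).trans hn
  have hn1 : 1 ≤ n := (le_max_right _ _).trans hn
  have hnpos : (0 : ℝ) < n := by exact_mod_cast hn1
  have hcε : 0 < c * ε := mul_pos hc hε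
  have hcε1 : c * ε ≤ 1 := by nlinarith
  have hcε2 : c * ε ≤ ε := by nlinarith
  obtain ⟨P, hP⟩ : ∃ P : ℕ → Alt n → Prop, P = fun j y => ∃ f : Tp n j → ℝ, IsPure f ∧ f ⬝ᵥ f = 1 ∧
      1 - qf (Tz w x) f < (c * ε / 256) / 64 ∧ 1 - qf (Sp y) f < 1 / 32 := ⟨_, rfl⟩
  have hbad : ∀ y : Alt n, ¬ PGap (Fin.snoc (α := fun _ => ℝ) (fun j => w j / 2) (1 / 2))
      (Fin.snoc (α := fun _ => Alt n) x y) (c * ε / 16384) k1 → ∃ j ∈ Finset.Icc (k + 1) k1, P j y := by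
    intro y hy
    unfold PGap at hy
    push Not at hy
    obtain ⟨j, hj1, hj2, f, hf, hf2⟩ := hy
    rw [qf_Ap_snoc] at hf2
    have hS := (abs_le.1 (abs_qf_Sp_le y f)).2
    have hA := (abs_le.1 (abs_qf_Ap_le hw x f)).2
    have h0 : 0 ≤ f ⬝ᵥ f := dot_self_nonneg f
    have hkj : k < j := by
      by_contra hcon
      push Not at hcon
      have h2 := hgap j hj1 hcon f hf
      nlinarith
    refine ⟨j, Finset.mem_Icc.2 ⟨hkj, hj2⟩, ?_⟩
    have hff : 0 < f ⬝ᵥ f := by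
      rcases h0.lt_or_eq with h | h
      · exact h
      · exfalso
        rw [← h] at hf2 hS hA
        linarith
    rw [hP]
    refine ⟨(nm f)⁻¹ • f, ?_, ?_, ?_, ?_⟩
    · intro j' a
      have h2 := hf j' a
      simp only [Pi.smul_apply, smul_eq_mul]
      rw [← Finset.mul_sum, h2, mul_zero]
    · rw [smul_dotProduct, dotProduct_smul, smul_eq_mul, smul_eq_mul, ← mul_assoc, ← sq, inv_pow, nm_sq,
        inv_mul_cancel₀ hff.ne']
    · have h2 : ∀ M : Matrix (Tp n j) (Tp n j) ℝ, qf M ((nm f)⁻¹ • f) = qf M f / (f ⬝ᵥ f) := by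
        intro M
        unfold qf
        rw [Matrix.mulVec_smul, smul_dotProduct, dotProduct_smul, smul_eq_mul, smul_eq_mul, ← mul_assoc, ← sq, inv_pow,
          nm_sq, inv_mul_eq_div]
      rw [h2, qf_Tz]
      have h3 : 1 - 1 / 2 * (f ⬝ᵥ f + qf (Ap w x) f) / (f ⬝ᵥ f) =
          (f ⬝ᵥ f - 1 / 2 * (f ⬝ᵥ f + qf (Ap w x) f)) / (f ⬝ᵥ f) := by
        rw [sub_div, div_self hff.ne']
      rw [h3, div_lt_iff₀ hff]
      nlinarith
    · have h2 : ∀ M : Matrix (Tp n j) (Tp n j) ℝ, qf M ((nm f)⁻¹ • f) = qf M f / (f ⬝ᵥ f) := by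
        intro M
        unfold qf
        rw [Matrix.mulVec_smul, smul_dotProduct, dotProduct_smul, smul_eq_mul, smul_eq_mul, ← mul_assoc, ← sq, inv_pow,
          nm_sq, inv_mul_eq_div]
      rw [h2]
      have h3 : 1 - qf (Sp y) f / (f ⬝ᵥ f) = (f ⬝ᵥ f - qf (Sp y) f) / (f ⬝ᵥ f) := by
        rw [sub_div, div_self hff.ne']
      rw [h3, div_lt_iff₀ hff]
      nlinarith
  refine (frac_mono hbad).trans ((frac_exists_le _ _).trans ?_)
  have hterm : ∀ j ∈ Finset.Icc (k + 1) k1, frac (P j) ≤ ((n : ℝ) ^ 2)⁻¹ := by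
    intro j hj
    rw [Finset.mem_Icc] at hj
    have hj1 : (j : ℝ) ^ 2 ≤ (k1 : ℝ) ^ 2 := pow_le_pow_left₀ (by positivity) (by exact_mod_cast hj.2) 2
    obtain ⟨k', t, m, h1, h2, h3, h4, h5, h6, h7, h8, h9⟩ := hn0 n hnn0 k j hk (by omega) (hj1.trans hk1)
    have hgap' : PGap w x ε k' := fun j' hj1 hj2 => hgap j' hj1 (hj2.trans h2)
    have h10 := one_level hw x ε (c * ε / 256) hε hε1 (by positivity) (by linarith) (K := j) (k := k') (m := m) (t := t)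
      (by omega) h1 h3 h4 h5 h6 h7 h8 hgap'
    rw [hP]
    refine h10.trans ?_
    have hθ : 0 < (1 - c * ε / 256) ^ (4 * t) / 4 := by
      have : 0 < 1 - c * ε / 256 := by linarith
      positivity
    rw [div_le_iff₀ (pow_pos hθ _)]
    exact h9
  refine (Finset.sum_le_card_nsmul _ _ _ hterm).trans ?_
  rw [Nat.card_Icc, nsmul_eq_mul]
  by_cases hkk : k < k1
  · obtain ⟨k', t, m, h1, h2, h3, h4, h5, h6, h7, h8, h9⟩ := hn0 n hnn0 k k1 hk hkk hk1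
    have h10 : ((k1 + 1 - (k + 1) : ℕ) : ℝ) ≤ n := by
      have : k1 + 1 - (k + 1) ≤ n := by omega
      exact_mod_cast this
    calc ((k1 + 1 - (k + 1) : ℕ) : ℝ) * ((n : ℝ) ^ 2)⁻¹ ≤ n * ((n : ℝ) ^ 2)⁻¹ :=
          mul_le_mul_of_nonneg_right h10 (by positivity)
      _ = 1 / n := by field_simp
  · have h10 : k1 + 1 - (k + 1) = 0 := by omega
    rw [h10, Nat.cast_zero, zero_mul]
    positivity

end Pool.Agent.BC5
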