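import Pool.Agent.Lib.MP_bc5a73_al.Lift.Pure
import Pool.Agent.Lib.MP_bc5a73_al.Lift.L3
import Pool.Agent.Lib.MP_bc5a73_al.Lift.L4
import Pool.Agent.Lib.MP_bc5a73_al.Lift.L5

/-! # One fresh element, one level (MP_bc5a73_al) -/

set_option autoImplicit false
set_option linter.unusedSectionVars false
set_option linter.unusedVariables false
open scoped BigOperators Matrix
open Matrix
namespace Pool.Agent.BC5

section
variable {n : ℕ}

/-- The word operator. -/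
noncomputable def Zy {K : ℕ} (β : Alt n → ℝ) (y : Alt n) : Matrix (Tp n K) (Tp n K) ℝ :=
  opm β * (Pm y * opm (cnv β β) * (Pm y)ᵀ) * opm β

open Classical in
/-- The sum over `y` of the words. -/
theorem sum_word_le {K k m : ℕ} (hK : 1 ≤ K) (hk1 : 1 ≤ k) (hk : k = 1 ∨ 8 * k ≤ K) (hkn : k ≤ n)
    (hN : 2 * K * (8 * m) + 2 ≤ n) (e : ℕ → Bool)
    (z : Lb K ↪ Fin n) (a : ℕ → Alt n → ℝ) (ha : ∀ s, IsWt (a s)) (hmix : ∀ s, 1 ≤ s → s < 8 * m → MixOk (a s) k) :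
    ∑ y : Alt n, qf (Prd y e a (8 * m) : Matrix (Tp n K) (Tp n K) ℝ) (pv z) ≤
      (Fintype.card (Alt n) : ℝ) * (2 ^ K * (2 ^ (8 * m) * bet n K k (8 * m) ^ m)) := by
  have h1 : ∀ y : Alt n, qf (Prd y e a (8 * m) : Matrix (Tp n K) (Tp n K) ℝ) (pv z) =
      ∑ h : Fin (8 * m + 1) → Alt n, (∏ i : Fin (8 * m + 1), a (i : ℕ) (h i)) *
        qf (Pm (Wd y e (ext1 h) (8 * m)) : Matrix (Tp n K) (Tp n K) ℝ) (pv z) := by
    intro y
    rw [L6, qf_sum]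
    exact Finset.sum_congr rfl fun h _ => qf_smul _ _ _
  have hw : ∀ h : Fin (8 * m + 1) → Alt n, 0 ≤ ∏ i : Fin (8 * m + 1), a (i : ℕ) (h i) :=
    fun h => Finset.prod_nonneg fun i _ => (ha _).1 _
  -- the cancelling `y` contribute zero
  have h2 : ∀ h : Fin (8 * m + 1) → Alt n,
      ∑ y : Alt n, qf (Pm (Wd y e (ext1 h) (8 * m)) : Matrix (Tp n K) (Tp n K) ℝ) (pv z) ≤
        ∑ y : Alt n, 2 ^ K * (if NoCanc y e (ext1 h) z (8 * m) then (1 : ℝ) else 0) := by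
    intro h
    have h3 := L4 hN e (ext1 h) z
    have h4 : ∑ y ∈ Finset.univ.filter (fun y : Alt n => ¬ NoCanc y e (ext1 h) z (8 * m)),
        qf (Pm (Wd y e (ext1 h) (8 * m)) : Matrix (Tp n K) (Tp n K) ℝ) (pv z) = 0 := by
      have h5 : ∑ y ∈ Finset.univ.filter (fun y : Alt n => ¬ NoCanc y e (ext1 h) z (8 * m)),
          qf (Pm (Wd y e (ext1 h) (8 * m)) : Matrix (Tp n K) (Tp n K) ℝ) (pv z) =
          pv z ⬝ᵥ ∑ y ∈ Finset.univ.filter (fun y : Alt n => ¬ NoCanc y e (ext1 h) z (8 * m)),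
            (Pm (Wd y e (ext1 h) (8 * m)) : Matrix (Tp n K) (Tp n K) ℝ) *ᵥ pv z := by
        rw [dotProduct_sum]
        rfl
      rw [h5, h3, dotProduct_zero]
    have h6 : ∑ y ∈ Finset.univ.filter (fun y : Alt n => NoCanc y e (ext1 h) z (8 * m)),
        qf (Pm (Wd y e (ext1 h) (8 * m)) : Matrix (Tp n K) (Tp n K) ℝ) (pv z) ≤
        ∑ y ∈ Finset.univ.filter (fun y : Alt n => NoCanc y e (ext1 h) z (8 * m)), (2 : ℝ) ^ K :=
      Finset.sum_le_sum fun y _ => (le_abs_self _).trans (P2 _ _)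
    have h7 : ∑ y ∈ Finset.univ.filter (fun y : Alt n => NoCanc y e (ext1 h) z (8 * m)), (2 : ℝ) ^ K =
        ∑ y : Alt n, 2 ^ K * (if NoCanc y e (ext1 h) z (8 * m) then (1 : ℝ) else 0) := by
      rw [Finset.sum_filter]
      refine Finset.sum_congr rfl fun y _ => ?_
      split_ifs <;> simp
    rw [← Finset.sum_filter_add_sum_filter_not Finset.univ (fun y : Alt n => NoCanc y e (ext1 h) z (8 * m)), h4,
      add_zero, ← h7]
    exact h6
  calc ∑ y : Alt n, qf (Prd y e a (8 * m) : Matrix (Tp n K) (Tp n K) ℝ) (pv z)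
      = ∑ h : Fin (8 * m + 1) → Alt n, (∏ i : Fin (8 * m + 1), a (i : ℕ) (h i)) *
          ∑ y : Alt n, qf (Pm (Wd y e (ext1 h) (8 * m)) : Matrix (Tp n K) (Tp n K) ℝ) (pv z) := by
        rw [Finset.sum_congr rfl fun y _ => h1 y, Finset.sum_comm]
        exact Finset.sum_congr rfl fun h _ => (Finset.mul_sum _ _ _).symm
    _ ≤ ∑ h : Fin (8 * m + 1) → Alt n, (∏ i : Fin (8 * m + 1), a (i : ℕ) (h i)) *
          ∑ y : Alt n, 2 ^ K * (if NoCanc y e (ext1 h) z (8 * m) then (1 : ℝ) else 0) :=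
        Finset.sum_le_sum fun h _ => mul_le_mul_of_nonneg_left (h2 h) (hw h)
    _ = ∑ y : Alt n, 2 ^ K * ∑ h : Fin (8 * m + 1) → Alt n, (∏ i : Fin (8 * m + 1), a (i : ℕ) (h i)) *
          (if NoCanc y e (ext1 h) z (8 * m) then (1 : ℝ) else 0) := by
        simp_rw [Finset.mul_sum]
        rw [Finset.sum_comm]
        exact Finset.sum_congr rfl fun y _ => Finset.sum_congr rfl fun h _ => by ring
    _ ≤ ∑ y : Alt n, 2 ^ K * (2 ^ (8 * m) * bet n K k (8 * m) ^ m) :=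
        Finset.sum_le_sum fun y _ => mul_le_mul_of_nonneg_left (L5 hK hk1 hk hkn y e z a ha hmix) (by positivity)
    _ = _ := by rw [Finset.sum_const, Finset.card_univ, nsmul_eq_mul]

theorem card_Lb_le (K : ℕ) : (Fintype.card (Lb K ↪ Fin n) : ℝ) ≤ (n : ℝ) ^ (2 * K) := by
  rw [Fintype.card_embedding_eq, Fintype.card_prod, Fintype.card_fin, Fintype.card_bool, Fintype.card_fin, mul_comm K 2]
  exact_mod_cast Nat.descFactorial_le_pow n (2 * K)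

/-- One fresh element, one level. -/
theorem one_level {ι : Type} [Fintype ι] {w : ι → ℝ} (hw : IsWt w) (x : ι → Alt n) (ε η : ℝ) (hε : 0 < ε) (hε1 : ε ≤ 1)
    (hη : 0 < η) (hη1 : η ≤ 1 / 2)
    {K k m t : ℕ} (hK : 1 ≤ K) (hk1 : 1 ≤ k) (hk : k = 1 ∨ 8 * k ≤ K) (hkn : k ≤ n) (hK20 : 20 * K ≤ n) (hm : 1 ≤ m)
    (hN : 2 * K * (8 * m) + 2 ≤ n) (ht : (1 - ε / 2) ^ (2 * t) * (n : ℝ) ^ k ≤ 1) (h : PGap w x ε k) :
    frac (fun y : Alt n => ∃ f : Tp n K → ℝ, IsPure f ∧ f ⬝ᵥ f = 1 ∧ 1 - qf (Tz w x) f < η / 64 ∧ 1 - qf (Sp y) f < 1 / 32) ≤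
      (4 * n : ℝ) ^ K * (n : ℝ) ^ (2 * K) * 2 ^ K * 2 ^ (8 * m) * bet n K k (8 * m) ^ m /
        ((1 - η) ^ (4 * t) / 4) ^ (4 * m) := by
  classical
  obtain ⟨β, hβ, hβ1, hβ2, hβ3⟩ := L7a hw x t
  have hT1 : (opm β : Matrix (Tp n K) (Tp n K) ℝ) = (Tz w x) ^ t := hβ1 K
  have hT2 : (opm (cnv β β) : Matrix (Tp n K) (Tp n K) ℝ) = (Tz w x) ^ (2 * t) := hβ2 K
  have hmix : MixOk (cnv β β) k := L7b hw x ε hε hε1 k hkn h (2 * t) ht _ (hβ2 k)
  obtain ⟨Q, hQ, hQ1, hQ2⟩ := L8a n K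
  have hQSp : ∀ g : Alt n, Commute Q (Sp g) := fun g => by
    unfold Sp
    exact ((hQ2 g).add_right (hQ2 g⁻¹)).smul_right _
  have hQT : Commute Q (Tz w x) := by
    unfold Tz Ap
    refine Commute.smul_right (Commute.add_right (Commute.one_right Q) ?_) _
    exact Commute.sum_right _ _ _ fun i _ => (hQSp _).smul_right _
  have hQopm : ∀ α : Alt n → ℝ, Commute Q (opm α) := fun α => by
    unfold opm
    exact Commute.sum_right _ _ _ fun g _ => (hQ2 g).smul_right _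
  obtain ⟨θ, hθ⟩ : ∃ θ : ℝ, θ = (1 - η) ^ (4 * t) / 4 := ⟨_, rfl⟩
  have hθ0 : 0 < θ := by
    rw [hθ]
    have : 0 < 1 - η := by linarith
    positivity
  -- properties of the operators `Z`
  have hZdef : ∀ y : Alt n, (Zy β y : Matrix (Tp n K) (Tp n K) ℝ) =
      (Tz w x) ^ t * (Pm y * (Tz w x) ^ (2 * t) * (Pm y)ᵀ) * (Tz w x) ^ t := fun y => by
    unfold Zy
    rw [hT1, hT2]
  have hTt : ∀ s : ℕ, ((Tz w x : Matrix (Tp n K) (Tp n K) ℝ) ^ s)ᵀ = (Tz w x) ^ s := fun s => by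
    rw [Matrix.transpose_pow, Tz_transpose]
  have hZt : ∀ y : Alt n, (Zy β y : Matrix (Tp n K) (Tp n K) ℝ)ᵀ = Zy β y := fun y => by
    rw [hZdef, Matrix.transpose_mul, Matrix.transpose_mul, Matrix.transpose_mul, Matrix.transpose_mul,
      Matrix.transpose_transpose, hTt, hTt]
    simp only [mul_assoc]
  have hZ0 : ∀ (y : Alt n) (v : Tp n K → ℝ), 0 ≤ qf (Zy β y) v := fun y v => by
    have h1 := qf_sandwich ((Tz w x : Matrix (Tp n K) (Tp n K) ℝ) ^ (2 * t)) ((Pm y)ᵀ * (Tz w x) ^ t) v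
    have h2 : ((Pm y)ᵀ * (Tz w x : Matrix (Tp n K) (Tp n K) ℝ) ^ t)ᵀ * (Tz w x) ^ (2 * t) * ((Pm y)ᵀ * (Tz w x) ^ t) = Zy β y := by
      rw [Matrix.transpose_mul, Matrix.transpose_transpose, hTt, hZdef]
      simp only [mul_assoc]
    rw [h2] at h1
    rw [h1]
    have h3 : ∀ u : Tp n K → ℝ, qf ((Tz w x : Matrix (Tp n K) (Tp n K) ℝ) ^ (2 * t)) u =
        ((Tz w x : Matrix (Tp n K) (Tp n K) ℝ) ^ t *ᵥ u) ⬝ᵥ ((Tz w x) ^ t *ᵥ u) := by
      intro u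
      unfold qf
      rw [two_mul, pow_add, ← Matrix.mulVec_mulVec, Matrix.dotProduct_mulVec, ← Matrix.mulVec_transpose, hTt]
    rw [h3]
    exact dot_self_nonneg _
  have hQZ : ∀ y : Alt n, Commute Q (Zy β y) := fun y => by
    have hQt : Commute Q (Pm y)ᵀ := by rw [Pm_transpose]; exact hQ2 _
    unfold Zy
    exact ((hQopm β).mul_right (((hQ2 y).mul_right (hQopm _)).mul_right hQt)).mul_right (hQopm β)
  have hZp : ∀ (y : Alt n) (f : Tp n K → ℝ), IsPure f → IsPure (Zy β y *ᵥ f) := fun y f hf => by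
    rw [← hQ1] at hf ⊢
    rw [Matrix.mulVec_mulVec, (hQZ y).eq, ← Matrix.mulVec_mulVec, hf]
  have hpow0 : ∀ (y : Alt n) (v : Tp n K → ℝ), 0 ≤ qf ((Zy β y : Matrix (Tp n K) (Tp n K) ℝ) ^ (2 * (2 * m))) v := fun y v => by
    have h3 : qf ((Zy β y : Matrix (Tp n K) (Tp n K) ℝ) ^ (2 * (2 * m))) v =
        ((Zy β y : Matrix (Tp n K) (Tp n K) ℝ) ^ (2 * m) *ᵥ v) ⬝ᵥ ((Zy β y) ^ (2 * m) *ᵥ v) := by
      unfold qf
      rw [two_mul (2 * m), pow_add, ← Matrix.mulVec_mulVec, Matrix.dotProduct_mulVec, ← Matrix.mulVec_transpose,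
        Matrix.transpose_pow, hZt]
    rw [h3]
    exact dot_self_nonneg _
  -- the words
  obtain ⟨a, ha⟩ : ∃ a : ℕ → Alt n → ℝ, a = fun s => if s = 0 ∨ s = 2 * (4 * m) then β else cnv β β := ⟨_, rfl⟩
  obtain ⟨e, he⟩ : ∃ e : ℕ → Bool, e = fun s => decide (s % 2 = 1) := ⟨_, rfl⟩
  have hword : ∀ y : Alt n, (Zy β y : Matrix (Tp n K) (Tp n K) ℝ) ^ (2 * (2 * m)) = Prd y e a (8 * m) := fun y => by
    have h1 := P1 (X := Tp n K) y β (4 * m) (by omega)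
    rw [← he, ← ha] at h1
    have h2 : 2 * (2 * m) = 4 * m := by ring
    have h3 : 2 * (4 * m) = 8 * m := by ring
    rw [h2, ← h3, ← h1]
    rfl
  have haw : ∀ s, IsWt (a s) := fun s => by
    rw [ha]
    by_cases hs : s = 0 ∨ s = 2 * (4 * m)
    · simp only [if_pos hs]; exact hβ
    · simp only [if_neg hs]; exact hβ3
  have hamix : ∀ s, 1 ≤ s → s < 8 * m → MixOk (a s) k := fun s hs1 hs2 => by
    rw [ha]
    have hs : ¬ (s = 0 ∨ s = 2 * (4 * m)) := by omega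
    simp only [if_neg hs]
    exact hmix
  -- bad elements
  have hbad : ∀ y : Alt n, (∃ f : Tp n K → ℝ, IsPure f ∧ f ⬝ᵥ f = 1 ∧ 1 - qf (Tz w x) f < η / 64 ∧
      1 - qf (Sp y) f < 1 / 32) → θ ^ (4 * m) ≤
        (4 * n : ℝ) ^ K * ∑ z : Lb K ↪ Fin n, qf ((Zy β y : Matrix (Tp n K) (Tp n K) ℝ) ^ (2 * (2 * m))) (pv z) := by
    rintro y ⟨f, hf, hf1, hf2, hf3⟩
    have hb : 1 - qf ((1 / 2 : ℝ) • ((Pm y : Matrix (Tp n K) (Tp n K) ℝ) + (Pm y)ᵀ)) f < 1 / 32 := by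
      rw [Pm_transpose]
      exact hf3
    obtain ⟨g, hg, hg1, hg2⟩ := L8b (Tz w x) (Pm y) Q (Tz_transpose w x) (qf_Tz_nonneg hw x) (qf_Tz_le hw x)
      (Pm_mul_inv y) (Pm_inv_mul y) hQ hQT (hQ2 y) η hη hη1 t f ((hQ1 f).2 hf) hf1 hf2 hb
    rw [← hZdef y, ← hθ] at hg2
    have h1 := L8c (fun f hf => L3 hK hK20 f hf) (Zy β y) (hZt y) (hZ0 y) (hZp y) g ((hQ1 g).1 hg) hg1 (2 * m) (by omega)
    refine le_trans ?_ h1
    have h2 : 2 * (2 * m) = 4 * m := by ring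
    rw [h2]
    exact pow_le_pow_left₀ hθ0.le hg2 _
  have hcpos : 0 < θ ^ (4 * m) := pow_pos hθ0 _
  refine (frac_le_avg_div hcpos (fun y => ?_) hbad).trans ?_
  · exact mul_nonneg (by positivity) (Finset.sum_nonneg fun z _ => hpow0 y _)
  · rw [← hθ]
    refine div_le_div_of_nonneg_right ?_ hcpos.le
    rw [avg_mul_left]
    have h1 : avg (fun y : Alt n => ∑ z : Lb K ↪ Fin n, qf ((Zy β y : Matrix (Tp n K) (Tp n K) ℝ) ^ (2 * (2 * m))) (pv z)) ≤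
        (n : ℝ) ^ (2 * K) * (2 ^ K * (2 ^ (8 * m) * bet n K k (8 * m) ^ m)) := by
      unfold avg
      rw [smul_eq_mul, Finset.sum_comm]
      have hcard : (0 : ℝ) < (Fintype.card (Alt n) : ℝ) := by exact_mod_cast Fintype.card_pos
      rw [inv_mul_le_iff₀ hcard]
      have h2 : ∀ z ∈ (Finset.univ : Finset (Lb K ↪ Fin n)),
          ∑ y : Alt n, qf ((Zy β y : Matrix (Tp n K) (Tp n K) ℝ) ^ (2 * (2 * m))) (pv z) ≤
            (Fintype.card (Alt n) : ℝ) * (2 ^ K * (2 ^ (8 * m) * bet n K k (8 * m) ^ m)) := by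
        intro z _
        rw [Finset.sum_congr rfl fun y _ => by rw [hword y]]
        exact sum_word_le hK hk1 hk hkn hN e z a haw hamix
      refine (Finset.sum_le_card_nsmul _ _ _ h2).trans ?_
      rw [Finset.card_univ, nsmul_eq_mul]
      have hbet : 0 ≤ bet n K k (8 * m) := by unfold bet; positivity
      calc (Fintype.card (Lb K ↪ Fin n) : ℝ) * ((Fintype.card (Alt n) : ℝ) * (2 ^ K * (2 ^ (8 * m) * bet n K k (8 * m) ^ m)))
          ≤ (n : ℝ) ^ (2 * K) * ((Fintype.card (Alt n) : ℝ) * (2 ^ K * (2 ^ (8 * m) * bet n K k (8 * m) ^ m))) :=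
            mul_le_mul_of_nonneg_right (card_Lb_le K) (by positivity)
        _ = _ := by ring
    calc (4 * n : ℝ) ^ K * avg (fun y : Alt n => ∑ z : Lb K ↪ Fin n, qf ((Zy β y : Matrix (Tp n K) (Tp n K) ℝ) ^ (2 * (2 * m))) (pv z))
        ≤ (4 * n : ℝ) ^ K * ((n : ℝ) ^ (2 * K) * (2 ^ K * (2 ^ (8 * m) * bet n K k (8 * m) ^ m))) :=
          mul_le_mul_of_nonneg_left h1 (by positivity)
      _ = _ := by ring

end

end Pool.Agent.BC5
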