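import Pool.Agent.Lib.MP_bc5a73_al.Lift.Defs

/-! # Operators on tuple functions (MP_bc5a73_al) -/

set_option autoImplicit false
set_option linter.unusedSectionVars false
open scoped BigOperators Matrix
open Matrix
namespace Pool.Agent.BC5

section
variable {G X : Type} [Group G] [MulAction G X] [DecidableEq X]

theorem Pm_one : (Pm (1 : G) : Matrix X X ℝ) = 1 := by
  ext a b
  simp [Pm, Matrix.one_apply]

variable [Fintype X]

theorem Pm_mul (g h : G) : (Pm (g * h) : Matrix X X ℝ) = Pm g * Pm h := by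
  ext a b
  rw [Matrix.mul_apply]
  simp only [Pm, Matrix.of_apply]
  rw [Finset.sum_eq_single (h • b)]
  · simp [mul_smul]
  · intro c _ hc
    rw [if_neg hc, mul_zero]
  · intro h1
    exact absurd (Finset.mem_univ _) h1

theorem Pm_transpose (g : G) : (Pm g : Matrix X X ℝ)ᵀ = Pm g⁻¹ := by
  ext a b
  simp only [Pm, Matrix.of_apply, Matrix.transpose_apply]
  have : b = g • a ↔ a = g⁻¹ • b := by
    constructor
    · rintro rfl; simp
    · rintro rfl; simp
  simp only [this]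

theorem Pm_mulVec (g : G) (f : X → ℝ) (a : X) : ((Pm g : Matrix X X ℝ) *ᵥ f) a = f (g⁻¹ • a) := by
  rw [Matrix.mulVec, dotProduct]
  simp only [Pm, Matrix.of_apply]
  rw [Finset.sum_eq_single (g⁻¹ • a)]
  · simp
  · intro c _ hc
    rw [if_neg, zero_mul]
    rintro rfl
    simp at hc
  · intro h1
    exact absurd (Finset.mem_univ _) h1

theorem Pm_mul_inv (g : G) : (Pm g : Matrix X X ℝ) * (Pm g)ᵀ = 1 := by
  rw [Pm_transpose, ← Pm_mul, mul_inv_cancel, Pm_one]

theorem Pm_inv_mul (g : G) : (Pm g : Matrix X X ℝ)ᵀ * Pm g = 1 := by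
  rw [Pm_transpose, ← Pm_mul, inv_mul_cancel, Pm_one]

theorem Sp_transpose (g : G) : (Sp g : Matrix X X ℝ)ᵀ = Sp g := by
  unfold Sp
  rw [Matrix.transpose_smul, Matrix.transpose_add, Pm_transpose, Pm_transpose, inv_inv, add_comm]

theorem Ap_transpose {ι : Type} [Fintype ι] (w : ι → ℝ) (x : ι → G) : (Ap w x : Matrix X X ℝ)ᵀ = Ap w x := by
  unfold Ap
  rw [Matrix.transpose_sum]
  refine Finset.sum_congr rfl fun i _ => ?_
  rw [Matrix.transpose_smul, Sp_transpose]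

variable [Fintype G]

theorem opm_cnv (α β : G → ℝ) : (opm (cnv α β) : Matrix X X ℝ) = opm α * opm β := by
  unfold opm
  rw [Finset.sum_mul]
  simp_rw [Finset.mul_sum]
  have h1 : ∀ h : G, ∑ g, (α h • (Pm h : Matrix X X ℝ)) * (β g • Pm g) = ∑ g, (α h * β (h⁻¹ * g)) • (Pm g : Matrix X X ℝ) := by
    intro h
    rw [← Equiv.sum_comp (Equiv.mulLeft h) (fun g => (α h * β (h⁻¹ * g)) • (Pm g : Matrix X X ℝ))]
    refine Finset.sum_congr rfl fun g _ => ?_
    rw [Equiv.coe_mulLeft, inv_mul_cancel_left, Pm_mul, Matrix.smul_mul, Matrix.mul_smul, smul_smul]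
  rw [Finset.sum_congr rfl fun h _ => h1 h, Finset.sum_comm]
  refine Finset.sum_congr rfl fun g _ => ?_
  rw [cnv, Finset.sum_smul]

theorem isWt_cnv {α β : G → ℝ} (hα : IsWt α) (hβ : IsWt β) : IsWt (cnv α β) := by
  refine ⟨fun g => Finset.sum_nonneg fun h _ => mul_nonneg (hα.1 h) (hβ.1 _), ?_⟩
  unfold cnv
  rw [Finset.sum_comm]
  have h1 : ∀ h : G, ∑ g, α h * β (h⁻¹ * g) = α h := by
    intro h
    rw [← Finset.mul_sum]
    have h2 : ∑ g, β (h⁻¹ * g) = ∑ g, β g := Equiv.sum_comp (Equiv.mulLeft h⁻¹) β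
    rw [h2, hβ.2, mul_one]
  rw [Finset.sum_congr rfl fun h _ => h1 h, hα.2]

variable [DecidableEq G]

theorem opm_single (g : G) : (opm (Pi.single g 1) : Matrix X X ℝ) = Pm g := by
  unfold opm
  rw [Finset.sum_eq_single g]
  · simp
  · intro h _ hh
    rw [Pi.single_eq_of_ne hh, zero_smul]
  · intro h; exact absurd (Finset.mem_univ _) h

theorem opm_add (α β : G → ℝ) : (opm (α + β) : Matrix X X ℝ) = opm α + opm β := by
  unfold opm
  rw [← Finset.sum_add_distrib]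
  exact Finset.sum_congr rfl fun g _ => by rw [Pi.add_apply, add_smul]

theorem opm_smul (c : ℝ) (α : G → ℝ) : (opm (c • α) : Matrix X X ℝ) = c • opm α := by
  unfold opm
  rw [Finset.smul_sum]
  exact Finset.sum_congr rfl fun g _ => by rw [Pi.smul_apply, smul_eq_mul, mul_smul]

theorem opm_sum {ι : Type} (s : Finset ι) (α : ι → G → ℝ) :
    (opm (∑ i ∈ s, α i) : Matrix X X ℝ) = ∑ i ∈ s, opm (α i) := by
  classical
  induction s using Finset.induction_on with
  | empty => simp [opm]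
  | insert i s hi ih => rw [Finset.sum_insert hi, Finset.sum_insert hi, opm_add, ih]

/-- The coefficients of the lazy operator. -/
noncomputable def lzc {ι : Type} [Fintype ι] (w : ι → ℝ) (x : ι → G) : G → ℝ :=
  (1 / 2 : ℝ) • (Pi.single 1 1 + ∑ i, w i • ((1 / 2 : ℝ) • (Pi.single (x i) 1 + Pi.single (x i)⁻¹ 1)))

theorem opm_lzc {ι : Type} [Fintype ι] (w : ι → ℝ) (x : ι → G) :
    (opm (lzc w x) : Matrix X X ℝ) = (1 / 2 : ℝ) • (1 + Ap w x) := by
  unfold lzc Ap Sp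
  rw [opm_smul, opm_add, opm_single, Pm_one, opm_sum]
  simp only [opm_smul, opm_add, opm_single]

theorem isWt_lzc {ι : Type} [Fintype ι] {w : ι → ℝ} (hw : IsWt w) (x : ι → G) : IsWt (lzc w x) := by
  have hs : ∀ g h : G, 0 ≤ (Pi.single g (1 : ℝ) : G → ℝ) h := fun g h => by
    by_cases hh : h = g
    · rw [hh]; simp
    · rw [Pi.single_eq_of_ne hh]
  have hsum : ∀ g : G, ∑ h, (Pi.single g (1 : ℝ) : G → ℝ) h = 1 := fun g => by simp
  refine ⟨fun g => ?_, ?_⟩
  · unfold lzc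
    simp only [Pi.smul_apply, Pi.add_apply, Finset.sum_apply, smul_eq_mul]
    refine mul_nonneg (by norm_num) (add_nonneg (hs _ _) (Finset.sum_nonneg fun i _ =>
      mul_nonneg (hw.1 i) (mul_nonneg (by norm_num) (add_nonneg (hs _ _) (hs _ _)))))
  · unfold lzc
    simp only [Pi.smul_apply, Pi.add_apply, Finset.sum_apply, smul_eq_mul]
    rw [← Finset.mul_sum, Finset.sum_add_distrib, hsum, Finset.sum_comm]
    have h1 : ∀ i, ∑ g, w i * (1 / 2 * ((Pi.single (x i) (1 : ℝ) : G → ℝ) g + (Pi.single (x i)⁻¹ (1 : ℝ) : G → ℝ) g)) = w i := by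
      intro i
      rw [← Finset.mul_sum, ← Finset.mul_sum, Finset.sum_add_distrib, hsum, hsum]
      ring
    rw [Finset.sum_congr rfl fun i _ => h1 i, hw.2]
    norm_num

/-- Convolution powers. -/
noncomputable def cpw (α : G → ℝ) : ℕ → G → ℝ
  | 0 => Pi.single 1 1
  | t + 1 => cnv (cpw α t) α

theorem opm_cpw (α : G → ℝ) (t : ℕ) : (opm (cpw α t) : Matrix X X ℝ) = opm α ^ t := by
  induction t with
  | zero => rw [cpw, opm_single, Pm_one, pow_zero]
  | succ t ih => rw [cpw, opm_cnv, ih, pow_succ]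

theorem isWt_cpw {α : G → ℝ} (hα : IsWt α) (t : ℕ) : IsWt (cpw α t) := by
  induction t with
  | zero =>
    refine ⟨fun h => ?_, by simp [cpw]⟩
    rw [cpw]
    by_cases hh : h = 1
    · rw [hh]; simp
    · rw [Pi.single_eq_of_ne hh]
  | succ t ih => exact isWt_cnv ih hα

end

/-- L7a. Coefficients of the powers of the lazy operator. -/
theorem L7a {n : ℕ} {ι : Type} [Fintype ι] {w : ι → ℝ} (hw : IsWt w) (x : ι → Alt n) (t : ℕ) :
    ∃ β : Alt n → ℝ, IsWt β ∧ (∀ K : ℕ, (opm β : Matrix (Tp n K) (Tp n K) ℝ) = ((1 / 2 : ℝ) • (1 + Ap w x)) ^ t) ∧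
      (∀ K : ℕ, (opm (cnv β β) : Matrix (Tp n K) (Tp n K) ℝ) = ((1 / 2 : ℝ) • (1 + Ap w x)) ^ (2 * t)) ∧
      IsWt (cnv β β) := by
  classical
  have h1 := isWt_cpw (isWt_lzc hw x) t
  have h2 : ∀ K : ℕ, (opm (cpw (lzc w x) t) : Matrix (Tp n K) (Tp n K) ℝ) =
      ((1 / 2 : ℝ) • (1 + Ap w x)) ^ t := fun K => by rw [opm_cpw, opm_lzc]
  refine ⟨_, h1, h2, fun K => ?_, isWt_cnv h1 h1⟩
  rw [opm_cnv, h2, two_mul, pow_add]

section
variable {n : ℕ}

theorem Wd_congr (y : Alt n) (e : ℕ → Bool) (h h' : ℕ → Alt n) (N : ℕ) (hh : ∀ s ≤ N, h s = h' s) :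
    Wd y e h N = Wd y e h' N := by
  induction N with
  | zero => exact hh 0 le_rfl
  | succ N ih => rw [Wd, Wd, hh _ le_rfl, ih fun s hs => hh s (hs.trans (Nat.le_succ N))]

theorem ext1_snoc_lt {N : ℕ} (h : Fin N → Alt n) (g : Alt n) {s : ℕ} (hs : s < N) :
    ext1 (Fin.snoc h g : Fin (N + 1) → Alt n) s = ext1 h s := by
  unfold ext1
  rw [dif_pos hs, dif_pos (hs.trans (Nat.lt_succ_self N))]
  have : (⟨s, hs.trans (Nat.lt_succ_self N)⟩ : Fin (N + 1)) = Fin.castSucc ⟨s, hs⟩ := rfl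
  rw [this, Fin.snoc_castSucc]

theorem ext1_snoc_last {N : ℕ} (h : Fin N → Alt n) (g : Alt n) :
    ext1 (Fin.snoc h g : Fin (N + 1) → Alt n) N = g := by
  unfold ext1
  rw [dif_pos (Nat.lt_succ_self N)]
  have : (⟨N, Nat.lt_succ_self N⟩ : Fin (N + 1)) = Fin.last N := rfl
  rw [this, Fin.snoc_last]

/-- Sums over sequences: split off the last letter. -/
theorem sum_snoc {N : ℕ} {M : Type} [AddCommMonoid M] (F : (Fin (N + 1) → Alt n) → M) :
    ∑ h, F h = ∑ g : Alt n, ∑ h : Fin N → Alt n, F (Fin.snoc (α := fun _ => Alt n) h g) := by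
  rw [← Equiv.sum_comp (Fin.snocEquiv (fun _ => Alt n)) F, Fintype.sum_prod_type]
  rfl

/-- L6. Expansion of the product of the operators. -/
theorem L6 {X : Type} [MulAction (Alt n) X] [DecidableEq X] [Fintype X] (y : Alt n) (e : ℕ → Bool)
    (a : ℕ → Alt n → ℝ) (N : ℕ) :
    (Prd y e a N : Matrix X X ℝ) =
      ∑ h : Fin (N + 1) → Alt n, (∏ i : Fin (N + 1), a (i : ℕ) (h i)) • Pm (Wd y e (ext1 h) N) := by
  induction N with
  | zero =>
    rw [sum_snoc (M := Matrix X X ℝ), Prd, opm]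
    refine Finset.sum_congr rfl fun g _ => ?_
    rw [Fintype.sum_unique, Fin.prod_univ_castSucc, Fin.prod_univ_zero, one_mul, Wd, ext1_snoc_last, Fin.snoc_last,
      Fin.val_last]
  | succ N ih =>
    rw [sum_snoc (M := Matrix X X ℝ), Prd, ih, opm, Finset.sum_mul, Finset.sum_mul]
    refine Finset.sum_congr rfl fun g _ => ?_
    rw [Finset.mul_sum]
    refine Finset.sum_congr rfl fun h _ => ?_
    have hprod : (∏ i : Fin (N + 1 + 1), a (i : ℕ) ((Fin.snoc (α := fun _ => Alt n) h g : Fin (N + 1 + 1) → Alt n) i)) =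
        (∏ i : Fin (N + 1), a (i : ℕ) (h i)) * a (N + 1) g := by
      rw [Fin.prod_univ_castSucc]
      simp only [Fin.snoc_castSucc, Fin.snoc_last, Fin.val_castSucc, Fin.val_last]
    rw [hprod, Wd, ext1_snoc_last, Wd_congr y e (ext1 (Fin.snoc h g : Fin (N + 1 + 1) → Alt n)) (ext1 h) N
      (fun s hs => ext1_snoc_lt h g (Nat.lt_succ_of_le hs)), Pm_mul, Pm_mul, Matrix.smul_mul, Matrix.smul_mul,
      Matrix.mul_smul, smul_smul, mul_comm (a (N + 1) g)]

end

end Pool.Agent.BC5
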