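import Pool.Agent.Lib.MP_bc5a73_al.Lift.SpecStep

/-! # Pure functions, pair vectors and products (MP_bc5a73_al) -/

set_option autoImplicit false
set_option linter.unusedSectionVars false
set_option linter.unusedVariables false
open scoped BigOperators Matrix
open Matrix
namespace Pool.Agent.BC5

section kernel
variable {V : Type} [Fintype V] [DecidableEq V]

/-- The orthogonal projection onto the kernel of a symmetric matrix. -/
theorem ker_proj (M : Matrix V V ℝ) (hM : Mᵀ = M) :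
    ∃ Q : Matrix V V ℝ, IsPr Q ∧ (∀ f, Q *ᵥ f = f ↔ M *ᵥ f = 0) ∧ ∀ X, Commute X M → Commute X Q := by
  obtain ⟨U, d, hU1, hU2, hMU⟩ := L2_spec M hM
  refine ⟨U * diagonal (fun i => if d i = 0 then (1 : ℝ) else 0) * Uᵀ, ⟨?_, ?_⟩, ?_, ?_⟩
  · rw [Matrix.transpose_mul, Matrix.transpose_mul, Matrix.transpose_transpose, Matrix.diagonal_transpose, mul_assoc]
  · rw [L2_mul hU2]
    have hind : ∀ i, (if d i = 0 then (1 : ℝ) else 0) * (if d i = 0 then (1 : ℝ) else 0) = if d i = 0 then (1 : ℝ) else 0 := by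
      intro i
      split_ifs <;> norm_num
    simp only [hind]
  · intro f
    constructor
    · intro h
      have h2 : M * (U * diagonal (fun i => if d i = 0 then (1 : ℝ) else 0) * Uᵀ) = 0 := by
        rw [hMU, L2_mul hU2]
        have hz : (fun i => d i * (if d i = 0 then (1 : ℝ) else 0)) = fun _ => 0 := by
          funext i
          split_ifs with hi
          · rw [hi, zero_mul]
          · rw [mul_zero]
        rw [hz, Matrix.diagonal_zero, mul_zero, zero_mul]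
      rw [← h, Matrix.mulVec_mulVec, h2, Matrix.zero_mulVec]
    · intro h
      have h2 : ∀ i, d i * (Uᵀ *ᵥ f) i = 0 := by
        intro i
        have h3 : Uᵀ *ᵥ (M *ᵥ f) = 0 := by rw [h, Matrix.mulVec_zero]
        rw [hMU, Matrix.mulVec_mulVec, mul_assoc U, ← mul_assoc, hU2, one_mul, ← Matrix.mulVec_mulVec] at h3
        have h4 := congrFun h3 i
        rwa [Matrix.mulVec_diagonal] at h4
      have h3 : (diagonal (fun i => if d i = 0 then (1 : ℝ) else 0)) *ᵥ (Uᵀ *ᵥ f) = Uᵀ *ᵥ f := by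
        funext i
        rw [Matrix.mulVec_diagonal]
        by_cases hi : d i = 0
        · rw [if_pos hi, one_mul]
        · rw [if_neg hi, zero_mul]
          rcases mul_eq_zero.1 (h2 i) with h5 | h5
          · exact absurd h5 hi
          · exact h5.symm
      rw [← Matrix.mulVec_mulVec, ← Matrix.mulVec_mulVec, h3, Matrix.mulVec_mulVec, hU1, Matrix.one_mulVec]
  · intro X hX
    rw [hMU] at hX
    exact L2_comm hU1 hU2 d (fun t => if t = 0 then (1 : ℝ) else 0) X hX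

end kernel

section
variable {n : ℕ}

/-- The matrix of the sums over one coordinate. -/
def Cj {n K : ℕ} (j : Fin K) : Matrix (Tp n K) (Tp n K) ℝ :=
  Matrix.of fun a b => if ∀ i, i ≠ j → b i = a i then 1 else 0

theorem Cj_transpose {K : ℕ} (j : Fin K) : (Cj j : Matrix (Tp n K) (Tp n K) ℝ)ᵀ = Cj j := by
  ext a b
  unfold Cj
  rw [Matrix.transpose_apply, Matrix.of_apply, Matrix.of_apply]
  refine if_congr ⟨fun h i hi => (h i hi).symm, fun h i hi => (h i hi).symm⟩ rfl rfl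

theorem Cj_mulVec {K : ℕ} (j : Fin K) (f : Tp n K → ℝ) (a : Tp n K) :
    (Cj j *ᵥ f) a = ∑ b ∈ Finset.univ.filter (fun b : Tp n K => ∀ i, i ≠ j → b i = a i), f b := by
  rw [Finset.sum_filter, Matrix.mulVec, dotProduct]
  refine Finset.sum_congr rfl fun b _ => ?_
  unfold Cj
  rw [Matrix.of_apply]
  by_cases h : ∀ i, i ≠ j → b i = a i
  · rw [if_pos h, if_pos h, one_mul]
  · rw [if_neg h, if_neg h, zero_mul]

theorem smul_tp_apply {K : ℕ} (g : Alt n) (a : Tp n K) (i : Fin K) : (g • a) i = g • a i := rfl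

theorem Cj_comm {K : ℕ} (j : Fin K) (g : Alt n) : Commute (Pm g : Matrix (Tp n K) (Tp n K) ℝ) (Cj j) := by
  have h : ∀ f : Tp n K → ℝ, (Pm g * Cj j) *ᵥ f = (Cj j * Pm g) *ᵥ f := by
    intro f
    funext a
    rw [← Matrix.mulVec_mulVec, ← Matrix.mulVec_mulVec, Pm_mulVec, Cj_mulVec, Cj_mulVec]
    simp only [Pm_mulVec]
    refine Finset.sum_bij' (fun b _ => MulAction.toPerm g b) (fun b _ => (MulAction.toPerm g).symm b) ?_ ?_ ?_ ?_ ?_
    · intro b hb
      rw [Finset.mem_filter] at hb ⊢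
      refine ⟨Finset.mem_univ _, fun i hi => ?_⟩
      have h2 := hb.2 i hi
      have h3 : g • b i = a i := by
        rw [h2]
        exact smul_inv_smul g (a i)
      exact h3
    · intro b hb
      rw [Finset.mem_filter] at hb ⊢
      refine ⟨Finset.mem_univ _, fun i hi => ?_⟩
      have h2 := hb.2 i hi
      exact congrArg (fun p => g⁻¹ • p) h2
    · intro b _
      exact Equiv.symm_apply_apply _ _
    · intro b _
      exact Equiv.apply_symm_apply _ _
    · intro b _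
      exact congrArg f (inv_smul_smul g b).symm
  exact Matrix.ext_of_mulVec_single fun i => h _

theorem L8a (n K : ℕ) : ∃ Q : Matrix (Tp n K) (Tp n K) ℝ, IsPr Q ∧ (∀ f, Q *ᵥ f = f ↔ IsPure f) ∧
    ∀ g : Alt n, Commute Q (Pm g) := by
  obtain ⟨M, hMdef⟩ : ∃ M : Matrix (Tp n K) (Tp n K) ℝ, M = ∑ j : Fin K, Cj j * Cj j := ⟨_, rfl⟩
  have hM : Mᵀ = M := by
    rw [hMdef, Matrix.transpose_sum]
    exact Finset.sum_congr rfl fun j _ => by rw [Matrix.transpose_mul, Cj_transpose]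
  obtain ⟨Q, hQ, hQ1, hQ2⟩ := ker_proj M hM
  have hker : ∀ f : Tp n K → ℝ, M *ᵥ f = 0 ↔ IsPure f := by
    intro f
    constructor
    · intro h j a
      have h2 : qf M f = 0 := by
        unfold qf
        rw [h, dotProduct_zero]
      have h3 : ∀ j : Fin K, qf (Cj j * Cj j) f = (Cj j *ᵥ f) ⬝ᵥ (Cj j *ᵥ f) := by
        intro j
        unfold qf
        rw [← Matrix.mulVec_mulVec, Matrix.dotProduct_mulVec, ← Matrix.mulVec_transpose, Cj_transpose]
      rw [hMdef, qf_sum] at h2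
      have h4 := (Finset.sum_eq_zero_iff_of_nonneg (fun j _ => by rw [h3]; exact dot_self_nonneg _)).1 h2 j (Finset.mem_univ j)
      rw [h3] at h4
      have h5 : Cj j *ᵥ f = 0 := by
        by_contra hne
        exact absurd h4 (dot_self_pos hne).ne'
      rw [← Cj_mulVec, h5]
      rfl
    · intro h
      have h5 : ∀ j : Fin K, Cj j *ᵥ f = 0 := by
        intro j
        funext a
        rw [Cj_mulVec]
        exact h j a
      rw [hMdef, Matrix.sum_mulVec]
      refine Finset.sum_eq_zero fun j _ => ?_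
      rw [← Matrix.mulVec_mulVec, h5, Matrix.mulVec_zero]
  refine ⟨Q, hQ, fun f => (hQ1 f).trans (hker f), fun g => ?_⟩
  have h6 : Commute (Pm g : Matrix (Tp n K) (Tp n K) ℝ) M := by
    rw [hMdef]
    exact Commute.sum_right _ _ _ fun j _ => (Cj_comm j g).mul_right (Cj_comm j g)
  exact (hQ2 _ h6).symm

/-- L8c. Consequence for the pair vectors (`L3` as a hypothesis). -/
theorem L8c {K : ℕ} (hL3 : ∀ f : Tp n K → ℝ, IsPure f → f ⬝ᵥ f ≤ (4 * n : ℝ) ^ K * ∑ z : Lb K ↪ Fin n, (f ⬝ᵥ pv z) ^ 2)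
    (Z : Matrix (Tp n K) (Tp n K) ℝ) (hZ : Zᵀ = Z)
    (h0 : ∀ v, 0 ≤ qf Z v) (hZp : ∀ f, IsPure f → IsPure (Z *ᵥ f)) (g : Tp n K → ℝ) (hg : IsPure g)
    (hg1 : g ⬝ᵥ g = 1) (r : ℕ) (hr : 1 ≤ r) :
    qf Z g ^ (2 * r) ≤ (4 * n : ℝ) ^ K * ∑ z : Lb K ↪ Fin n, qf (Z ^ (2 * r)) (pv z) := by
  have h1 : qf Z g ^ (2 * r) ≤ qf (Z ^ (2 * r)) g := by
    have h := qf_pow_le Z hZ h0 g hg1.le r hr
    exact h
  have hZr : (Z ^ r)ᵀ = Z ^ r := by rw [Matrix.transpose_pow, hZ]
  have h2 : ∀ v : Tp n K → ℝ, qf (Z ^ (2 * r)) v = (Z ^ r *ᵥ v) ⬝ᵥ (Z ^ r *ᵥ v) := by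
    intro v
    unfold qf
    rw [two_mul, pow_add, ← Matrix.mulVec_mulVec, Matrix.dotProduct_mulVec, ← Matrix.mulVec_transpose, hZr]
  have h3 : ∀ s : ℕ, IsPure (Z ^ s *ᵥ g) := by
    intro s
    induction s with
    | zero => rw [pow_zero, Matrix.one_mulVec]; exact hg
    | succ s ih =>
      rw [pow_succ', ← Matrix.mulVec_mulVec]
      exact hZp _ ih
  refine h1.trans ?_
  rw [h2]
  refine (hL3 _ (h3 r)).trans (mul_le_mul_of_nonneg_left (Finset.sum_le_sum fun z _ => ?_) (by positivity))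
  rw [h2]
  have h4 : (Z ^ r *ᵥ g) ⬝ᵥ pv z = g ⬝ᵥ (Z ^ r *ᵥ pv z) := by
    rw [Matrix.dotProduct_mulVec, ← Matrix.mulVec_transpose, hZr]
  rw [h4]
  have h5 := L1_dot_cs g (Z ^ r *ᵥ pv z)
  rwa [hg1, one_mul] at h5

theorem Prd_congr {X : Type} [MulAction (Alt n) X] [DecidableEq X] [Fintype X] (y : Alt n) (e : ℕ → Bool)
    (a a' : ℕ → Alt n → ℝ) (N : ℕ) (h : ∀ s ≤ N, a s = a' s) : (Prd y e a N : Matrix X X ℝ) = Prd y e a' N := by
  induction N with
  | zero => rw [Prd, Prd, h 0 le_rfl]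
  | succ N ih => rw [Prd, Prd, h _ le_rfl, ih fun s hs => h s (hs.trans (Nat.le_succ N))]

theorem P1 {X : Type} [MulAction (Alt n) X] [DecidableEq X] [Fintype X] (y : Alt n) (β : Alt n → ℝ) (r : ℕ) (hr : 1 ≤ r) :
    ((opm β : Matrix X X ℝ) * (Pm y * opm (cnv β β) * (Pm y)ᵀ) * opm β) ^ r =
      Prd y (fun s => decide (s % 2 = 1)) (fun s => if s = 0 ∨ s = 2 * r then β else cnv β β) (2 * r) := by
  obtain ⟨a, ha⟩ : ∃ a : ℕ → Alt n → ℝ, a = fun s => if s = 0 then β else cnv β β := ⟨_, rfl⟩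
  obtain ⟨e, he⟩ : ∃ e : ℕ → Bool, e = fun s => decide (s % 2 = 1) := ⟨_, rfl⟩
  obtain ⟨Z, hZ⟩ : ∃ Z : Matrix X X ℝ, Z = (opm β : Matrix X X ℝ) * (Pm y * opm (cnv β β) * (Pm y)ᵀ) * opm β := ⟨_, rfl⟩
  have hstep : ∀ s : ℕ, (Prd y e a (2 * s + 1) : Matrix X X ℝ) = opm (cnv β β) * (Pm y)ᵀ * Prd y e a (2 * s) := by
    intro s
    rw [Prd, ha, he]
    have h1 : decide ((2 * s) % 2 = 1) = false := by
      rw [decide_eq_false_iff_not]
      omega
    simp only [h1]
    rw [Pm_transpose]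
    simp [yp]
  have hstep2 : ∀ s : ℕ, (Prd y e a (2 * (s + 1)) : Matrix X X ℝ) = opm (cnv β β) * Pm y * Prd y e a (2 * s + 1) := by
    intro s
    have h0 : 2 * (s + 1) = (2 * s + 1) + 1 := by ring
    rw [h0, Prd, ha, he]
    have h1 : decide ((2 * s + 1) % 2 = 1) = true := by
      rw [decide_eq_true_iff]
      omega
    simp only [h1]
    simp [yp]
  have hmain : ∀ s : ℕ, (Prd y e a (2 * s) : Matrix X X ℝ) = opm β * Z ^ s := by
    intro s
    induction s with
    | zero =>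
      rw [mul_zero, Prd, pow_zero, mul_one, ha]
      simp
    | succ s ih =>
      rw [hstep2, hstep, ih, pow_succ', hZ, opm_cnv]
      simp only [mul_assoc]
  obtain ⟨s, rfl⟩ : ∃ s, r = s + 1 := ⟨r - 1, by omega⟩
  have h0 : 2 * (s + 1) = (2 * s + 1) + 1 := by ring
  rw [← hZ, ← he, h0, Prd]
  have h1 : (Prd y e (fun s' => if s' = 0 ∨ s' = 2 * s + 1 + 1 then β else cnv β β) (2 * s + 1) : Matrix X X ℝ) =
      Prd y e a (2 * s + 1) := by
    refine Prd_congr y e _ _ _ fun s' hs' => ?_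
    rw [ha]
    have h2 : ¬ s' = 2 * s + 1 + 1 := by omega
    simp only [h2, or_false]
  have h2 : e (2 * s + 1) = true := by
    rw [he, decide_eq_true_iff]
    omega
  rw [h1, hstep, hmain, h2, pow_succ', hZ]
  simp [yp, mul_assoc]

theorem pv_abs_le {K : ℕ} (z : Lb K ↪ Fin n) (a : Tp n K) : pv z a ^ 2 ≤ ∏ j, ((if a j = z (j, false) then (1 : ℝ) else 0) +
    (if a j = z (j, true) then 1 else 0)) := by
  unfold pv
  rw [← Finset.prod_pow]
  refine Finset.prod_le_prod (fun j _ => sq_nonneg _) fun j _ => ?_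
  have hne : z (j, false) ≠ z (j, true) := by
    intro h
    have := z.injective h
    simp at this
  by_cases h1 : a j = z (j, false)
  · have h2 : ¬ a j = z (j, true) := fun h => hne (h1.symm.trans h)
    rw [if_pos h1, if_neg h2]
    norm_num
  · rw [if_neg h1]
    split_ifs <;> norm_num

theorem pv_dot_self_le {K : ℕ} (z : Lb K ↪ Fin n) : pv z ⬝ᵥ pv z ≤ 2 ^ K := by
  have h1 : pv z ⬝ᵥ pv z = ∑ a : Tp n K, pv z a ^ 2 := by
    rw [dotProduct]
    exact Finset.sum_congr rfl fun a _ => (sq _).symm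
  rw [h1]
  refine (Finset.sum_le_sum fun a _ => pv_abs_le z a).trans ?_
  -- extend the sum to all functions
  have h2 : ∑ a : Tp n K, ∏ j, ((if a j = z (j, false) then (1 : ℝ) else 0) + (if a j = z (j, true) then 1 else 0)) ≤
      ∑ a : Fin K → Fin n, ∏ j, ((if a j = z (j, false) then (1 : ℝ) else 0) + (if a j = z (j, true) then 1 else 0)) := by
    have h3 : ∑ a : Tp n K, ∏ j, ((if a j = z (j, false) then (1 : ℝ) else 0) + (if a j = z (j, true) then 1 else 0)) =
        ∑ a ∈ Finset.univ.map ⟨fun a : Tp n K => (a : Fin K → Fin n), DFunLike.coe_injective⟩,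
          ∏ j, ((if a j = z (j, false) then (1 : ℝ) else 0) + (if a j = z (j, true) then 1 else 0)) := by
      rw [Finset.sum_map]
      rfl
    rw [h3]
    refine Finset.sum_le_sum_of_subset_of_nonneg (Finset.subset_univ _) fun a _ _ => ?_
    refine Finset.prod_nonneg fun j _ => ?_
    split_ifs <;> norm_num
  refine h2.trans ?_
  have h4 := Finset.prod_univ_sum (fun _ : Fin K => (Finset.univ : Finset (Fin n)))
    (fun j p => ((if p = z (j, false) then (1 : ℝ) else 0) + (if p = z (j, true) then 1 else 0)))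
  have h5 : Fintype.piFinset (fun _ : Fin K => (Finset.univ : Finset (Fin n))) = Finset.univ := Fintype.piFinset_univ
  rw [h5] at h4
  rw [← h4]
  have h6 : ∀ j : Fin K, ∑ p : Fin n, ((if p = z (j, false) then (1 : ℝ) else 0) + (if p = z (j, true) then 1 else 0)) = 2 := by
    intro j
    rw [Finset.sum_add_distrib, Finset.sum_ite_eq', Finset.sum_ite_eq', if_pos (Finset.mem_univ _), if_pos (Finset.mem_univ _)]
    norm_num
  rw [Finset.prod_congr rfl fun j _ => h6 j, Finset.prod_const, Finset.card_univ, Fintype.card_fin]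

theorem P2 {K : ℕ} (g : Alt n) (z : Lb K ↪ Fin n) : |(pv z) ⬝ᵥ ((Pm g : Matrix (Tp n K) (Tp n K) ℝ) *ᵥ pv z)| ≤ 2 ^ K :=
  (abs_qf_Pm_le g (pv z)).trans (pv_dot_self_le z)

end

end Pool.Agent.BC5
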