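import Pool.Agent.Lib.MP_bc5a73_al.Lift.Defs

set_option autoImplicit false
open scoped BigOperators Matrix
open Matrix
namespace Pool.Agent.BC5

/-- The weights. -/
noncomputable def wts : (i : ℕ) → Fin (2 + i) → ℝ
  | 0 => fun _ => 1 / 2
  | i + 1 => Fin.snoc (α := fun _ => ℝ) (fun j => wts i j / 2) (1 / 2)

theorem wts_isWt (i : ℕ) : IsWt (wts i) := by
  induction i with
  | zero =>
    refine ⟨fun j => by simp [wts], ?_⟩
    simp [wts]
  | succ i ih =>
    refine ⟨fun j => ?_, ?_⟩
    · rw [wts]
      refine Fin.lastCases ?_ (fun j => ?_) j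
      · rw [Fin.snoc_last]; norm_num
      · rw [Fin.snoc_castSucc]
        have := ih.1 j
        linarith
    · rw [wts]
      have h := Fin.sum_univ_castSucc (n := 2 + i) (Fin.snoc (α := fun _ => ℝ) (fun j => wts i j / 2) (1 / 2))
      refine Eq.trans h ?_
      simp only [Fin.snoc_castSucc, Fin.snoc_last]
      rw [← Finset.sum_div, ih.2]
      norm_num

end Pool.Agent.BC5
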